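import Pool.Agent.PolyTop.Crs

/-!
# Crossing walls pass through a common vertex

Proof of `cross_vertex` for crossing walls `K`, `L`. A *good chamber* is `p` with `¬ Sep K p` and `p⁻¹ K p` simple.
(a) There is a good chamber `p₁` with `¬ Sep L p₁`: take `w` with `Sep K w`, `¬ Sep L w`, and a reduced word of `w`; all prefixes `p` have
  `¬ Sep L p` (`sep_red`); `K` separates `1` and `w`, so there is a prefix `p s` with `¬ Sep K p`, `Sep K (p s)`; by `sep_mul`, `p⁻¹ K p = s`.
(b) There is a good chamber `p₂` with `Sep L p₂`: take `w` with `¬ Sep K w`, `Sep L w` and `w'` with `Sep K w'`, `Sep L w'`, and a reduced word of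
  `w⁻¹ w'`; for all prefixes `q`, `Sep L (w q)` (otherwise `L` would separate `w`, `w q` and `w q`, `w w⁻¹ w'`: `sep_mul`, `sep_red_not`);
  the first prefix with `Sep K (w q s)` gives `p₂ = w q`.
(c) Choose `(p₁, p₂)` as in (a), (b) with `ℓ(y)` minimal, `y = p₁⁻¹ p₂`. `p₁⁻¹ K p₁ = s`, `p₂⁻¹ K p₂ = s'` simple, so `s y = y s'`; `s`
  does not separate `1` and `y` (`sep_mul`), so `ℓ(s y) = ℓ(y) + 1`; `y ≠ 1` as `Sep L p₂`, `¬ Sep L p₁`. Let `e` be a left descent of `y`. Then
  `s`, `e` are left descents of `y s' = s y`, so `both_ld` (Dih2): `M s e ≠ 0` and `s y = w_T z` reduced, `T = {s,e}`, `z` left minimal. Let `ν = s w_T ∈ D_T`;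
  `y = ν z` is reduced, and `ν⁻¹ s ν = w_T s w_T =: s''` is a simple reflection (of `T`; e.g. `wT_conj` or `ℓ(s w_T) = ℓ(w_T) - 1`, `ℓ(w_T s w_T) = ℓ(w_T) - ℓ(s w_T) = 1`), `s` does not separate `1` and `ν`.
  So `p₁ ν` is a good chamber. If `¬ Sep L (p₁ ν)` then `(p₁ ν, p₂)` has smaller length `ℓ(z)`, contradiction. So `Sep L (p₁ ν)`, `¬ Sep L p₁`, hence
  `p₁⁻¹ L p₁` separates `1` and `ν`, so it is in `D_T` (`sep_mem_D`), and `p₁⁻¹ K p₁ = s ∈ D_T`. Take `g = p₁`.
-/

open CoxeterSystem Pool.Agent.PolyCell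

namespace Pool.Agent.PolyTop

variable {B W : Type*} [Group W] {M : CoxeterMatrix B} (cs : CoxeterSystem M W)

/-- walking from `u` to `v` along a reduced word of `u⁻¹ v` -/
private theorem LemV_walk {K L : W} (hK : cs.IsReflection K) (hL : cs.IsReflection L) :
    ∀ (n : ℕ) (u v : W), cs.length (u⁻¹ * v) = n → ¬ Sep cs K u → Sep cs K v →
      (Sep cs L u ↔ Sep cs L v) →
      ∃ (p : W) (k : B), ¬ Sep cs K p ∧ p⁻¹ * K * p = cs.simple k ∧ (Sep cs L p ↔ Sep cs L u) := by
  intro n
  induction n with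
  | zero =>
    intro u v hn hu hv _
    exfalso
    rw [cs.length_eq_zero_iff] at hn
    have huv : u = v := inv_mul_eq_one.1 hn
    rw [huv] at hu
    exact hu hv
  | succ n ih =>
    intro u v hn hu hv hLuv
    have hne : u⁻¹ * v ≠ 1 := by
      intro h0
      rw [h0, cs.length_one] at hn
      omega
    obtain ⟨i, hi⟩ := cs.exists_leftDescent_of_ne_one hne
    have hlen : cs.length (cs.simple i * (u⁻¹ * v)) + 1 = cs.length (u⁻¹ * v) :=
      cs.isLeftDescent_iff.1 hi
    by_cases hKs : Sep cs K (u * cs.simple i)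
    · refine ⟨u, i, hu, ?_, Iff.rfl⟩
      have h1 := (sep_mul cs hK u (cs.simple i)).1 hKs
      have h2 : Sep cs (u⁻¹ * K * u) (cs.simple i) := by
        by_contra h3
        exact h1 (iff_of_false hu h3)
      exact (sep_simple cs).1 h2
    · have hs : (u * cs.simple i)⁻¹ * v = cs.simple i * (u⁻¹ * v) := by
        rw [mul_inv_rev, cs.inv_simple, mul_assoc]
      have hred : Red cs (cs.simple i) (cs.simple i * (u⁻¹ * v)) := by
        unfold Red
        rw [cs.simple_mul_simple_cancel_left, cs.length_simple]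
        omega
      have hLs : Sep cs L (u * cs.simple i) ↔ Sep cs L u := by
        by_contra hcon
        have h1 := sep_mul cs hL u (cs.simple i)
        have h2 : Sep cs (u⁻¹ * L * u) (cs.simple i) := by
          by_contra h3
          apply hcon
          rw [h1]
          constructor
          · intro h4
            by_contra h5
            exact h4 (iff_of_false h5 h3)
          · intro h4 h5
            exact h3 (h5.1 h4)
        have h3 := sep_red_not cs hred h2
        have h4 := sep_mul cs hL (u * cs.simple i) (cs.simple i * (u⁻¹ * v))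
        have h5 : u * cs.simple i * (cs.simple i * (u⁻¹ * v)) = v := by
          rw [mul_assoc, cs.simple_mul_simple_cancel_left, mul_inv_cancel_left]
        have h6 : (u * cs.simple i)⁻¹ * L * (u * cs.simple i) =
            (cs.simple i)⁻¹ * (u⁻¹ * L * u) * cs.simple i := by
          group
        rw [h5, h6] at h4
        apply hcon
        rw [hLuv, h4]
        constructor
        · intro h7 h8
          exact h3 (h8.1 h7)
        · intro h7
          by_contra h8
          exact h7 (iff_of_false h8 h3)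
      obtain ⟨p, k, hp, hpk, hpL⟩ := ih (u * cs.simple i) v (by rw [hs]; omega) hKs hv
        (hLs.trans hLuv)
      exact ⟨p, k, hp, hpk, hpL.trans hLs⟩

private theorem LemV_key {K L : W} (hK : cs.IsReflection K) (hL : cs.IsReflection L) :
    ∀ (n : ℕ) (p q : W) (k l : B), cs.length (p⁻¹ * q) ≤ n → ¬ Sep cs K p → ¬ Sep cs K q →
      p⁻¹ * K * p = cs.simple k → q⁻¹ * K * q = cs.simple l → ¬ Sep cs L p → Sep cs L q →
      ∃ (g : W) (i j : B), i ≠ j ∧ M i j ≠ 0 ∧ g⁻¹ * K * g ∈ D cs i j ∧
        g⁻¹ * L * g ∈ D cs i j := by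
  intro n
  induction n with
  | zero =>
    intro p q k l hn _ _ _ _ hLp hLq
    exfalso
    have h0 : p⁻¹ * q = 1 := cs.length_eq_zero_iff.1 (by omega)
    rw [inv_mul_eq_one.1 h0] at hLp
    exact hLp hLq
  | succ n ih =>
    intro p q k l hn hKp hKq hpk hql hLp hLq
    set y := p⁻¹ * q with hy
    have hq : q = p * y := by rw [hy, mul_inv_cancel_left]
    have hne : y ≠ 1 := by
      intro h0
      rw [h0, mul_one] at hq
      rw [hq] at hLq
      exact hLp hLq
    have hys : y * cs.simple l = cs.simple k * y := by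
      rw [← hpk, ← hql, hq]
      group
    have hnk : ¬ cs.IsLeftDescent y k := by
      intro h
      have h1 : Sep cs (cs.simple k) y := (sep_simple_iff cs).2 h
      rw [hq, sep_mul cs hK p y, hpk] at hKq
      exact hKq (fun h2 => hKp (h2.2 h1))
    have hnl : ¬ cs.IsRightDescent y l := by
      intro h
      apply hnk
      unfold CoxeterSystem.IsRightDescent at h
      unfold CoxeterSystem.IsLeftDescent
      rw [← hys]
      exact h
    obtain ⟨e, he⟩ := cs.exists_leftDescent_of_ne_one hne
    have hke : k ≠ e := by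
      rintro rfl
      exact hnk he
    obtain ⟨hm, ν, y2, hyν, hν, hy2, hlen, hsν, hlν, -, -, -⟩ := wall_step cs hys hnl he hke
    have h2 := two_le_exp hke hm
    by_cases hLν : Sep cs L (p * ν)
    · have h3 : Sep cs (p⁻¹ * L * p) ν := by
        by_contra h4
        exact (sep_mul cs hL p ν).1 hLν (iff_of_false hLp h4)
      refine ⟨p, k, e, hke, hm, ?_, sep_mem_D cs hν h3⟩
      rw [hpk]
      exact Subgroup.subset_closure (Or.inl rfl)
    · have hν' : ν = cs.simple k * wT cs k e := by
        rw [← hsν, cs.simple_mul_simple_cancel_left]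
      have hconj : (p * ν)⁻¹ * K * (p * ν) = wT cs k e * cs.simple k * wT cs k e := by
        have h3 : (p * ν)⁻¹ * K * (p * ν) = ν⁻¹ * (p⁻¹ * K * p) * ν := by group
        rw [h3, hpk, hν', mul_inv_rev, wT_inv, cs.inv_simple]
        simp only [mul_assoc, cs.simple_mul_simple_cancel_left]
      have hl1 : cs.length (wT cs k e * cs.simple k * wT cs k e) = 1 := by
        have h3 := (len_compl cs hke hm hν).1
        rw [hν', mul_inv_rev, wT_inv, cs.inv_simple, ← hν'] at h3
        omega
      obtain ⟨a, ha⟩ := cs.length_eq_one_iff.1 hl1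
      have hKν : ¬ Sep cs K (p * ν) := by
        rw [sep_mul cs hK p ν, hpk]
        intro h3
        apply h3
        refine iff_of_false hKp ?_
        intro h4
        have h5 : cs.length (cs.simple k * ν) < cs.length ν := h4.2
        rw [hsν, length_wT cs hke] at h5
        omega
      have hlast : (p * ν)⁻¹ * q = y2 := by
        rw [hq, hyν]
        group
      refine ih (p * ν) q a l ?_ hKν hKq (hconj.trans ha) hql hLν hLq
      rw [hlast]
      omega

theorem cross_vertex {t u : W} (h : Cross cs t u) :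
    ∃ (g : W) (i j : B), i ≠ j ∧ M i j ≠ 0 ∧ g⁻¹ * t * g ∈ D cs i j ∧ g⁻¹ * u * g ∈ D cs i j := by
  obtain ⟨w1, h1, h2⟩ := h.mp
  obtain ⟨w2, h3, h4⟩ := h.pm
  obtain ⟨w3, h5, h6⟩ := h.mm
  obtain ⟨p, k, hp, hpk, hpL⟩ := LemV_walk cs h.rt h.ru _ 1 w1 rfl (not_sep_one cs t) h1
    (iff_of_false (not_sep_one cs u) h2)
  obtain ⟨q, l, hq, hql, hqL⟩ := LemV_walk cs h.rt h.ru _ w2 w3 rfl h3 h5 (iff_of_true h4 h6)
  exact LemV_key cs h.rt h.ru _ p q k l le_rfl hp hq hpk hql
    (fun h7 => not_sep_one cs u (hpL.1 h7)) (hqL.2 h4)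

end Pool.Agent.PolyTop
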