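import Pool.Agent.PolyTop.Rt
import Pool.Agent.PolyTop.LemV

/-!
# The angle of crossing walls

`cross_vertex` gives `g`, `i`, `j`. A reflection `κ = g⁻¹ t g ∈ D` is `v s_k v⁻¹`, `v ∈ D`, `k ∈ {i,j}` (`D_cases`: `κ` is an alternating word; its length
is odd: `IsReflection.odd_length`; or induction with `exists_sep..`; or: `κ` has a left descent `k`, and if
`κ ≠ s_k` then `s_k κ s_k` is shorter: a reflection with left descent `k`, `sep_simple_mul`...). So `t = (g v) s_k (g v)⁻¹` and `β = ± g v α_k`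
(both unit vectors act as the same reflection: `IsRt.act`), `= ± g pv(l φ)` by `rho_D`, `φ = π/m`. Same for `u`. So
`⟨β,γ⟩ = ± cos ((l - l') φ) = cos (n φ)` with `n : ℤ`, and one may take `0 ≤ n ≤ m`. `n = 0` or `n = m` gives `β = ± γ` (`pv_add_two_pi`,
`pv_add_pi`), so `β = γ` (positive), `t = u` (`IsRt.unique`), but crossing walls are different (`Cross.mp`).
-/

open CoxeterSystem Pool.Agent.PolyCell

namespace Pool.Agent.PolyTop

variable {B W : Type*} [Group W] {M : CoxeterMatrix B} {cs : CoxeterSystem M W} {R : Rzn M}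

private theorem Ang_alt1 (i j : B) : alt cs i j 1 = cs.simple j := by
  unfold alt
  simp [alternatingWord]

private theorem Ang_alt (i j : B) (n : ℕ) :
    alt cs i j (2 * n + 3) = cs.simple j * alt cs j i (2 * n + 1) * cs.simple j := by
  unfold alt
  rw [show 2 * n + 3 = (2 * n + 2) + 1 by ring, alternatingWord_succ']
  have he : Even (2 * n + 2) := ⟨n + 1, by ring⟩
  rw [if_pos he, cs.wordProd_cons, show 2 * n + 2 = (2 * n + 1) + 1 by ring, alternatingWord_succ,
    cs.wordProd_concat, mul_assoc]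

/-- an alternating word of odd length is a reflection of `D` -/
private theorem Ang_odd (n : ℕ) : ∀ i j : B, ∃ v ∈ D cs i j, ∃ k, (k = i ∨ k = j) ∧
    alt cs i j (2 * n + 1) = v * cs.simple k * v⁻¹ := by
  induction n with
  | zero =>
    intro i j
    exact ⟨1, Subgroup.one_mem _, j, Or.inr rfl, by simp [Ang_alt1]⟩
  | succ n ih =>
    intro i j
    obtain ⟨v, hv, k, hk, h⟩ := ih j i
    have hD : D cs j i = D cs i j := by unfold D; rw [Set.pair_comm]
    refine ⟨cs.simple j * v, Subgroup.mul_mem _ (Subgroup.subset_closure (by simp)) (hD ▸ hv), k,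
      hk.symm, ?_⟩
    rw [show 2 * (n + 1) + 1 = 2 * n + 3 by ring, Ang_alt, h, mul_inv_rev, cs.inv_simple]
    simp only [mul_assoc]

/-- the reflections of `D` -/
private theorem Ang_refl {i j : B} (hij : i ≠ j) (hm : M i j ≠ 0) {κ : W} (hκ : κ ∈ D cs i j)
    (hr : cs.IsReflection κ) :
    ∃ v ∈ D cs i j, ∃ k, (k = i ∨ k = j) ∧ κ = v * cs.simple k * v⁻¹ := by
  obtain ⟨k, hk, h⟩ := D_cases cs hij hm hκ
  have hodd : Odd k := by
    have h1 : Odd (cs.length κ) := hr.odd_length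
    have h2 : cs.length κ = k := by
      rcases h with h | h
      · rw [h]
        exact length_alt cs hij (Or.inr hk)
      · rw [h]
        exact length_alt cs hij.symm (Or.inr (by rw [M.symmetric j i]; exact hk))
    rwa [h2] at h1
  obtain ⟨n, rfl⟩ := hodd
  rcases h with h | h
  · obtain ⟨v, hv, k, hk, h'⟩ := Ang_odd (cs := cs) n i j
    exact ⟨v, hv, k, hk, h.trans h'⟩
  · obtain ⟨v, hv, k, hk, h'⟩ := Ang_odd (cs := cs) n j i
    have hD : D cs j i = D cs i j := by unfold D; rw [Set.pair_comm]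
    exact ⟨v, hD ▸ hv, k, hk.symm, h.trans h'⟩

/-- the root of `w s_k w⁻¹` is `± w α_k` -/
private theorem Ang_root {w : W} {k : B} {β : Fin 3 → ℝ}
    (hβ : IsRt cs R (w * cs.simple k * w⁻¹) β) :
    β = rho cs R w (R.α k) ∨ β = - rho cs R w (R.α k) := by
  have h1 := hβ.act β
  have hu := hβ.unit
  have h2 : rho cs R (w * cs.simple k * w⁻¹) β =
      β - (2 * lf β (rho cs R w (R.α k))) • rho cs R w (R.α k) := by
    rw [rho_mul, rho_mul, rho_simple, rfl'_apply, map_sub, map_smul]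
    have e1 : rho cs R w (rho cs R w⁻¹ β) = β := by
      have := rho_inv cs R w⁻¹ β
      rwa [inv_inv] at this
    have e2 : lf (rho cs R w⁻¹ β) (R.α k) = lf β (rho cs R w (R.α k)) := by
      rw [← lf_rho cs R w, e1]
    rw [e1, e2]
  rw [h2, hu] at h1
  have h3 : β = lf β (rho cs R w (R.α k)) • rho cs R w (R.α k) := by
    have h4 := sub_right_injective h1
    simp only [mul_smul, mul_one] at h4
    have h5 := smul_right_injective (Fin 3 → ℝ) (two_ne_zero (α := ℝ)) h4
    exact h5.symm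
  have h6 : lf β (rho cs R w (R.α k)) * lf β (rho cs R w (R.α k)) = 1 := by
    have h7 : lf β β = lf β (lf β (rho cs R w (R.α k)) • rho cs R w (R.α k)) := by
      rw [← h3]
    rw [lf_smul_right, hu] at h7
    exact h7.symm
  rcases mul_self_eq_one_iff.1 h6 with h | h
  · left
    rw [h, one_smul] at h3
    exact h3
  · right
    rw [h, neg_one_smul] at h3
    exact h3

/-- the root of a reflection of `g D g⁻¹` -/
private theorem Ang_pv {i j : B} (hij : i ≠ j) (hm : M i j ≠ 0) {g t : W} {β : Fin 3 → ℝ}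
    (hβ : IsRt cs R t β) (ht : g⁻¹ * t * g ∈ D cs i j) :
    ∃ l : ℤ, β = rho cs R g
      (pv (Real.pi / M i j) (R.α i) (R.α j) (l * (Real.pi / M i j))) := by
  have hr : cs.IsReflection (g⁻¹ * t * g) := by
    have := hβ.refl.conj g⁻¹
    rwa [inv_inv] at this
  obtain ⟨v, hv, k, hk, h⟩ := Ang_refl hij hm ht hr
  have ht' : t = (g * v) * cs.simple k * (g * v)⁻¹ := by
    have : t = g * (g⁻¹ * t * g) * g⁻¹ := by group
    rw [this, h]
    group
  rw [ht'] at hβ
  obtain ⟨l, hl⟩ := rho_D cs R hij hk hv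
  have hm' : (M i j : ℝ) ≠ 0 := by exact_mod_cast hm
  rcases Ang_root hβ with h' | h'
  · exact ⟨l, by rw [h', rho_mul, hl]⟩
  · refine ⟨l + M i j, ?_⟩
    have e : ((l + M i j : ℤ) : ℝ) * (Real.pi / M i j) = l * (Real.pi / M i j) + Real.pi := by
      push_cast
      field_simp
    rw [h', rho_mul, hl, e, pv_add_pi, map_neg]

/-- reduction of an integer modulo `2 m` and sign -/
private theorem Ang_red {m : ℕ} (hm : 0 < m) (d : ℤ) : ∃ q : ℤ, ∃ r : ℕ, d = 2 * m * q + r ∧
    r < 2 * m := by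
  have h2 : (0 : ℤ) < 2 * m := by exact_mod_cast (by omega : 0 < 2 * m)
  refine ⟨d / (2 * m), (d % (2 * m)).toNat, ?_, ?_⟩
  · rw [Int.toNat_of_nonneg (Int.emod_nonneg _ h2.ne')]
    exact (Int.mul_ediv_add_emod d (2 * m)).symm
  · have := Int.emod_lt_of_pos d h2
    have h3 := Int.emod_nonneg d h2.ne'
    omega

theorem cross_angle {t u : W} {β γ : Fin 3 → ℝ} (h : Cross cs t u) (hβ : IsRt cs R t β)
    (hγ : IsRt cs R u γ) :
    ∃ (g : W) (i j : B) (n : ℕ), i ≠ j ∧ g⁻¹ * t * g ∈ D cs i j ∧ g⁻¹ * u * g ∈ D cs i j ∧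
      1 ≤ n ∧ n < M i j ∧ lf β γ = Real.cos (n * (Real.pi / M i j)) := by
  obtain ⟨g, i, j, hij, hm, ht, hu⟩ := cross_vertex cs h
  obtain ⟨l, hl⟩ := Ang_pv hij hm hβ ht
  obtain ⟨l', hl'⟩ := Ang_pv hij hm hγ hu
  have h2m : 2 ≤ M i j := two_le_exp hij hm
  have hmpos : (0 : ℝ) < M i j := by exact_mod_cast (by omega : 0 < M i j)
  have hm2 : (2 : ℝ) ≤ M i j := by exact_mod_cast h2m
  set φ : ℝ := Real.pi / M i j with hφ
  have hφm : (M i j : ℝ) * φ = Real.pi := by
    rw [hφ]
    field_simp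
  have hφ0 : 0 < φ := div_pos Real.pi_pos hmpos
  have hsin : Real.sin φ ≠ 0 := by
    refine (Real.sin_pos_of_pos_of_lt_pi hφ0 ?_).ne'
    rw [← hφm]
    nlinarith
  have hlf : lf β γ = Real.cos ((l : ℝ) * φ - l' * φ) := by
    rw [hl, hl', lf_rho, lf_pv hsin (R.self i) (R.self j) (R.off i j hij)]
  obtain ⟨q, r, hd, hr⟩ := Ang_red (show 0 < M i j by omega) (l - l')
  have hd' : (l : ℝ) = l' + 2 * M i j * q + r := by
    have : ((l - l' : ℤ) : ℝ) = ((2 * M i j * q + r : ℤ) : ℝ) := by rw [hd]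
    push_cast at this
    linarith
  have hang : (l : ℝ) * φ = (l' * φ + r * φ) + q * (2 * Real.pi) := by
    rw [hd', ← hφm]
    ring
  have hcos : lf β γ = Real.cos (r * φ) := by
    rw [hlf, hang, show (l' : ℝ) * φ + r * φ + q * (2 * Real.pi) - l' * φ =
      r * φ + q * (2 * Real.pi) by ring, Real.cos_add_int_mul_two_pi]
  have hper : pv φ (R.α i) (R.α j) (l * φ) = pv φ (R.α i) (R.α j) (l' * φ + r * φ) := by
    have hp : Function.Periodic (pv φ (R.α i) (R.α j)) (2 * Real.pi) := fun x => pv_add_two_pi x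
    rw [hang]
    exact (hp.int_mul q) _
  have hr0 : r ≠ 0 := by
    rintro rfl
    have e : β = γ := by
      rw [hl, hl', hper]
      simp
    subst e
    have e2 : t = u := hβ.unique hγ
    subst e2
    obtain ⟨w, h1, h2⟩ := h.mp
    exact h2 h1
  have hrm : r ≠ M i j := by
    intro hrm
    have e : β = -γ := by
      rw [hl, hl', hper, hrm, hφm, pv_add_pi, map_neg]
    have h1 := hβ.pos
    have h2 := hγ.pos
    rw [e, lf_neg_right] at h1
    linarith
  rcases lt_or_gt_of_ne hrm with hlt | hgt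
  · exact ⟨g, i, j, r, hij, ht, hu, by omega, hlt, hcos⟩
  · refine ⟨g, i, j, 2 * M i j - r, hij, ht, hu, by omega, by omega, ?_⟩
    rw [hcos, Nat.cast_sub hr.le]
    push_cast
    rw [show (2 * (M i j : ℝ) - r) * φ = 2 * (M i j * φ) - r * φ by ring, hφm,
      Real.cos_two_pi_sub]

/-- `|⟨β,γ⟩| ≤ cos (π/N)` if all exponents are `≤ N` -/
theorem abs_lf_le {N : ℕ} (hN : ∀ i j, M i j ≤ N) {t u : W} {β γ : Fin 3 → ℝ} (h : Cross cs t u)
    (hβ : IsRt cs R t β) (hγ : IsRt cs R u γ) : |lf β γ| ≤ Real.cos (Real.pi / N) := by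
  obtain ⟨g, i, j, n, hij, -, -, h1, h2, h3⟩ := cross_angle h hβ hγ
  have hmN : M i j ≤ N := hN i j
  have hm0 : 0 < M i j := by omega
  have hmR : (0 : ℝ) < M i j := by exact_mod_cast hm0
  have hNR : (0 : ℝ) < N := by exact_mod_cast (by omega : 0 < N)
  have hpi := Real.pi_pos
  have hle : Real.pi / N ≤ Real.pi / M i j := by
    apply div_le_div_of_nonneg_left hpi.le hmR
    exact_mod_cast hmN
  set φ : ℝ := Real.pi / M i j with hφ
  have hφ0 : 0 < φ := div_pos hpi hmR
  have hN0 : 0 < Real.pi / N := div_pos hpi hNR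
  have hφm : (M i j : ℝ) * φ = Real.pi := by
    rw [hφ]
    field_simp
  have hn1 : (1 : ℝ) ≤ n := by exact_mod_cast h1
  have hn2 : (n : ℝ) + 1 ≤ M i j := by exact_mod_cast h2
  have hlo : Real.pi / N ≤ n * φ := by nlinarith
  have hhi : n * φ ≤ Real.pi - Real.pi / N := by
    rw [← hφm] at hle ⊢
    nlinarith
  rw [h3, abs_le]
  constructor
  · rw [← Real.cos_pi_sub]
    exact Real.cos_le_cos_of_nonneg_of_le_pi (by nlinarith) (by linarith) hhi
  · exact Real.cos_le_cos_of_nonneg_of_le_pi hN0.le (by linarith) hlo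

end Pool.Agent.PolyTop
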