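import Pool.Agent.PolyTop.Lor

/-!
# Hyperbolic geometry of walls which separate two points (1)

`x`, `y` timelike (`lf x x < 0`, `lf y y < 0`, `lf x y < 0`); unit vectors `β` with `lf β x > 0 > lf β y`. Put `Δ = (lf x y)² - lf x x * lf y y`, and
`n' = (x 1 y 2 - x 2 y 1, x 2 y 0 - x 0 y 2, -(x 0 y 1 - x 1 y 0))`. Identities (`ring`): `lf n' x = lf n' y = 0`, `lf n' n' = Δ`,
`Δ lf u v = lf u n' * lf v n' + Q u v`, `Q u v = - lf y y lf u x lf v x + lf x y (lf u x lf v y + lf u y lf v x) - lf x x lf u y lf v y`,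
`Q(u,v)² - Q(u,u) Q(v,v) = Δ (lf u x lf v y - lf u y lf v x)²`. `Δ > 0` if there is one `β`: `Δ ≥ 0` (Cauchy-Schwarz: for timelike vectors `x 0² + x 1² < x 2²`), and if
`Δ = 0` the identity `0 = lf β n' ^2 + Q β β` with `Q β β > 0` is a contradiction. For the `β`s `Q > 0` (three positive terms).
With `s_β = lf β n' / √Δ`: `1 = s_β² + Q β β / Δ`, so `s_β ∈ (-1,1)`, `θ β = arcsin s_β`, `cos θ = √(Q β β/Δ)`. Hence
`lf β γ = s_β s_γ + Q β γ/Δ ≥ s_β s_γ + √(Qββ Qγγ)/Δ = cos (θ β - θ γ)`.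
For the statement of `exists_frame` also put `g β γ = Q β γ / Δ`, `h β γ = (lf β x * (- lf γ y) - (- lf β y) * lf γ x) / √Δ`.
-/

namespace Pool.Agent.PolyTop

/-- a frame for a family of walls which separate two points -/
structure Frame {ι : Type*} (β : ι → Fin 3 → ℝ) where
  s : ι → ℝ
  g : ι → ι → ℝ
  h : ι → ι → ℝ
  lf_eq : ∀ i j, lf (β i) (β j) = s i * s j + g i j
  s_lt : ∀ i, s i ^ 2 < 1
  g_self : ∀ i, g i i = 1 - s i ^ 2
  g_symm : ∀ i j, g i j = g j i
  g_pos : ∀ i j, 0 < g i j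
  gh : ∀ i j, g i j ^ 2 - g i i * g j j = h i j ^ 2
  h_anti : ∀ i j, h i j = - h j i
  gg : ∀ i j k, g i k * g j j = g i j * g k j - h i j * h k j

private noncomputable def Hyp1_Q (x y u v : Fin 3 → ℝ) : ℝ :=
  - lf y y * (lf u x * lf v x) + lf x y * (lf u x * lf v y + lf u y * lf v x)
    - lf x x * (lf u y * lf v y)

private noncomputable def Hyp1_n (x y : Fin 3 → ℝ) : Fin 3 → ℝ :=
  ![x 1 * y 2 - x 2 * y 1, x 2 * y 0 - x 0 * y 2, -(x 0 * y 1 - x 1 * y 0)]

private noncomputable def Hyp1_D (x y : Fin 3 → ℝ) : ℝ := lf x y ^ 2 - lf x x * lf y y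

private theorem Hyp1_id (x y u v : Fin 3 → ℝ) :
    Hyp1_D x y * lf u v = lf u (Hyp1_n x y) * lf v (Hyp1_n x y) + Hyp1_Q x y u v := by
  simp only [Hyp1_D, Hyp1_Q, Hyp1_n, lf, Matrix.cons_val_zero, Matrix.cons_val_one,
    Matrix.cons_val_two, Matrix.head_cons, Matrix.tail_cons]
  ring

private theorem Hyp1_symm (x y u v : Fin 3 → ℝ) : Hyp1_Q x y u v = Hyp1_Q x y v u := by
  simp only [Hyp1_Q]
  ring

private theorem Hyp1_QQ (x y u v w : Fin 3 → ℝ) :
    Hyp1_Q x y u w * Hyp1_Q x y v v = Hyp1_Q x y u v * Hyp1_Q x y w v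
      - Hyp1_D x y * ((lf u x * lf v y - lf u y * lf v x) * (lf w x * lf v y - lf w y * lf v x)) := by
  simp only [Hyp1_D, Hyp1_Q]
  ring

private theorem Hyp1_Qpos {x y u v : Fin 3 → ℝ} (hx : lf x x < 0) (hy : lf y y < 0)
    (hxy : lf x y < 0) (hu : 0 < lf u x) (hu' : lf u y < 0) (hv : 0 < lf v x) (hv' : lf v y < 0) :
    0 < Hyp1_Q x y u v := by
  unfold Hyp1_Q
  have h1 : 0 < - lf y y * (lf u x * lf v x) := mul_pos (by linarith) (mul_pos hu hv)
  have h2 : 0 < lf x y * (lf u x * lf v y + lf u y * lf v x) := by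
    apply mul_pos_of_neg_of_neg hxy
    have := mul_neg_of_pos_of_neg hu hv'
    have := mul_neg_of_neg_of_pos hu' hv
    linarith
  have h3 : 0 < - lf x x * (lf u y * lf v y) :=
    mul_pos (by linarith) (mul_pos_of_neg_of_neg hu' hv')
  linarith

theorem exists_frame {ι : Type*} {β : ι → Fin 3 → ℝ} {x y : Fin 3 → ℝ} (hx : lf x x < 0)
    (hy : lf y y < 0) (hxy : lf x y < 0) (h1 : ∀ i, lf (β i) (β i) = 1)
    (h2 : ∀ i, 0 < lf (β i) x) (h3 : ∀ i, lf (β i) y < 0) : Nonempty (Frame β) := by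
  classical
  rcases isEmpty_or_nonempty ι with hι | ⟨⟨i0⟩⟩
  · exact ⟨⟨fun _ => 0, fun _ _ => 0, fun _ _ => 0, fun i => hι.elim i, fun i => hι.elim i,
      fun i => hι.elim i, fun i => hι.elim i, fun i => hι.elim i, fun i => hι.elim i,
      fun i => hι.elim i, fun i => hι.elim i⟩⟩
  have hQ : ∀ i j, 0 < Hyp1_Q x y (β i) (β j) := fun i j =>
    Hyp1_Qpos hx hy hxy (h2 i) (h3 i) (h2 j) (h3 j)
  have hD : 0 < Hyp1_D x y := by
    have h := Hyp1_id x y (β i0) (β i0)
    rw [h1 i0, mul_one] at h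
    rw [h]
    have := hQ i0 i0
    nlinarith [mul_self_nonneg (lf (β i0) (Hyp1_n x y))]
  obtain ⟨r, hr, hr2⟩ : ∃ r : ℝ, 0 < r ∧ r * r = Hyp1_D x y :=
    ⟨√(Hyp1_D x y), Real.sqrt_pos.2 hD, Real.mul_self_sqrt hD.le⟩
  have hr0 : r ≠ 0 := hr.ne'
  have key : ∀ i j, lf (β i) (β j) = lf (β i) (Hyp1_n x y) / r * (lf (β j) (Hyp1_n x y) / r)
      + Hyp1_Q x y (β i) (β j) / (r * r) := by
    intro i j
    have h := Hyp1_id x y (β i) (β j)
    rw [← hr2] at h
    field_simp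
    linarith
  have hself : ∀ i, Hyp1_Q x y (β i) (β i) / (r * r) = 1 - (lf (β i) (Hyp1_n x y) / r) ^ 2 := by
    intro i
    have h := key i i
    rw [h1 i] at h
    rw [pow_two]
    linarith
  have hgpos : ∀ i j, 0 < Hyp1_Q x y (β i) (β j) / (r * r) := fun i j =>
    div_pos (hQ i j) (mul_pos hr hr)
  have hgg : ∀ i j k, Hyp1_Q x y (β i) (β k) / (r * r) * (Hyp1_Q x y (β j) (β j) / (r * r))
      = Hyp1_Q x y (β i) (β j) / (r * r) * (Hyp1_Q x y (β k) (β j) / (r * r))
        - (lf (β i) x * lf (β j) y - lf (β i) y * lf (β j) x) / r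
          * ((lf (β k) x * lf (β j) y - lf (β k) y * lf (β j) x) / r) := by
    intro i j k
    have h := Hyp1_QQ x y (β i) (β j) (β k)
    rw [← hr2] at h
    generalize Hyp1_Q x y (β i) (β k) = q1 at h ⊢
    generalize Hyp1_Q x y (β j) (β j) = q2 at h ⊢
    generalize Hyp1_Q x y (β i) (β j) = q3 at h ⊢
    generalize Hyp1_Q x y (β k) (β j) = q4 at h ⊢
    generalize lf (β i) x * lf (β j) y - lf (β i) y * lf (β j) x = p1 at h ⊢
    generalize lf (β k) x * lf (β j) y - lf (β k) y * lf (β j) x = p2 at h ⊢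
    have e1 : q1 / (r * r) * (q2 / (r * r)) = (q1 * q2) / (r * r) ^ 2 := by
      field_simp
    have e2 : q3 / (r * r) * (q4 / (r * r)) - p1 / r * (p2 / r)
        = (q3 * q4 - r * r * (p1 * p2)) / (r * r) ^ 2 := by
      field_simp
    rw [e1, e2, h]
  refine ⟨{
    s := fun i => lf (β i) (Hyp1_n x y) / r
    g := fun i j => Hyp1_Q x y (β i) (β j) / (r * r)
    h := fun i j => (lf (β i) x * lf (β j) y - lf (β i) y * lf (β j) x) / r
    lf_eq := key
    s_lt := ?_
    g_self := hself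
    g_symm := ?_
    g_pos := hgpos
    gh := ?_
    h_anti := ?_
    gg := hgg }⟩
  · intro i
    have := hself i
    have := hgpos i i
    linarith
  · intro i j
    rw [Hyp1_symm]
  · intro i j
    have h := hgg i j i
    rw [h]
    ring
  · intro i j
    rw [← neg_div]
    congr 1
    ring

/-- the angle -/
noncomputable def Frame.th {ι : Type*} {β : ι → Fin 3 → ℝ} (F : Frame β) (i : ι) : ℝ :=
  Real.arcsin (F.s i)

section
variable {ι : Type*} {β : ι → Fin 3 → ℝ} (F : Frame β)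

private theorem Hyp1_s_bd (i : ι) : -1 < F.s i ∧ F.s i < 1 := by
  have h := F.s_lt i
  rw [← abs_lt]
  exact (sq_lt_one_iff_abs_lt_one _).1 h

theorem Frame.th_lt (i : ι) : F.th i < Real.pi / 2 := by
  rw [Frame.th, Real.arcsin_lt_pi_div_two]
  exact (Hyp1_s_bd F i).2

theorem Frame.lt_th (i : ι) : - (Real.pi / 2) < F.th i := by
  rw [Frame.th, Real.neg_pi_div_two_lt_arcsin]
  exact (Hyp1_s_bd F i).1

theorem Frame.cos_le (i j : ι) : Real.cos (F.th i - F.th j) ≤ lf (β i) (β j) := by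
  have hi := Hyp1_s_bd F i
  have hj := Hyp1_s_bd F j
  rw [Real.cos_sub, Frame.th, Frame.th, Real.cos_arcsin, Real.cos_arcsin,
    Real.sin_arcsin hi.1.le hi.2.le, Real.sin_arcsin hj.1.le hj.2.le, F.lf_eq,
    ← F.g_self, ← F.g_self, ← Real.sqrt_mul (F.g_pos i i).le]
  have h : √(F.g i i * F.g j j) ≤ F.g i j := by
    apply Real.sqrt_le_iff.2
    refine ⟨(F.g_pos i j).le, ?_⟩
    have := F.gh i j
    nlinarith [sq_nonneg (F.h i j)]
  linarith

/-- gaps: `cos` is decreasing on `[0, π]` -/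
theorem Frame.gap {N : ℕ} (hN : 2 ≤ N) {i j : ι} (h : |lf (β i) (β j)| ≤ Real.cos (Real.pi / N)) :
    Real.pi / N ≤ |F.th i - F.th j| := by
  by_contra hlt
  push Not at hlt
  have hN' : (1 : ℝ) ≤ N := by exact_mod_cast (by omega : 1 ≤ N)
  have hle : Real.pi / N ≤ Real.pi := div_le_self Real.pi_pos.le hN'
  have h1 := Real.cos_lt_cos_of_nonneg_of_le_pi (abs_nonneg _) hle hlt
  rw [Real.cos_abs] at h1
  have h2 := F.cos_le i j
  have h3 := le_abs_self (lf (β i) (β j))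
  linarith

include F in
/-- at most `N` walls: the angles are in an interval of length `π` (open) with gaps `≥ π/N` (order the angles) -/
theorem Frame.card_le [Fintype ι] {N : ℕ} (hN : 2 ≤ N)
    (h : ∀ i j, i ≠ j → |lf (β i) (β j)| ≤ Real.cos (Real.pi / N)) : Fintype.card ι ≤ N := by
  classical
  have hN' : (0 : ℝ) < N := by exact_mod_cast (by omega : 0 < N)
  have hpi := Real.pi_pos
  have hpos : ∀ i, 0 ≤ (F.th i + Real.pi / 2) * (N / Real.pi) := fun i =>
    mul_nonneg (by linarith [F.lt_th i]) (by positivity)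
  have hlt : ∀ i, ⌊(F.th i + Real.pi / 2) * (N / Real.pi)⌋₊ < N := by
    intro i
    rw [Nat.floor_lt (hpos i)]
    have h1 : F.th i + Real.pi / 2 < Real.pi := by linarith [F.th_lt i]
    calc (F.th i + Real.pi / 2) * (N / Real.pi) < Real.pi * (N / Real.pi) :=
          mul_lt_mul_of_pos_right h1 (by positivity)
      _ = N := by field_simp
  have hinj : Function.Injective
      (fun i => (⟨⌊(F.th i + Real.pi / 2) * (N / Real.pi)⌋₊, hlt i⟩ : Fin N)) := by
    intro i j hij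
    by_contra hne
    have hfl : ⌊(F.th i + Real.pi / 2) * (N / Real.pi)⌋₊
        = ⌊(F.th j + Real.pi / 2) * (N / Real.pi)⌋₊ := by
      simpa using hij
    have hg := F.gap hN (h i j hne)
    have a1 := Nat.floor_le (hpos i)
    have a2 := Nat.lt_floor_add_one ((F.th i + Real.pi / 2) * (N / Real.pi))
    have b1 := Nat.floor_le (hpos j)
    have b2 := Nat.lt_floor_add_one ((F.th j + Real.pi / 2) * (N / Real.pi))
    rw [hfl] at a1 a2
    have hd : |(F.th i - F.th j) * (N / Real.pi)| < 1 := by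
      rw [abs_lt]
      constructor <;> nlinarith
    rw [abs_mul, abs_of_pos (by positivity : (0 : ℝ) < N / Real.pi)] at hd
    have : 1 ≤ |F.th i - F.th j| * (N / Real.pi) := by
      calc (1 : ℝ) = Real.pi / N * (N / Real.pi) := by field_simp
        _ ≤ _ := mul_le_mul_of_nonneg_right hg (by positivity)
    linarith
  have := Fintype.card_le_of_injective _ hinj
  simpa using this
end

end Pool.Agent.PolyTop
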