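import Pool.Agent.PolyTop.Ang
import Pool.Agent.PolyTop.Hyp1

/-!
# The clique bound

`fb1`: `K` a clique of walls which separate `1` and `w`; choose roots (`exists_rt`) `β : K → ℝ³`; `exists_frame` with `x = x0`, `y = w x0` (`IsRt.pos`, `IsRt.sep_iff`,
`lf_x0_rho`, `lf_rho`), `abs_lf_le`, `Frame.card_le`.
-/

open CoxeterSystem Pool.Agent.PolyCell

namespace Pool.Agent.PolyTop

variable {B W : Type*} [Group W] {M : CoxeterMatrix B} (cs : CoxeterSystem M W) (R : Rzn M)

include R in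
theorem fb1 {N : ℕ} (hN2 : 2 ≤ N) (hN : ∀ i j, M i j ≤ N) (w : W) : FB1 cs N w := by
  intro K hK hS
  have hrt : ∀ t : K, ∃ β, IsRt cs R (t : W) β := fun t => exists_rt cs R (hS t t.2).1
  choose β hβ using hrt
  obtain ⟨F⟩ := exists_frame (β := β) (x := R.x0) (y := rho cs R w R.x0) R.tl
    (by rw [lf_rho]; exact R.tl) (lf_x0_rho cs R w) (fun i => (hβ i).unit)
    (fun i => by rw [lf_comm]; exact (hβ i).pos) (fun i => ((hβ i).sep_iff w).1 (hS i i.2))
  have h := F.card_le hN2 fun i j hij =>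
    abs_lf_le hN (hK i i.2 j j.2 (fun e => hij (Subtype.ext e))) (hβ i) (hβ j)
  rwa [Fintype.card_coe] at h

end Pool.Agent.PolyTop
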