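import Pool.Agent.PolyTop.Crs

/-!
# Factors from cliques

`fac_of_sep`: if all walls of `g D_T g⁻¹`, `M i j = N`, separate `1` and `w` then `w` has a factor `w_T`: replace `g` by the right minimal element `g₀` of `g D_T`
(`decompR`). For a reflection `κ ∈ D_T`: `g₀ κ g₀⁻¹` does not separate `1` and `g₀` (`ℓ(g₀ κ) ≥ ℓ(g₀)`, `len_mul_D`), so `κ`
separates `1` and `g₀⁻¹ w` (`sep_mul`); `g₀⁻¹ w = u y` (`decompL`), `κ` separates `1` and `u` (`sep_D_mul`) for all `κ`, so `u = w_T` (`eq_wT_of_sep`). `len_top`.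
-/

open CoxeterSystem Pool.Agent.PolyCell

namespace Pool.Agent.PolyTop

variable {B W : Type*} [Group W] {M : CoxeterMatrix B} (cs : CoxeterSystem M W)

/-- `x w_T y` is reduced for the exponent `N` if all cliques have at most `N` elements: `red_iff`, `clq_dih` with `K = {t}`, `c = w_T`. -/
theorem len_top {N : ℕ} (hF : ∀ w, FB1 cs N w) {i j : B} (hij : i ≠ j) (hm : M i j = N)
    (h0 : N ≠ 0) {x y : W} (hx : Rmin cs i j x) (hy : Lmin cs i j y) :
    cs.length (x * wT cs i j * y) = cs.length x + N + cs.length y := by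
  have hm0 : M i j ≠ 0 := by rw [hm]; exact h0
  have hw := wT_mem cs i j
  have hlx : cs.length (x * wT cs i j) = cs.length x + N := by
    rw [len_mul_D cs hij hx hw, length_wT cs hij, hm]
  have hred : Red cs (x * wT cs i j) y := by
    rw [red_iff]
    rintro t ⟨h1, h2⟩
    obtain ⟨K', hK', hS, hc⟩ := clq_dih cs hij hm0 hx hy hw (K := {t})
      (by
        intro a ha b hb hab
        rw [Finset.mem_singleton] at ha hb
        exact absurd (ha.trans hb.symm) hab)
      (by
        intro a ha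
        rw [Finset.mem_singleton] at ha
        rw [ha]
        exact h1)
      (by
        intro a ha
        rw [Finset.mem_singleton] at ha
        rw [ha]
        exact h2)
    have h3 := hF _ K' hK' hS
    rw [hc, Finset.card_singleton, length_wT cs hij, hm] at h3
    omega
  have h4 : cs.length (x * wT cs i j * y) = cs.length (x * wT cs i j) + cs.length y := hred
  rw [h4, hlx]

theorem fac_of_sep {N : ℕ} (hF : ∀ w, FB1 cs N w) {i j : B} (hij : i ≠ j) (hm : M i j = N)
    (h0 : 2 ≤ N) {g w : W}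
    (h : ∀ κ ∈ D cs i j, cs.IsReflection κ → Sep cs (g * κ * g⁻¹) w) : Fac cs (N - 1) w := by
  have hm0 : M i j ≠ 0 := by omega
  obtain ⟨g₀, v, hg, hv, rfl⟩ := decompR cs hij g
  have h1 : ∀ κ ∈ D cs i j, cs.IsReflection κ → Sep cs (g₀ * κ * g₀⁻¹) w := by
    intro κ hκ hr
    have h2 := h (v⁻¹ * κ * v) (mul_mem (mul_mem (inv_mem hv) hκ) hv) (by
      have h3 := hr.conj v⁻¹
      rwa [inv_inv] at h3)
    have h4 : g₀ * v * (v⁻¹ * κ * v) * (g₀ * v)⁻¹ = g₀ * κ * g₀⁻¹ := by group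
    rwa [h4] at h2
  have h2 : ∀ κ ∈ D cs i j, cs.IsReflection κ → Sep cs κ (g₀⁻¹ * w) := by
    intro κ hκ hr
    have h3 := h1 κ hκ hr
    have h4 : ¬ Sep cs (g₀ * κ * g₀⁻¹) g₀ := by
      intro h5
      have h6 := h5.2
      rw [inv_mul_cancel_right, len_mul_D cs hij hg hκ] at h6
      omega
    have h5 := sep_mul cs (hr.conj g₀) g₀ (g₀⁻¹ * w)
    rw [mul_inv_cancel_left] at h5
    have h6 : g₀⁻¹ * (g₀ * κ * g₀⁻¹) * g₀ = κ := by group
    rw [h6] at h5
    by_contra h7
    exact (h5.1 h3) ⟨fun h8 => absurd h8 h4, fun h8 => absurd h8 h7⟩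
  obtain ⟨u, y, hy, hu, hw⟩ := decompL cs hij (g₀⁻¹ * w)
  have h3 : u = wT cs i j := by
    refine eq_wT_of_sep cs hij hm0 hu fun t ht hr => ?_
    have h4 := h2 t ht hr
    rw [hw] at h4
    exact (sep_D_mul cs hij hu hy ht).1 h4
  rw [h3] at hw
  have h4 : w = g₀ * wT cs i j * y := by
    rw [mul_assoc, ← hw, mul_inv_cancel_left]
  refine ⟨i, j, hij, by omega, g₀, y, h4, ?_⟩
  rw [hm]
  conv_lhs => rw [h4]
  exact len_top cs hF hij hm (by omega) hg hy

end Pool.Agent.PolyTop
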