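import Pool.Agent.PolyTop.Hyp2

/-!
# Hyperbolic geometry of walls which separate two points (3): the equality case
-/

namespace Pool.Agent.PolyTop

variable {ι : Type*} {β : ι → Fin 3 → ℝ} (F : Frame β)

private theorem Hyp3_self (F : Frame β) (i : ι) : lf (β i) (β i) = 1 := by
  rw [F.lf_eq, F.g_self]; ring

private theorem Hyp3_symm (F : Frame β) (i j : ι) : lf (β i) (β j) = lf (β j) (β i) := by
  rw [F.lf_eq, F.lf_eq, F.g_symm i j]; ring

private theorem Hyp3_ang {N : ℕ} (hN : 2 ≤ N) :
    0 < Real.pi / N ∧ Real.pi / N < Real.pi ∧ Real.pi / N * N = Real.pi := by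
  have h2 : (2 : ℝ) ≤ N := by exact_mod_cast hN
  have h0 : (0 : ℝ) < N := by linarith
  have hp := Real.pi_pos
  refine ⟨by positivity, ?_, by field_simp⟩
  rw [div_lt_iff₀ h0]
  nlinarith

include F in
/-- the equality case. Order the angles: `ι ≃ Fin N` with `θ` strictly increasing (`gap`). `φ_{0,N-1} ≥ φ_{0,a} + φ_{a,b} + φ_{b,N-1} ≥ (a + (b - a) + (N - 1 - b)) π/N`
(each `φ ≥ π/N`, superadditivity by induction) and `φ ≤ π - π/N`. So `φ_{a,b} = (b - a) π/N`. -/
theorem Frame.eq_case [Fintype ι] {N : ℕ} (hN : 2 ≤ N)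
    (h : ∀ i j, i ≠ j → |lf (β i) (β j)| ≤ Real.cos (Real.pi / N)) (hc : Fintype.card ι = N) :
    ∃ e : Fin N ≃ ι, ∀ a b : Fin N,
      lf (β (e a)) (β (e b)) = Real.cos (((b : ℝ) - (a : ℝ)) * (Real.pi / N)) := by
  classical
  obtain ⟨hδ0, hδπ, hδN⟩ := Hyp3_ang hN
  set δ : ℝ := Real.pi / N with hδ
  have hcos1 : Real.cos δ < 1 := by
    have h1 := Real.cos_lt_cos_of_nonneg_of_le_pi le_rfl hδπ.le hδ0
    rwa [Real.cos_zero] at h1
  have hinj : Function.Injective F.th := by
    intro i j hij
    by_contra hne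
    have h1 := F.gap hN (h i j hne)
    rw [hij, sub_self, abs_zero] at h1
    exact absurd h1 (not_le.2 hδ0)
  have hlt1 : ∀ i j, i ≠ j → |lf (β i) (β j)| < 1 := fun i j hij => lt_of_le_of_lt (h i j hij) hcos1
  let _inst : LinearOrder ι := LinearOrder.lift' F.th hinj
  let e : Fin N ≃o ι := Fintype.orderIsoFinOfCardEq ι hc
  have he : ∀ {a b : Fin N}, a < b → F.th (e a) < F.th (e b) := by
    intro a b hab
    have h1 : e a < e b := e.lt_iff_lt.2 hab
    exact h1
  set φ : Fin N → Fin N → ℝ := fun a b => Real.arccos (lf (β (e a)) (β (e b))) with hφ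
  have hself : ∀ a, φ a a = 0 := by
    intro a
    rw [hφ]
    simp only
    rw [Hyp3_self F, Real.arccos_one]
  have hsup : ∀ a b c, a ≤ b → b ≤ c → φ a b + φ b c ≤ φ a c := by
    intro a b c hab hbc
    rcases hab.eq_or_lt with rfl | hab
    · rw [hself, zero_add]
    · rcases hbc.eq_or_lt with rfl | hbc
      · rw [hself, add_zero]
      · exact F.superadd (he hab) (he hbc) hlt1
  have hne : ∀ {a b : Fin N}, a < b → e a ≠ e b := by
    intro a b hab h1
    exact absurd (e.injective h1) hab.ne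
  have hlow : ∀ a b : Fin N, a < b → δ ≤ φ a b := by
    intro a b hab
    have h1 := (abs_le.1 (h _ _ (hne hab))).2
    have h2 : Real.arccos (Real.cos δ) ≤ φ a b := Real.arccos_le_arccos h1
    rwa [Real.arccos_cos hδ0.le hδπ.le] at h2
  have hup : ∀ a b : Fin N, a < b → φ a b ≤ Real.pi - δ := by
    intro a b hab
    have h1 := (abs_le.1 (h _ _ (hne hab))).1
    have h2 : φ a b ≤ Real.arccos (- Real.cos δ) := Real.arccos_le_arccos h1
    rwa [Real.arccos_neg, Real.arccos_cos hδ0.le hδπ.le] at h2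
  -- induction on the distance
  have hind : ∀ (d : ℕ) (a b : Fin N), (b : ℕ) = a + d → (d : ℝ) * δ ≤ φ a b := by
    intro d
    induction d with
    | zero =>
      intro a b hab
      have h1 : a = b := Fin.ext (by omega)
      rw [h1, hself]
      simp
    | succ d ih =>
      intro a b hab
      have hbN := b.isLt
      set c : Fin N := ⟨a + d, by omega⟩ with hcdef
      have hc1 : (c : ℕ) = a + d := rfl
      have h1 := ih a c hc1
      have hcb : c < b := Fin.lt_def.2 (by omega)
      have hac : a ≤ c := Fin.le_def.2 (by omega)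
      have h2 := hlow c b hcb
      have h3 := hsup a c b hac hcb.le
      push_cast
      linarith
  have hge : ∀ a b : Fin N, a ≤ b → ((b : ℝ) - (a : ℝ)) * δ ≤ φ a b := by
    intro a b hab
    have h1 := hind (b - a : ℕ) a b (by have := Fin.le_def.1 hab; omega)
    rwa [Nat.cast_sub (Fin.le_def.1 hab)] at h1
  have hN0 : 0 < N := by omega
  set z : Fin N := ⟨0, hN0⟩ with hz
  set l : Fin N := ⟨N - 1, by omega⟩ with hl
  have hzl : z < l := Fin.lt_def.2 (by simp only [hz, hl]; omega)
  have hzr : ((z : ℕ) : ℝ) = 0 := by simp [hz]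
  have hlr : ((l : ℕ) : ℝ) = N - 1 := by
    simp only [hl]
    rw [Nat.cast_sub (by omega)]
    simp
  have heq : ∀ a b : Fin N, a ≤ b → φ a b = ((b : ℝ) - (a : ℝ)) * δ := by
    intro a b hab
    refine le_antisymm ?_ (hge a b hab)
    have hza : z ≤ a := Fin.le_def.2 (by simp [hz])
    have hbl : b ≤ l := Fin.le_def.2 (by have := b.isLt; simp only [hl]; omega)
    have h1 := hge z a hza
    have h2 := hge b l hbl
    have h3 := hsup z a b hza hab
    have h4 := hsup z b l (hza.trans hab) hbl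
    have h5 := hup z l hzl
    rw [hzr] at h1
    rw [hlr] at h2
    nlinarith
  have hcosφ : ∀ a b : Fin N, Real.cos (φ a b) = lf (β (e a)) (β (e b)) := by
    intro a b
    by_cases hab : a = b
    · subst hab
      rw [hself, Real.cos_zero, Hyp3_self F]
    · have h1 : e a ≠ e b := fun h1 => hab (e.injective h1)
      have h2 := abs_lt.1 (hlt1 _ _ h1)
      exact Real.cos_arccos h2.1.le h2.2.le
  refine ⟨e.toEquiv, fun a b => ?_⟩
  change lf (β (e a)) (β (e b)) = _
  rcases le_total a b with hab | hab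
  · rw [← hcosφ, heq a b hab]
  · rw [Hyp3_symm F, ← hcosφ, heq b a hab, ← Real.cos_neg]
    congr 1
    ring

end Pool.Agent.PolyTop
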