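import Pool.Agent.PolyTop.Lor

/-!
# Three unit vectors in a plane
-/

namespace Pool.Agent.PolyTop

/-- an isotropic vector orthogonal to two vectors that span a definite plane is zero -/
private theorem Pln_zero {a0 a1 a2 b0 b1 b2 z0 z1 z2 D : ℝ}
    (hD : (a0 * a0 + a1 * a1 - a2 * a2) * (b0 * b0 + b1 * b1 - b2 * b2) -
      (a0 * b0 + a1 * b1 - a2 * b2) ^ 2 = D) (hD0 : D ≠ 0)
    (h1 : z0 * a0 + z1 * a1 - z2 * a2 = 0) (h2 : z0 * b0 + z1 * b1 - z2 * b2 = 0)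
    (h3 : z0 * z0 + z1 * z1 - z2 * z2 = 0) : z0 = 0 ∧ z1 = 0 ∧ z2 = 0 := by
  subst hD
  set n0 := a1 * b2 - a2 * b1 with hn0
  set n1 := a2 * b0 - a0 * b2 with hn1
  set n2 := -(a0 * b1 - a1 * b0) with hn2
  set m := z0 * n0 + z1 * n1 - z2 * n2 with hm
  set D := (a0 * a0 + a1 * a1 - a2 * a2) * (b0 * b0 + b1 * b1 - b2 * b2) -
      (a0 * b0 + a1 * b1 - a2 * b2) ^ 2 with hDd
  have e0 : D * z0 = -m * n0 := by
    rw [hDd, hm, hn0, hn1, hn2]
    linear_combination ((b0 * b0 + b1 * b1 - b2 * b2) * a0 - (a0 * b0 + a1 * b1 - a2 * b2) * b0) * h1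
      + ((a0 * a0 + a1 * a1 - a2 * a2) * b0 - (a0 * b0 + a1 * b1 - a2 * b2) * a0) * h2
  have e1 : D * z1 = -m * n1 := by
    rw [hDd, hm, hn0, hn1, hn2]
    linear_combination ((b0 * b0 + b1 * b1 - b2 * b2) * a1 - (a0 * b0 + a1 * b1 - a2 * b2) * b1) * h1
      + ((a0 * a0 + a1 * a1 - a2 * a2) * b1 - (a0 * b0 + a1 * b1 - a2 * b2) * a1) * h2
  have e2 : D * z2 = -m * n2 := by
    rw [hDd, hm, hn0, hn1, hn2]
    linear_combination ((b0 * b0 + b1 * b1 - b2 * b2) * a2 - (a0 * b0 + a1 * b1 - a2 * b2) * b2) * h1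
      + ((a0 * a0 + a1 * a1 - a2 * a2) * b2 - (a0 * b0 + a1 * b1 - a2 * b2) * a2) * h2
  have hnn : n0 * n0 + n1 * n1 - n2 * n2 = -D := by
    rw [hDd, hn0, hn1, hn2]; ring
  have hm0 : m = 0 := by
    have : m ^ 2 * D = 0 := by
      have h4 : (D * z0) * (D * z0) + (D * z1) * (D * z1) - (D * z2) * (D * z2) = 0 := by
        linear_combination D ^ 2 * h3
      rw [e0, e1, e2] at h4
      linear_combination -h4 + m ^ 2 * hnn
    rcases mul_eq_zero.1 this with h | h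
    · exact pow_eq_zero_iff (two_ne_zero) |>.1 h
    · exact absurd h hD0
  rw [hm0] at e0 e1 e2
  refine ⟨?_, ?_, ?_⟩
  · exact (mul_eq_zero.1 (show D * z0 = 0 by rw [e0]; ring)).resolve_left hD0
  · exact (mul_eq_zero.1 (show D * z1 = 0 by rw [e1]; ring)).resolve_left hD0
  · exact (mul_eq_zero.1 (show D * z2 = 0 by rw [e2]; ring)).resolve_left hD0

/-- three consecutive unit vectors with angles `φ, φ, 2 φ`: `z = a + c - 2 cos φ b` is orthogonal to `a`, `b`, `c`; the Gram determinant of `a, b, z` is `0`,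
so `det [a,b,z] = 0`; `a`, `b` are independent (`cos² φ ≠ 1`), so `z = p a + q b`, and `z` orthogonal to `a`, `b` gives `z = 0`. -/
theorem three_plane {φ : ℝ} (hφ : Real.sin φ ≠ 0) {a b c : Fin 3 → ℝ} (ha : lf a a = 1)
    (hb : lf b b = 1) (hc : lf c c = 1) (hab : lf a b = Real.cos φ) (hbc : lf b c = Real.cos φ)
    (hac : lf a c = Real.cos (2 * φ)) : c = (2 * Real.cos φ) • b - a := by
  rw [Real.cos_two_mul] at hac
  have hsc := Real.sin_sq_add_cos_sq φ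
  unfold lf at ha hb hc hab hbc hac
  generalize Real.cos φ = k at *
  have hD0 : (1 : ℝ) - k ^ 2 ≠ 0 := by
    have : (1 : ℝ) - k ^ 2 = Real.sin φ ^ 2 := by linarith
    rw [this]
    exact pow_ne_zero 2 hφ
  have key := Pln_zero (a0 := a 0) (a1 := a 1) (a2 := a 2) (b0 := b 0) (b1 := b 1) (b2 := b 2)
    (z0 := a 0 + c 0 - 2 * k * b 0) (z1 := a 1 + c 1 - 2 * k * b 1)
    (z2 := a 2 + c 2 - 2 * k * b 2) (D := 1 - k ^ 2)
    (by rw [ha, hb, hab]; ring) hD0
    (by linear_combination ha + hac - 2 * k * hab)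
    (by linear_combination hab + hbc - 2 * k * hb)
    (by linear_combination ha + hc + 4 * k ^ 2 * hb + 2 * hac - 4 * k * hab - 4 * k * hbc)
  obtain ⟨k0, k1, k2⟩ := key
  funext i
  fin_cases i
  · show c 0 = 2 * k * b 0 - a 0
    linarith
  · show c 1 = 2 * k * b 1 - a 1
    linarith
  · show c 2 = 2 * k * b 2 - a 2
    linarith

end Pool.Agent.PolyTop
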