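import Pool.Agent.PolyTop.CB1
import Pool.Agent.PolyTop.Hyp3
import Pool.Agent.PolyTop.Pln
import Pool.Agent.PolyTop.FacS

/-!
# The equality case of the clique bound

`fac_of_clq`: roots `β_a` as in `fb1`; `Frame.eq_case`: `⟨β_a, β_b⟩ = cos ((b-a) π/N)`. `cross_angle` for `K₀, K₁` (`N ≥ 2`): `cos (n π/m) = cos (π/N)`, `m = M i j ≤ N`,
`1 ≤ n < m`, so `n N = m`, `m = N`. By `three_plane` `β_{a+2} = 2 cos (π/N) β_{a+1} - β_a`, so by `IsRt.conj_root` and `IsRt.unique` (the positive one) `K_{a+2} = K_{a+1} K_a K_{a+1}`; so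
all `g⁻¹ K_a g ∈ D i j`. These are `N` reflections in `D i j`, which has `N` reflections (`exists_refl_D`), so all of them. `fac_of_sep` (with `fb1`).
-/

open CoxeterSystem Pool.Agent.PolyCell

namespace Pool.Agent.PolyTop

variable {B W : Type*} [Group W] {M : CoxeterMatrix B} (cs : CoxeterSystem M W) (R : Rzn M)

/-- three consecutive roots: the third wall is the conjugate of the first one by the second one -/
theorem CB2_step {φ : ℝ} (hφ : Real.sin φ ≠ 0) {t u v : W} {a b c : Fin 3 → ℝ}
    (ha : IsRt cs R t a) (hb : IsRt cs R u b) (hc : IsRt cs R v c) (hab : lf a b = Real.cos φ)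
    (hbc : lf b c = Real.cos φ) (hac : lf a c = Real.cos (2 * φ)) : v = u * t * u := by
  have h1 := three_plane hφ ha.unit hb.unit hc.unit hab hbc hac
  rcases IsRt.conj_root hb ha with h2 | h2
  · exfalso
    have h3 : a - (2 * lf a b) • b = -c := by
      rw [h1, hab]
      abel
    rw [h3] at h2
    have h4 := h2.pos
    have h5 := hc.pos
    rw [lf_neg_right] at h4
    linarith
  · rw [hab, ← h1] at h2
    exact IsRt.unique hc h2

include R in
theorem fac_of_clq {N : ℕ} (hN2 : 2 ≤ N) (hN : ∀ i j, M i j ≤ N) {w : W} {K : Finset W}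
    (hK : Clq cs K) (h : Sub cs K w) (hc : K.card = N) : Fac cs (N - 1) w := by
  classical
  have hex : ∀ t : {t // t ∈ K}, ∃ b, IsRt cs R t.1 b := fun t => exists_rt cs R (h t.1 t.2).1
  choose β hβ using hex
  obtain ⟨F⟩ := exists_frame (β := β) (x := R.x0) (y := rho cs R w R.x0) R.tl
    (by rw [lf_rho]; exact R.tl) (lf_x0_rho cs R w) (fun t => (hβ t).unit)
    (fun t => by rw [lf_comm]; exact (hβ t).pos)
    (fun t => ((hβ t).sep_iff w).1 (h t.1 t.2))
  have hcr : ∀ s t : {t // t ∈ K}, s ≠ t → Cross cs s.1 t.1 := fun s t hst =>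
    hK s.1 s.2 t.1 t.2 fun h' => hst (Subtype.ext h')
  obtain ⟨e, he⟩ := F.eq_case hN2 (fun s t hst => abs_lf_le hN (hcr s t hst) (hβ s) (hβ t))
    (by rw [Fintype.card_coe]; exact hc)
  have hNpos : (0 : ℝ) < N := by
    have : 0 < N := by omega
    exact_mod_cast this
  have hN2' : (2 : ℝ) ≤ N := by exact_mod_cast hN2
  have hpi := Real.pi_pos
  have hφ0 : 0 < Real.pi / N := div_pos hpi hNpos
  have hφ1 : Real.pi / N < Real.pi := by
    rw [div_lt_iff₀ hNpos]
    nlinarith
  have hsin : Real.sin (Real.pi / N) ≠ 0 := (Real.sin_pos_of_pos_of_lt_pi hφ0 hφ1).ne'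
  -- the first two walls
  let i0 : Fin N := ⟨0, by omega⟩
  let i1 : Fin N := ⟨1, by omega⟩
  have h01 : e i0 ≠ e i1 := by
    intro h'
    have := congrArg Fin.val (e.injective h')
    simp [i0, i1] at this
  obtain ⟨g, i, j, n, hij, hg0, hg1, hn1, hnm, hang⟩ :=
    cross_angle (hcr _ _ h01) (hβ (e i0)) (hβ (e i1))
  have hmpos : (0 : ℝ) < M i j := by
    have : 0 < M i j := by omega
    exact_mod_cast this
  have hm : M i j = N := by
    have h1 : Real.cos (n * (Real.pi / M i j)) = Real.cos (Real.pi / N) := by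
      rw [← hang, he]
      congr 1
      simp [i0, i1]
    have h2 : (n : ℝ) * (Real.pi / M i j) = Real.pi / N := by
      refine Real.injOn_cos ⟨by positivity, ?_⟩ ⟨hφ0.le, hφ1.le⟩ h1
      rw [mul_div_assoc', div_le_iff₀ hmpos]
      have : (n : ℝ) ≤ M i j := by exact_mod_cast hnm.le
      nlinarith
    have h3 : (n : ℝ) * N = M i j := by
      rw [mul_div_assoc', div_eq_div_iff hmpos.ne' hNpos.ne'] at h2
      have h4 : Real.pi * ((n : ℝ) * N) = Real.pi * M i j := by
        rw [← h2]
        ring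
      exact mul_left_cancel₀ hpi.ne' h4
    have h5 : n * N = M i j := by exact_mod_cast h3
    have h6 := hN i j
    have h7 : N ≤ n * N := Nat.le_mul_of_pos_left N hn1
    omega
  -- all walls are in the conjugate of the dihedral group
  have hD : ∀ a : ℕ, ∀ ha : a < N, g⁻¹ * (e ⟨a, ha⟩).1 * g ∈ D cs i j := by
    intro a
    induction a using Nat.strong_induction_on with
    | _ a ih =>
      intro ha
      rcases Nat.lt_or_ge a 2 with h2 | h2
      · rcases Nat.lt_or_ge a 1 with h1 | h1
        · have : a = 0 := by omega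
          subst this
          exact hg0
        · have : a = 1 := by omega
          subst this
          exact hg1
      · obtain ⟨b, rfl⟩ : ∃ b, a = b + 2 := ⟨a - 2, by omega⟩
        have hb0 : b < N := by omega
        have hb1 : b + 1 < N := by omega
        have h3 := ih b (by omega) hb0
        have h4 := ih (b + 1) (by omega) hb1
        have h5 : (e ⟨b + 2, ha⟩).1 = (e ⟨b + 1, hb1⟩).1 * (e ⟨b, hb0⟩).1 * (e ⟨b + 1, hb1⟩).1 := by
          refine CB2_step cs R hsin (hβ (e ⟨b, hb0⟩)) (hβ (e ⟨b + 1, hb1⟩)) (hβ (e ⟨b + 2, ha⟩))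
            ?_ ?_ ?_
          · rw [he]
            congr 1
            push_cast
            ring
          · rw [he]
            congr 1
            push_cast
            ring
          · rw [he]
            congr 1
            push_cast
            ring
        have h6 : g⁻¹ * (e ⟨b + 2, ha⟩).1 * g = (g⁻¹ * (e ⟨b + 1, hb1⟩).1 * g) *
            (g⁻¹ * (e ⟨b, hb0⟩).1 * g) * (g⁻¹ * (e ⟨b + 1, hb1⟩).1 * g) := by
          rw [h5]
          group
        rw [h6]
        exact mul_mem (mul_mem h4 h3) h4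
  have hDK : ∀ t ∈ K, g⁻¹ * t * g ∈ D cs i j := by
    intro t ht
    obtain ⟨a, ha⟩ := e.surjective ⟨t, ht⟩
    have h1 := hD a.1 a.2
    have h2 : (e ⟨a.1, a.2⟩).1 = t := by
      rw [Fin.eta, ha]
    rwa [h2] at h1
  obtain ⟨S, hS, hSc⟩ := exists_refl_D cs hij (by omega : M i j ≠ 0)
  have hinj : Function.Injective (fun t : W => g⁻¹ * t * g) := by
    intro s t hst
    simpa using hst
  have hsub : K.image (fun t : W => g⁻¹ * t * g) ⊆ S := by
    intro κ hκ
    obtain ⟨t, ht, rfl⟩ := Finset.mem_image.1 hκ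
    refine (hS _).2 ⟨?_, hDK t ht⟩
    have := (h t ht).1.conj g⁻¹
    simpa using this
  have heq : K.image (fun t : W => g⁻¹ * t * g) = S := by
    refine Finset.eq_of_subset_of_card_le hsub ?_
    rw [Finset.card_image_of_injective _ hinj, hSc, hc, hm]
  refine fac_of_sep cs (fun w => fb1 cs R hN2 hN w) hij hm hN2 (g := g) (w := w) ?_
  intro κ hκD hκR
  have h1 : κ ∈ S := (hS κ).2 ⟨hκR, hκD⟩
  rw [← heq] at h1
  obtain ⟨t, ht, rfl⟩ := Finset.mem_image.1 h1
  have h2 : g * (g⁻¹ * t * g) * g⁻¹ = t := by group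
  rw [h2]
  exact h t ht

end Pool.Agent.PolyTop
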