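import Pool.Agent.PolyTop.Defs

/-!
# The cocycle of the walls

Hints. `Refl.odd_count_iff`: `ℓ(w t) < ℓ(w)` iff `t` occurs an odd number of times in the right inversion sequence of a
word of `w`; `rightInvSeq` of `ω ++ ω'` is `(conjugated rightInvSeq ω) ++ rightInvSeq ω'`
(or work with the private homomorphism of `Refl.lean`, or prove `sep_simple_mul` first: for `t ≠ s`,
`ℓ(t s w) < ℓ(s w) ↔ ℓ(s t s w) < ℓ(w)`, then induct on the word of `x`). `Sep t w ↔ IsLeftInversion w t` is `Iff.rfl`
(up to unfolding). `red_iff`: if `x y` is not reduced, take the first letter of a reduced word of `y` where the length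
of `x y'` drops: `ℓ(x y') = ℓ(x) + ℓ(y')`, `ℓ(x y' s) < ℓ(x y')`, `y' s` reduced; `t = y' s y'⁻¹` separates `1` and `y' s`, hence `1` and
`y` (prefix); and `ℓ(x t) < ℓ(x)` by the cocycle for `x y'`, (`Sep t⁻¹..`), so `t` separates `1` and `x⁻¹`.
-/

open CoxeterSystem Pool.Agent.PolyCell

namespace Pool.Agent.PolyTop

variable {B W : Type*} [Group W] {M : CoxeterMatrix B} (cs : CoxeterSystem M W)

theorem not_sep_one (t : W) : ¬ Sep cs t 1 := by
  rintro ⟨-, h⟩
  rw [cs.length_one] at h
  omega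

theorem sep_simple {t : W} {i : B} : Sep cs t (cs.simple i) ↔ t = cs.simple i := by
  constructor
  · rintro ⟨ht, h⟩
    rw [cs.length_simple, Nat.lt_one_iff, cs.length_eq_zero_iff] at h
    rw [← cs.simple_mul_simple_self i] at h
    exact mul_right_cancel h
  · rintro rfl
    refine ⟨cs.isReflection_simple i, ?_⟩
    rw [cs.simple_mul_simple_self, cs.length_one, cs.length_simple]
    exact Nat.zero_lt_one

/-- left descents -/
theorem sep_simple_iff {w : W} {i : B} : Sep cs (cs.simple i) w ↔ cs.IsLeftDescent w i :=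
  ⟨fun h => h.2, fun h => ⟨cs.isReflection_simple i, h⟩⟩

private lemma Coc_lis_append (ω ω' : List B) : cs.leftInvSeq (ω ++ ω') =
    cs.leftInvSeq ω ++ (cs.leftInvSeq ω').map (MulAut.conj (cs.wordProd ω)) := by
  induction ω with
  | nil =>
    simp only [List.nil_append, leftInvSeq_nil, cs.wordProd_nil, map_one]
    exact (List.map_id _).symm
  | cons i ω ih =>
    have h1 : cs.leftInvSeq (i :: ω ++ ω') =
        cs.simple i :: (cs.leftInvSeq (ω ++ ω')).map (MulAut.conj (cs.simple i)) := rfl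
    have h2 : cs.leftInvSeq (i :: ω) =
        cs.simple i :: (cs.leftInvSeq ω).map (MulAut.conj (cs.simple i)) := rfl
    rw [h1, h2, ih, List.map_append, List.cons_append, List.map_map, cs.wordProd_cons, map_mul]
    rfl

open Classical in
/-- parity description of `Sep` -/
private lemma Coc_odd (ω : List B) {t : W} (ht : cs.IsReflection t) :
    Sep cs t (cs.wordProd ω) ↔ Odd ((cs.leftInvSeq ω).count t) := by
  have h1 := odd_count_iff cs ω.reverse ht
  rw [cs.rightInvSeq_reverse, List.count_reverse] at h1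
  rw [h1, cs.wordProd_reverse]
  have h2 : cs.length ((cs.wordProd ω)⁻¹ * t) = cs.length (t * cs.wordProd ω) := by
    rw [← cs.length_inv ((cs.wordProd ω)⁻¹ * t), mul_inv_rev, inv_inv, ht.inv]
  rw [h2, cs.length_inv]
  exact ⟨fun h => h.2, fun h => ⟨ht, h⟩⟩

/-- the cocycle -/
theorem sep_mul {t : W} (ht : cs.IsReflection t) (x y : W) :
    Sep cs t (x * y) ↔ ¬ (Sep cs t x ↔ Sep cs (x⁻¹ * t * x) y) := by
  classical
  obtain ⟨ω, rfl⟩ := cs.wordProd_surjective x
  obtain ⟨ω', rfl⟩ := cs.wordProd_surjective y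
  have ht' : cs.IsReflection ((cs.wordProd ω)⁻¹ * t * cs.wordProd ω) := by
    have := ht.conj (cs.wordProd ω)⁻¹
    rwa [inv_inv] at this
  rw [← cs.wordProd_append, Coc_odd cs _ ht, Coc_odd cs _ ht, Coc_odd cs _ ht', Coc_lis_append,
    List.count_append]
  have h1 : ((cs.leftInvSeq ω').map (MulAut.conj (cs.wordProd ω))).count t =
      (cs.leftInvSeq ω').count ((cs.wordProd ω)⁻¹ * t * cs.wordProd ω) := by
    have h2 : t = MulAut.conj (cs.wordProd ω) ((cs.wordProd ω)⁻¹ * t * cs.wordProd ω) := by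
      rw [MulAut.conj_apply]
      group
    conv_lhs => rw [h2]
    exact List.count_map_of_injective _ _ (MulAut.conj (cs.wordProd ω)).injective _
  rw [h1, Nat.odd_add]
  simp only [← Nat.not_odd_iff_even]
  tauto

/-- `N(w)` by a reduced word -/
private lemma Coc_mem {ω : List B} (hω : cs.IsReduced ω) {t : W} :
    Sep cs t (cs.wordProd ω) ↔ t ∈ cs.leftInvSeq ω := by
  classical
  constructor
  · intro h
    have h1 := (Coc_odd cs ω h.1).1 h
    by_contra hn
    rw [List.count_eq_zero_of_not_mem hn] at h1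
    simp at h1
  · intro h
    exact cs.isLeftInversion_of_mem_leftInvSeq hω h

private lemma Coc_conj {x t : W} : t = MulAut.conj x (x⁻¹ * t * x) := by
  rw [MulAut.conj_apply]
  group

private lemma Coc_append_red {ω ω' : List B} (hω : cs.IsReduced ω) (hω' : cs.IsReduced ω')
    (h : Red cs (cs.wordProd ω) (cs.wordProd ω')) : cs.IsReduced (ω ++ ω') := by
  unfold Red at h
  have h1 : cs.length (cs.wordProd ω) = ω.length := hω
  have h2 : cs.length (cs.wordProd ω') = ω'.length := hω'
  show cs.length (cs.wordProd (ω ++ ω')) = (ω ++ ω').length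
  rw [cs.wordProd_append, h, h1, h2, List.length_append]

/-- the cocycle for a reduced product -/
theorem sep_red {x y : W} (h : Red cs x y) (t : W) :
    Sep cs t (x * y) ↔ Sep cs t x ∨ Sep cs (x⁻¹ * t * x) y := by
  obtain ⟨ω, hω, rfl⟩ := cs.exists_isReduced x
  obtain ⟨ω', hω', rfl⟩ := cs.exists_isReduced y
  rw [← cs.wordProd_append, Coc_mem cs (Coc_append_red cs hω hω' h), Coc_mem cs hω, Coc_mem cs hω',
    Coc_lis_append, List.mem_append, List.mem_map]
  refine or_congr Iff.rfl ?_
  constructor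
  · rintro ⟨u, hu, rfl⟩
    rw [MulAut.conj_apply]
    have : (cs.wordProd ω)⁻¹ * (cs.wordProd ω * u * (cs.wordProd ω)⁻¹) * cs.wordProd ω = u := by
      group
    rwa [this]
  · intro hu
    exact ⟨_, hu, Coc_conj.symm⟩

theorem sep_red_not {x y : W} (h : Red cs x y) {t : W} (h1 : Sep cs t x) :
    ¬ Sep cs (x⁻¹ * t * x) y := by
  obtain ⟨ω, hω, rfl⟩ := cs.exists_isReduced x
  obtain ⟨ω', hω', rfl⟩ := cs.exists_isReduced y
  intro h2
  have hn := (Coc_append_red cs hω hω' h).nodup_leftInvSeq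
  rw [Coc_lis_append, List.nodup_append] at hn
  rw [Coc_mem cs hω] at h1
  rw [Coc_mem cs hω'] at h2
  exact hn.2.2 t h1 t (List.mem_map.2 ⟨_, h2, Coc_conj.symm⟩) rfl

private lemma Coc_inv {x t : W} (h : Sep cs t x) : Sep cs (x⁻¹ * t * x) x⁻¹ := by
  obtain ⟨ht, h1⟩ := h
  refine ⟨by simpa using ht.conj x⁻¹, ?_⟩
  have h2 : x⁻¹ * t * x * x⁻¹ = (t * x)⁻¹ := by
    rw [mul_inv_rev, ht.inv]
    group
  rw [h2, cs.length_inv, cs.length_inv]
  exact h1

theorem red_iff {x y : W} : Red cs x y ↔ ∀ t, ¬ (Sep cs t x⁻¹ ∧ Sep cs t y) := by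
  classical
  constructor
  · rintro h t ⟨h1, h2⟩
    have h3 := Coc_inv cs h1
    rw [inv_inv] at h3
    have h4 := sep_red_not cs h h3
    have h5 : x⁻¹ * (x * t * x⁻¹) * x = t := by group
    rw [h5] at h4
    exact h4 h2
  · intro h
    obtain ⟨ω, hω, rfl⟩ := cs.exists_isReduced x
    obtain ⟨ω', hω', rfl⟩ := cs.exists_isReduced y
    have hn : (cs.leftInvSeq (ω ++ ω')).Nodup := by
      rw [Coc_lis_append, List.nodup_append]
      refine ⟨hω.nodup_leftInvSeq,
        hω'.nodup_leftInvSeq.map (MulAut.conj (cs.wordProd ω)).injective, ?_⟩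
      rintro a ha b hb rfl
      obtain ⟨u, hu, rfl⟩ := List.mem_map.1 hb
      refine h u ⟨?_, (Coc_mem cs hω').2 hu⟩
      have h3 := Coc_inv cs ((Coc_mem cs hω).2 ha)
      rw [MulAut.conj_apply] at h3
      have h5 : (cs.wordProd ω)⁻¹ * (cs.wordProd ω * u * (cs.wordProd ω)⁻¹) * cs.wordProd ω = u := by
        group
      rwa [h5] at h3
    obtain ⟨ρ, hρ, hρe⟩ := cs.exists_isReduced (cs.wordProd (ω ++ ω'))
    have hsub : (cs.leftInvSeq (ω ++ ω')).toFinset ⊆ (cs.leftInvSeq ρ).toFinset := by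
      intro t ht
      rw [List.mem_toFinset] at ht ⊢
      rw [← Coc_mem cs hρ, ← hρe,
        Coc_odd cs _ (cs.isReflection_of_mem_leftInvSeq (ω ++ ω') ht),
        List.count_eq_one_of_mem hn ht]
      exact odd_one
    have hc := Finset.card_le_card hsub
    rw [List.toFinset_card_of_nodup hn, List.toFinset_card_of_nodup hρ.nodup_leftInvSeq,
      cs.length_leftInvSeq, cs.length_leftInvSeq, List.length_append] at hc
    have e1 : cs.length (cs.wordProd ω) = ω.length := hω
    have e2 : cs.length (cs.wordProd ω') = ω'.length := hω'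
    have e3 : cs.length (cs.wordProd ρ) = ρ.length := hρ
    have hle := cs.length_mul_le (cs.wordProd ω) (cs.wordProd ω')
    unfold Red
    rw [← cs.wordProd_append] at hle ⊢
    rw [← hρe] at e3
    omega

/-- `s w`: cocycle for a simple reflection -/
theorem sep_simple_mul {i : B} {t w : W} (ht : cs.IsReflection t) (hne : t ≠ cs.simple i) :
    Sep cs t (cs.simple i * w) ↔ Sep cs (cs.simple i * t * cs.simple i) w := by
  rw [sep_mul cs ht, sep_simple, cs.inv_simple]
  simp only [hne, false_iff, not_not]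

/-- `N(w)` is finite with `ℓ(w)` elements (`leftInvSeq` of a reduced word) -/
theorem exists_inv (w : W) : ∃ R : Finset W, (∀ t, t ∈ R ↔ Sep cs t w) ∧ R.card = cs.length w := by
  classical
  obtain ⟨ω, hred, rfl⟩ := cs.exists_isReduced w
  refine ⟨(cs.leftInvSeq ω).toFinset, fun t => ?_, ?_⟩
  · rw [List.mem_toFinset, Coc_mem cs hred]
  · rw [List.toFinset_card_of_nodup hred.nodup_leftInvSeq, cs.length_leftInvSeq]
    exact hred.symm

end Pool.Agent.PolyTop
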