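import Pool.Agent.PolyTop.Seg

/-!
# Crossing walls
-/

open CoxeterSystem Pool.Agent.PolyCell

namespace Pool.Agent.PolyTop

variable {B W : Type*} [Group W] {M : CoxeterMatrix B} (cs : CoxeterSystem M W)

theorem cross_symm {t u : W} (h : Cross cs t u) : Cross cs u t where
  rt := h.ru
  ru := h.rt
  mm := by
    obtain ⟨w, h1, h2⟩ := h.mm
    exact ⟨w, h2, h1⟩
  mp := by
    obtain ⟨w, h1, h2⟩ := h.pm
    exact ⟨w, h2, h1⟩
  pm := by
    obtain ⟨w, h1, h2⟩ := h.mp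
    exact ⟨w, h2, h1⟩

/-- walls which do not cross, are different from each other, and separate `1` and some common element are nested -/
theorem nested_of_not_cross {t u w : W} (h : ¬ Cross cs t u) (h1 : Sep cs t w) (h2 : Sep cs u w) :
    (∀ z, Sep cs t z → Sep cs u z) ∨ (∀ z, Sep cs u z → Sep cs t z) := by
  by_contra hc
  rw [not_or] at hc
  obtain ⟨hc1, hc2⟩ := hc
  simp only [not_forall] at hc1 hc2
  obtain ⟨z, hz1, hz2⟩ := hc1
  obtain ⟨z', hz3, hz4⟩ := hc2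
  exact h ⟨h1.1, h2.1, ⟨w, h1, h2⟩, ⟨z, hz1, hz2⟩, ⟨z', hz4, hz3⟩⟩

/-- all sign patterns occur -/
private theorem Crs_pat {t u : W} (h : Cross cs t u) (p q : Prop) :
    ∃ w, (Sep cs t w ↔ p) ∧ (Sep cs u w ↔ q) := by
  by_cases hp : p
  · by_cases hq : q
    · obtain ⟨w, h1, h2⟩ := h.mm
      exact ⟨w, iff_of_true h1 hp, iff_of_true h2 hq⟩
    · obtain ⟨w, h1, h2⟩ := h.mp
      exact ⟨w, iff_of_true h1 hp, iff_of_false h2 hq⟩
  · by_cases hq : q
    · obtain ⟨w, h1, h2⟩ := h.pm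
      exact ⟨w, iff_of_false h1 hp, iff_of_true h2 hq⟩
    · exact ⟨1, iff_of_false (not_sep_one cs t) hp, iff_of_false (not_sep_one cs u) hq⟩

/-- crossing is invariant: the four sign patterns are permuted (`sep_mul` for `g * w`); the pattern (+,+) occurs at `1`. -/
theorem cross_conj {t u : W} (g : W) (h : Cross cs t u) : Cross cs (g * t * g⁻¹) (g * u * g⁻¹) := by
  have rt : cs.IsReflection (g * t * g⁻¹) := h.rt.conj g
  have ru : cs.IsReflection (g * u * g⁻¹) := h.ru.conj g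
  have et : ∀ w, Sep cs (g * t * g⁻¹) (g * w) ↔ ¬ (Sep cs (g * t * g⁻¹) g ↔ Sep cs t w) := by
    intro w
    have := sep_mul cs rt g w
    rwa [show g⁻¹ * (g * t * g⁻¹) * g = t by group] at this
  have eu : ∀ w, Sep cs (g * u * g⁻¹) (g * w) ↔ ¬ (Sep cs (g * u * g⁻¹) g ↔ Sep cs u w) := by
    intro w
    have := sep_mul cs ru g w
    rwa [show g⁻¹ * (g * u * g⁻¹) * g = u by group] at this
  have key : ∀ p q : Prop, ∃ w, (Sep cs (g * t * g⁻¹) w ↔ p) ∧ (Sep cs (g * u * g⁻¹) w ↔ q) := by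
    intro p q
    obtain ⟨w, h1, h2⟩ := Crs_pat cs h (¬ (Sep cs (g * t * g⁻¹) g ↔ p))
      (¬ (Sep cs (g * u * g⁻¹) g ↔ q))
    refine ⟨g * w, ?_, ?_⟩
    · rw [et, h1]
      tauto
    · rw [eu, h2]
      tauto
  refine ⟨rt, ru, ?_, ?_, ?_⟩
  · obtain ⟨w, h1, h2⟩ := key True True
    exact ⟨w, h1.2 trivial, h2.2 trivial⟩
  · obtain ⟨w, h1, h2⟩ := key True False
    exact ⟨w, h1.2 trivial, h2.1⟩
  · obtain ⟨w, h1, h2⟩ := key False True
    exact ⟨w, h1.1, h2.2 trivial⟩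

/-- two different walls of a finite dihedral parabolic subgroup cross (`exists_sep_D`, `sep_wT`) -/
theorem cross_D {i j : B} (hij : i ≠ j) (hm : M i j ≠ 0) {t t' : W} (ht : t ∈ D cs i j)
    (hr : cs.IsReflection t) (ht' : t' ∈ D cs i j) (hr' : cs.IsReflection t') (hne : t ≠ t') :
    Cross cs t t' := by
  refine ⟨hr, hr', ⟨wT cs i j, sep_wT cs hij hm ht hr, sep_wT cs hij hm ht' hr'⟩, ?_, ?_⟩
  · obtain ⟨u, _, h1, h2⟩ := exists_sep_D cs hij hm ht hr ht' hr' hne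
    exact ⟨u, h1, h2⟩
  · obtain ⟨u, _, h1, h2⟩ := exists_sep_D cs hij hm ht' hr' ht hr hne.symm
    exact ⟨u, h2, h1⟩

/-- (D): the walls of `c⁻¹` can be added to a clique of walls which separate `1` from `(x c)⁻¹` and from `y`.
For `κ ∈ N(c⁻¹)`, `K ∈ K`: (-,-) at `(x c)⁻¹ = c⁻¹ x⁻¹`; (+,-) at `y` (`not_sep_lmin`); (-,+) at `c⁻¹` (`sep_mem_D`, `not_sep_lmin`). -/
theorem clq_dih {i j : B} (hij : i ≠ j) (hm : M i j ≠ 0) {x c y : W} (hx : Rmin cs i j x)
    (hy : Lmin cs i j y) (hc : c ∈ D cs i j) {K : Finset W} (hK : Clq cs K)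
    (h1 : Sub cs K (x * c)⁻¹) (h2 : Sub cs K y) :
    ∃ K' : Finset W, Clq cs K' ∧ Sub cs K' (x * c)⁻¹ ∧ K'.card = K.card + cs.length c := by
  classical
  obtain ⟨R, hR, hRc⟩ := exists_inv cs c⁻¹
  have hcD : c⁻¹ ∈ D cs i j := Subgroup.inv_mem _ hc
  have hRD : ∀ κ ∈ R, κ ∈ D cs i j := fun κ hκ => sep_mem_D cs hcD ((hR κ).1 hκ)
  have hxL : Lmin cs i j x⁻¹ :=
    ⟨fun h => hx.1 (cs.isLeftDescent_inv_iff.1 h), fun h => hx.2 (cs.isLeftDescent_inv_iff.1 h)⟩
  have hKD : ∀ k ∈ K, k ∉ D cs i j := fun k hk hkD => not_sep_lmin cs hij hy hkD (h2 k hk)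
  have hSR : ∀ κ ∈ R, Sep cs κ (x * c)⁻¹ := by
    intro κ hκ
    rw [mul_inv_rev, sep_D_mul cs hij hcD hxL (hRD κ hκ)]
    exact (hR κ).1 hκ
  have hmix : ∀ κ ∈ R, ∀ k ∈ K, Cross cs κ k := by
    intro κ hκ k hk
    refine ⟨((hR κ).1 hκ).1, (h1 k hk).1, ⟨(x * c)⁻¹, hSR κ hκ, h1 k hk⟩,
      ⟨c⁻¹, (hR κ).1 hκ, fun h => hKD k hk (sep_mem_D cs hcD h)⟩,
      ⟨y, not_sep_lmin cs hij hy (hRD κ hκ), h2 k hk⟩⟩
  refine ⟨K ∪ R, ?_, ?_, ?_⟩
  · intro t ht u hu hne
    rw [Finset.mem_union] at ht hu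
    rcases ht with ht | ht
    · rcases hu with hu | hu
      · exact hK t ht u hu hne
      · exact cross_symm cs (hmix u hu t ht)
    · rcases hu with hu | hu
      · exact hmix t ht u hu
      · exact cross_D cs hij hm (hRD t ht) ((hR t).1 ht).1 (hRD u hu) ((hR u).1 hu).1 hne
  · intro t ht
    rw [Finset.mem_union] at ht
    rcases ht with ht | ht
    · exact h1 t ht
    · exact hSR t ht
  · rw [Finset.card_union_of_disjoint, hRc, cs.length_inv]
    rw [Finset.disjoint_left]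
    intro k hk hkR
    exact hKD k hk (hRD k hkR)

/-- a clique through one more wall (translated): if `L` is a clique, all of its walls separate `g` and `v`
(`Sep t g ≠ Sep t v`), then the conjugates by `g⁻¹` are a clique of walls which separate `1` and `g⁻¹ v`. -/
theorem clq_translate {g v : W} {K : Finset W} (hK : Clq cs K)
    (h : ∀ t ∈ K, ¬ (Sep cs t g ↔ Sep cs t v)) :
    ∃ K' : Finset W, Clq cs K' ∧ Sub cs K' (g⁻¹ * v) ∧ K'.card = K.card := by
  classical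
  have hinj : Function.Injective fun t : W => g⁻¹ * t * g := by
    intro a b hab
    have : g⁻¹ * a * g = g⁻¹ * b * g := hab
    exact mul_left_cancel (mul_right_cancel this)
  refine ⟨K.image fun t => g⁻¹ * t * g, ?_, ?_, Finset.card_image_of_injective K hinj⟩
  · intro a ha b hb hne
    rw [Finset.mem_image] at ha hb
    obtain ⟨t, ht, rfl⟩ := ha
    obtain ⟨u, hu, rfl⟩ := hb
    have hne' : t ≠ u := fun h => hne (by rw [h])
    have := cross_conj cs g⁻¹ (hK t ht u hu hne')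
    rwa [inv_inv] at this
  · intro a ha
    rw [Finset.mem_image] at ha
    obtain ⟨t, ht, rfl⟩ := ha
    have h1 := h t ht
    have hr : cs.IsReflection t := by
      by_contra hr
      exact h1 (iff_of_false (fun h => hr h.1) (fun h => hr h.1))
    have h2 := sep_mul cs hr g (g⁻¹ * v)
    rw [mul_inv_cancel_left] at h2
    tauto

end Pool.Agent.PolyTop
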