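import Pool.Agent.PolyTop.Rt

/-!
# The dichotomy (P1)
-/

open CoxeterSystem Pool.Agent.PolyCell

namespace Pool.Agent.PolyTop

variable {B W : Type*} [Group W] {M : CoxeterMatrix B} (cs : CoxeterSystem M W) (R : Rzn M)

/-- the root of a simple reflection -/
private theorem Dch_simple (i : B) : IsRt cs R (cs.simple i) (R.α i) :=
  ⟨⟨1, i, by simp, (rho_one cs R _).symm⟩, R.pos i⟩

include R in
/-- for `t ≠ s_i` with positive root `β`: `s_i β = β - 2 ⟨β,α_i⟩ α_i` is positive (`IsRt.conj_root`; `sep_simple_mul`: `¬ Sep t s_i`, so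
`¬ Sep (s_i t s_i) ...`; or: `lf x0 (s_i β) = lf (s_i x0) β > 0` by `IsRt.not_sep_iff` and `sep_simple`), so it is the root of `s_i t s_i`. Now
`⟨s_i β, z⟩ = ⟨β, z⟩ - 2 ⟨β,α_i⟩ ⟨α_i, z⟩`: first alternative if `⟨β,α_i⟩ ≤ 0`, second if `≥ 0`. -/
theorem dich : Dich cs := by
  intro i t ht hne
  obtain ⟨β, hβ⟩ := exists_rt cs R ht
  have hs := Dch_simple cs R i
  have h1 : 0 < lf R.x0 (β - (2 * lf β (R.α i)) • R.α i) := by
    have h2 : ¬ Sep cs t (cs.simple i) := fun h => hne ((sep_simple cs).1 h)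
    have h3 := (hβ.not_sep_iff (cs.simple i)).1 h2
    rw [hs.act, lf_sub_right, lf_smul_right] at h3
    rw [lf_sub_right, lf_smul_right]
    rw [lf_comm β R.x0] at h3
    linarith
  have h4 : IsRt cs R (cs.simple i * t * cs.simple i) (β - (2 * lf β (R.α i)) • R.α i) := by
    rcases hs.conj_root hβ with h | h
    · exact h
    · exfalso
      have h5 := h.pos
      have h6 : (2 * lf β (R.α i)) • R.α i - β = - (β - (2 * lf β (R.α i)) • R.α i) := by
        rw [neg_sub]
      rw [h6, lf_neg_right] at h5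
      linarith
  rcases le_total (lf β (R.α i)) 0 with hc | hc
  · left
    intro w hsw htw
    rw [hs.sep_iff] at hsw
    rw [hβ.sep_iff] at htw
    rw [h4.sep_iff, lf_sub_left, lf_smul_left]
    nlinarith [mul_nonneg_of_nonpos_of_nonpos hc hsw.le]
  · right
    intro w hsw htw
    rw [hs.sep_iff] at hsw
    rw [h4.sep_iff, lf_sub_left, lf_smul_left] at htw
    rw [hβ.sep_iff]
    nlinarith [mul_nonpos_of_nonneg_of_nonpos hc hsw.le]

end Pool.Agent.PolyTop
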