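import Pool.Agent.PolyCell.Dih3
import Pool.Agent.PolyCell.FacCl

/-!
# Walls

A reflection `t` *separates* `1` and `w` if `ℓ(t w) < ℓ(w)`. Two reflections *cross* if all four sign patterns occur
(the pattern (+,+) occurs at `w = 1`). See doc `notes/MP_338de0_co_tri_top`.
-/

open CoxeterSystem Pool.Agent.PolyCell

namespace Pool.Agent.PolyTop

variable {B W : Type*} [Group W] {M : CoxeterMatrix B} (cs : CoxeterSystem M W)

/-- the reflection `t` separates `1` and `w` -/
def Sep (t w : W) : Prop := cs.IsReflection t ∧ cs.length (t * w) < cs.length w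

/-- crossing walls -/
structure Cross (t u : W) : Prop where
  rt : cs.IsReflection t
  ru : cs.IsReflection u
  mm : ∃ w, Sep cs t w ∧ Sep cs u w
  mp : ∃ w, Sep cs t w ∧ ¬ Sep cs u w
  pm : ∃ w, ¬ Sep cs t w ∧ Sep cs u w

/-- pairwise crossing walls -/
def Clq (K : Finset W) : Prop := ∀ t ∈ K, ∀ u ∈ K, t ≠ u → Cross cs t u

/-- all walls of `K` separate `1` and `w` -/
def Sub (K : Finset W) (w : W) : Prop := ∀ t ∈ K, Sep cs t w

/-- every set of pairwise crossing walls which separate `1` and `w` has at most `n` elements -/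
def FB1 (n : ℕ) (w : W) : Prop := ∀ K : Finset W, Clq cs K → Sub cs K w → K.card ≤ n

/-- every set of pairwise crossing walls which separate `1` and `a⁻¹`, and `1` and `b`, has at most `n` elements -/
def FB (n : ℕ) (a b : W) : Prop :=
  ∀ K : Finset W, Clq cs K → Sub cs K a⁻¹ → Sub cs K b → K.card ≤ n

/-- (P1): for `t ≠ s` either `t` separates whenever `s t s` and `s` do, or the converse -/
def Dich : Prop := ∀ (i : B) (t : W), cs.IsReflection t → t ≠ cs.simple i →
  (∀ w, Sep cs (cs.simple i) w → Sep cs t w → Sep cs (cs.simple i * t * cs.simple i) w) ∨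
    (∀ w, Sep cs (cs.simple i) w → Sep cs (cs.simple i * t * cs.simple i) w → Sep cs t w)

end Pool.Agent.PolyTop
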