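import Pool.Agent.PolyTop.Stp
import Pool.Agent.PolyCell.Bnd

/-!
# Degrees of the structure constants

`deg_le`: induction on `ℓ(b)`. `b = 1`: `T_apply`, `gd_mono`. `b = s b'`, `s = s_i` a left descent of `b`:
`T_a T_b = T_a T_s T_{s b}`. If `i` is not a right descent of `a`: `= T_{a s} T_{s b}`, `FB n (a s) (s b)` by `move`. Otherwise
`= T_{a s} T_{s b} + ξ T_a T_{s b}` (`T_mul_s'`), `FB (n - 1) a (s b)` and `1 ≤ n` by `step` (`K = ∅` gives `1 ≤ n`).
`lat_of_dle`: `h = ∑ h(z) T_z`, `T_z ∈ Lat 0`.
-/

open CoxeterSystem Pool.Agent.PolyCell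

namespace Pool.Agent.PolyTop

variable {B W : Type*} [Group W] {M : CoxeterMatrix B} (cs : CoxeterSystem M W)

private theorem Dg_move {n : ℕ} {a b : W} {i : B} (hb : cs.IsLeftDescent b i) (h : FB cs n a b) :
    FB cs n (a * cs.simple i) (cs.simple i * b) := by
  intro K hK h1 h2
  obtain ⟨K', hK', h3, h4, h5⟩ := move cs hb hK h1 h2
  rw [← h5]
  exact h K' hK' h3 h4

private theorem Dg_aux (hD : Dich cs) (k : ℕ) : ∀ (n : ℕ) (a b : W), cs.length b = k →
    FB cs n a b → ∀ z, Gd n ((T cs a * T cs b) z) := by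
  classical
  induction k with
  | zero =>
    intro n a b hb _ z
    rw [cs.length_eq_zero_iff] at hb
    rw [hb, ← one_def', mul_one, T_apply]
    split_ifs
    · exact gd_mono (by omega) gd_one
    · exact gd_zero _
  | succ k ih =>
    intro n a b hb h z
    have hne : b ≠ 1 := by
      rintro rfl
      rw [cs.length_one] at hb
      omega
    obtain ⟨i, hi⟩ := cs.exists_leftDescent_of_ne_one hne
    have hl : cs.length (cs.simple i * b) = k := by
      have := cs.isLeftDescent_iff.1 hi
      omega
    have hn : ¬ cs.IsLeftDescent (cs.simple i * b) i :=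
      (cs.isLeftDescent_iff_not_isLeftDescent_mul).1 hi
    have hTb : T cs b = T cs (cs.simple i) * T cs (cs.simple i * b) := by
      rw [s_mul_T cs hn, cs.simple_mul_simple_cancel_left]
    have h1 := ih n (a * cs.simple i) (cs.simple i * b) hl (Dg_move cs hi h) z
    by_cases ha : cs.IsRightDescent a i
    · have hn1 : 1 ≤ n := by
        obtain ⟨K', hK', h3, h4, h5⟩ := step cs hD ha hi (K := ∅) (by intro t ht; simp at ht)
          (by intro t ht; simp at ht) (by intro t ht; simp at ht)
        have h6 := h K' hK' h3 h4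
        rw [h5, Finset.card_empty] at h6
        omega
      have h2 := ih (n - 1) a (cs.simple i * b) hl (by
        intro K hK h3 h4
        obtain ⟨K', hK', h5, h6, h7⟩ := step cs hD ha hi hK h3 h4
        have h8 := h K' hK' h5 h6
        omega) z
      have e : T cs a * T cs b = T cs (a * cs.simple i) * T cs (cs.simple i * b) +
          xi • (T cs a * T cs (cs.simple i * b)) := by
        rw [hTb, ← mul_assoc, T_mul_s' cs ha, add_mul, smul_mul_assoc]
      rw [e, add_apply', smul_apply']
      refine gd_add h1 ?_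
      have h9 := gd_xi_mul h2
      have e2 : (((n - 1 : ℕ) : ℤ) + 1) = n := by omega
      rw [e2] at h9
      exact h9
    · have e : T cs a * T cs b = T cs (a * cs.simple i) * T cs (cs.simple i * b) := by
        rw [hTb, ← mul_assoc, T_mul_s cs ha]
      rw [e]
      exact h1

theorem deg_le (hD : Dich cs) {n : ℕ} {a b : W} (h : FB cs n a b) (z : W) :
    Gd n ((T cs a * T cs b) z) :=
  Dg_aux cs hD _ n a b rfl h z

theorem lat_of_dle {C : W → Hk cs} (hC : IsKL cs C) {N : ℕ} {k : ℤ} {h : Hk cs}
    (H : ∀ z, dle k (h z)) : Lat cs C N k h := by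
  have e := eq_sum_T cs h
  rw [Finsupp.sum] at e
  rw [e]
  refine lat_sum _ _ fun z _ => ?_
  have h1 := lat_smul (N := N) (H z) (lat_T hC z)
  rw [zero_add] at h1
  exact h1

/-- `deg_le` and `lat_of_dle` -/
theorem lat_of_FB (hD : Dich cs) {C : W → Hk cs} (hC : IsKL cs C) {N n : ℕ} {a b : W}
    (h : FB cs n a b) : Lat cs C N n (T cs a * T cs b) :=
  lat_of_dle cs hC fun z => (deg_le cs hD h z).1

end Pool.Agent.PolyTop
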