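import Pool.Agent.PolyTop.Coc

/-!
# Walls of dihedral subgroups
-/

open CoxeterSystem Pool.Agent.PolyCell

namespace Pool.Agent.PolyTop

variable {B W : Type*} [Group W] {M : CoxeterMatrix B} (cs : CoxeterSystem M W)

private theorem DihW_gen {i j : B} {s : W} (hs : s ∈ ({cs.simple i, cs.simple j} : Set W)) :
    ∃ k, (k = i ∨ k = j) ∧ s = cs.simple k := by
  rcases hs with h | h
  · exact ⟨i, Or.inl rfl, h⟩
  · exact ⟨j, Or.inr rfl, h⟩

private theorem DihW_mem {i j k : B} (hk : k = i ∨ k = j) : cs.simple k ∈ D cs i j := by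
  rcases hk with h | h
  · subst h; exact Subgroup.subset_closure (by simp)
  · subst h; exact Subgroup.subset_closure (by simp)

private theorem DihW_step {i j k : B} (hk : k = i ∨ k = j) {y : W}
    (ih : ∀ t, Sep cs t y → t ∈ D cs i j) (t : W) (h : Sep cs t (cs.simple k * y)) :
    t ∈ D cs i j := by
  by_cases hne : t = cs.simple k
  · rw [hne]; exact DihW_mem cs hk
  · have h1 := ih _ ((sep_simple_mul cs h.1 hne).1 h)
    have h2 := (D cs i j).mul_mem ((D cs i j).mul_mem (DihW_mem cs hk) h1) (DihW_mem cs hk)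
    have h3 : cs.simple k * (cs.simple k * t * cs.simple k) * cs.simple k = t := by
      simp [mul_assoc]
    rwa [h3] at h2

/-- the walls of `u ∈ D` are in `D` (induction on `u` in the closure, or the inversion sequence of an alternating word) -/
theorem sep_mem_D {i j : B} {u t : W} (hu : u ∈ D cs i j) (h : Sep cs t u) : t ∈ D cs i j := by
  have key : ∀ t, Sep cs t u → t ∈ D cs i j := by
    clear h t
    unfold D at hu
    induction hu using Subgroup.closure_induction_left with
    | one => intro t ht; exact absurd ht (not_sep_one cs t)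
    | mul_left x hx y hy ih =>
      obtain ⟨k, hk, rfl⟩ := DihW_gen cs hx
      exact DihW_step cs hk ih
    | inv_mul_cancel x hx y hy ih =>
      obtain ⟨k, hk, rfl⟩ := DihW_gen cs hx
      rw [cs.inv_simple]
      exact DihW_step cs hk ih
  exact key t h

/-- left minimal elements are not separated from `1` by walls of `D` (`len_D_mul`) -/
theorem not_sep_lmin {i j : B} (hij : i ≠ j) {y t : W} (hy : Lmin cs i j y) (ht : t ∈ D cs i j) :
    ¬ Sep cs t y := by
  intro h
  have h1 := h.2
  rw [len_D_mul cs hij hy ht] at h1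
  omega

/-- `sep_mul`, `not_sep_lmin` -/
theorem sep_D_mul {i j : B} (hij : i ≠ j) {u y t : W} (hu : u ∈ D cs i j) (hy : Lmin cs i j y)
    (ht : t ∈ D cs i j) : Sep cs t (u * y) ↔ Sep cs t u := by
  by_cases hr : cs.IsReflection t
  · have hn : ¬ Sep cs (u⁻¹ * t * u) y :=
      not_sep_lmin cs hij hy ((D cs i j).mul_mem ((D cs i j).mul_mem ((D cs i j).inv_mem hu) ht) hu)
    rw [sep_mul cs hr u y]
    tauto
  · exact ⟨fun h => absurd h.1 hr, fun h => absurd h.1 hr⟩

/-- `w_T` is separated from `1` by all walls of `D` (`len_compl`) -/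
theorem sep_wT {i j : B} (hij : i ≠ j) (hm : M i j ≠ 0) {t : W} (ht : t ∈ D cs i j)
    (hr : cs.IsReflection t) : Sep cs t (wT cs i j) := by
  refine ⟨hr, ?_⟩
  have h0 : cs.length t ≠ 0 := by
    intro h
    rw [cs.length_eq_zero_iff] at h
    have := hr.odd_length
    rw [h, cs.length_one] at this
    exact absurd this (by decide)
  have h1 := (len_compl cs hij hm ht).1
  have h2 := length_wT cs hij
  rw [hr.inv] at h1
  rw [h2]
  omega

/-- only `w_T` is separated from `1` by all walls of `D`: if `u ≠ w_T` then some `i` or `j` is not a left descent. -/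
theorem eq_wT_of_sep {i j : B} (hij : i ≠ j) (hm : M i j ≠ 0) {u : W} (hu : u ∈ D cs i j)
    (h : ∀ t ∈ D cs i j, cs.IsReflection t → Sep cs t u) : u = wT cs i j := by
  have hi : cs.IsLeftDescent u i := (sep_simple_iff cs).1 (h _ (DihW_mem cs (Or.inl rfl)) (cs.isReflection_simple i))
  have hj : cs.IsLeftDescent u j := (sep_simple_iff cs).1 (h _ (DihW_mem cs (Or.inr rfl)) (cs.isReflection_simple j))
  exact eq_wT_of_ld cs hij hm hu hi hj

/-- the `M i j` reflections of `D` (`exists_inv`, `sep_wT`, `sep_mem_D`, `length_wT`) -/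
theorem exists_refl_D {i j : B} (hij : i ≠ j) (hm : M i j ≠ 0) :
    ∃ R : Finset W, (∀ t, t ∈ R ↔ cs.IsReflection t ∧ t ∈ D cs i j) ∧ R.card = M i j := by
  obtain ⟨R, hR, hc⟩ := exists_inv cs (wT cs i j)
  refine ⟨R, fun t => ?_, ?_⟩
  · rw [hR]
    exact ⟨fun h => ⟨h.1, sep_mem_D cs (wT_mem cs i j) h⟩, fun h => sep_wT cs hij hm h.2 h.1⟩
  · rw [hc, length_wT cs hij]

end Pool.Agent.PolyTop
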