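import Pool.Agent.PolyTop.Rot
import Pool.Agent.PolyTop.DihW

/-!
# The geometric representation of a hyperbolic triangle group

`Rzn M`: a realisation of the Coxeter matrix `M` by unit normals `α i` of the sides of a hyperbolic polygon with finite angles, and
a point `x0` inside.
-/

open CoxeterSystem Pool.Agent.PolyCell

namespace Pool.Agent.PolyTop

/-- a realisation -/
structure Rzn {B : Type*} (M : CoxeterMatrix B) where
  α : B → (Fin 3 → ℝ)
  x0 : Fin 3 → ℝ
  ne : ∀ i j, M i j ≠ 0
  self : ∀ i, lf (α i) (α i) = 1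
  off : ∀ i j, i ≠ j → lf (α i) (α j) = - Real.cos (Real.pi / (M i j : ℝ))
  pos : ∀ i, 0 < lf x0 (α i)
  tl : lf x0 x0 < 0

variable {B W : Type*} [Group W] {M : CoxeterMatrix B} (cs : CoxeterSystem M W) (R : Rzn M)

/-- `rot_pow` (for `i = j`: `M i i = 1`, `rfl'_rfl'`) -/
theorem rho_liftable : M.IsLiftable (fun i => rfl' (R.α i)) := by
  intro i j
  by_cases hij : i = j
  · subst hij
    rw [M.diagonal, pow_one]
    exact LinearMap.ext fun v => rfl'_rfl' (R.self i) v
  · have h0 : M i j ≠ 0 := R.ne i j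
    have h1 : M i j ≠ 1 := M.off_diagonal i j hij
    exact rot_pow (M i j) (by omega) (R.self i) (R.self j) (R.off i j hij)

/-- the geometric representation -/
noncomputable def rho : W →* Module.End ℝ (Fin 3 → ℝ) := cs.lift ⟨fun i => rfl' (R.α i), rho_liftable R⟩

theorem rho_simple (i : B) : rho cs R (cs.simple i) = rfl' (R.α i) :=
  cs.lift_apply_simple (rho_liftable R) i

theorem rho_mul (x y : W) (v : Fin 3 → ℝ) : rho cs R (x * y) v = rho cs R x (rho cs R y v) := by
  rw [map_mul]
  rfl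

theorem rho_one (v : Fin 3 → ℝ) : rho cs R 1 v = v := by
  rw [map_one]
  rfl

theorem rho_inv (x : W) (v : Fin 3 → ℝ) : rho cs R x⁻¹ (rho cs R x v) = v := by
  rw [← rho_mul, inv_mul_cancel, rho_one]

/-- the form is invariant (induction on a word) -/
theorem lf_rho (w : W) (u v : Fin 3 → ℝ) : lf (rho cs R w u) (rho cs R w v) = lf u v := by
  induction w using cs.simple_induction_left generalizing u v with
  | one => rw [rho_one, rho_one]
  | mul_simple_left w i ih =>
    rw [rho_mul, rho_mul, rho_simple, rfl'_lf (R.self i), ih]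

private theorem Rzn_tl_aux {a b c d e f : ℝ} (h1 : a * a + b * b < c * c) (h2 : d * d + e * e < f * f) :
    (a * d + b * e) ^ 2 < (c * f) ^ 2 := by
  have h3 : (a * d + b * e) ^ 2 ≤ (a * a + b * b) * (d * d + e * e) := by
    nlinarith [sq_nonneg (a * e - b * d)]
  have h4 : (a * a + b * b) * (d * d + e * e) < (c * c) * (f * f) := by
    have h5 : 0 ≤ a * a + b * b := add_nonneg (mul_self_nonneg a) (mul_self_nonneg b)
    have h6 : 0 ≤ d * d + e * e := add_nonneg (mul_self_nonneg d) (mul_self_nonneg e)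
    have h7 : 0 < f * f := lt_of_le_of_lt h6 h2
    calc (a * a + b * b) * (d * d + e * e) ≤ (a * a + b * b) * (f * f) :=
          mul_le_mul_of_nonneg_left h2.le h5
      _ < (c * c) * (f * f) := mul_lt_mul_of_pos_right h1 h7
  calc (a * d + b * e) ^ 2 ≤ (a * a + b * b) * (d * d + e * e) := h3
    _ < (c * c) * (f * f) := h4
    _ = (c * f) ^ 2 := by ring

private theorem Rzn_tl_neg {u v : Fin 3 → ℝ} (hu : lf u u < 0) (hv : lf v v < 0)
    (h : 0 < u 2 * v 2) : lf u v < 0 := by
  unfold lf at *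
  have h1 := Rzn_tl_aux (a := u 0) (b := u 1) (c := u 2) (d := v 0) (e := v 1) (f := v 2)
    (by linarith) (by linarith)
  have h2 := abs_lt_of_sq_lt_sq h1 h.le
  linarith [(abs_lt.1 h2).2]

private theorem Rzn_tl_pos {u v : Fin 3 → ℝ} (hu : lf u u < 0) (hv : lf v v < 0)
    (h : lf u v < 0) : 0 < u 2 * v 2 := by
  by_contra hc
  rw [not_lt] at hc
  unfold lf at *
  have h1 := Rzn_tl_aux (a := u 0) (b := u 1) (c := u 2) (d := v 0) (e := v 1) (f := v 2)
    (by linarith) (by linarith)
  have h2 : (u 0 * v 0 + u 1 * v 1) ^ 2 < (-(u 2 * v 2)) ^ 2 := by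
    rw [neg_sq]
    exact h1
  have h3 := abs_lt_of_sq_lt_sq h2 (by linarith)
  linarith [(abs_lt.1 h3).1]

private theorem Rzn_trans {a b c : ℝ} (h1 : 0 < a * b) (h2 : 0 < b * c) : 0 < a * c := by
  have h3 : 0 < (a * b) * (b * c) := mul_pos h1 h2
  have h4 : (a * b) * (b * c) = (a * c) * b ^ 2 := by ring
  rw [h4] at h3
  exact pos_of_mul_pos_left h3 (sq_nonneg b)

/-- `lf x0 (w x0) < 0`. Vectors with `lf v v < 0` have `v 0 ^ 2 + v 1 ^ 2 < v 2 ^ 2`; `lf u v < 0` for two such vectors iff `u 2 * v 2 > 0`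
(Cauchy-Schwarz). Induction on the word of `w`: `lf (s x) x < 0` for every `x` with `lf x x < 0`. -/
theorem lf_x0_rho (w : W) : lf R.x0 (rho cs R w R.x0) < 0 := by
  induction w using cs.simple_induction_left with
  | one => rw [rho_one]; exact R.tl
  | mul_simple_left w i ih =>
    rw [rho_mul, rho_simple]
    have hx : lf (rho cs R w R.x0) (rho cs R w R.x0) < 0 := by
      rw [lf_rho]
      exact R.tl
    generalize rho cs R w R.x0 = x at ih hx
    have hs : lf (rfl' (R.α i) x) (rfl' (R.α i) x) < 0 := by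
      rw [rfl'_lf (R.self i)]
      exact hx
    have hsx : lf x (rfl' (R.α i) x) < 0 := by
      rw [rfl'_apply, lf_sub_right, lf_smul_right]
      nlinarith [sq_nonneg (lf x (R.α i))]
    exact Rzn_tl_neg R.tl hs (Rzn_trans (Rzn_tl_pos R.tl hx ih) (Rzn_tl_pos hx hs hsx))

end Pool.Agent.PolyTop
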