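import Pool.Agent.PolyTop.ExV
import Pool.Agent.PolyTop.Rzn

/-!
# Existence of the realisation for a compact hyperbolic triangle

`exists_vectors` with `a = π / M 0 1`, `b = π / M 0 2`, `c = π / M 1 2`; the exponents are `≥ 2` (`M.off_diagonal`).
-/

open CoxeterSystem Pool.Agent.PolyCell

namespace Pool.Agent.PolyTop

theorem ExR_angle {m : ℕ} (h0 : m ≠ 0) (h1 : m ≠ 1) :
    0 < Real.pi / (m : ℝ) ∧ Real.pi / (m : ℝ) ≤ Real.pi / 2 := by
  have hm : 2 ≤ m := by omega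
  have hm' : (2 : ℝ) ≤ m := by exact_mod_cast hm
  have hpi := Real.pi_pos
  refine ⟨div_pos hpi (by linarith), ?_⟩
  exact div_le_div_of_nonneg_left hpi.le (by norm_num) hm'

theorem exists_rzn (M : CoxeterMatrix (Fin 3)) (h0 : ∀ i j, M i j ≠ 0)
    (h : (1 : ℝ) / M 0 1 + 1 / M 0 2 + 1 / M 1 2 < 1) : Nonempty (Rzn M) := by
  obtain ⟨ha, ha'⟩ := ExR_angle (h0 0 1) (M.off_diagonal 0 1 (by decide))
  obtain ⟨hb, hb'⟩ := ExR_angle (h0 0 2) (M.off_diagonal 0 2 (by decide))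
  obtain ⟨hc, hc'⟩ := ExR_angle (h0 1 2) (M.off_diagonal 1 2 (by decide))
  have hpi := Real.pi_pos
  have hsum : Real.pi / (M 0 1 : ℝ) + Real.pi / (M 0 2 : ℝ) + Real.pi / (M 1 2 : ℝ) < Real.pi := by
    have e : Real.pi / (M 0 1 : ℝ) + Real.pi / (M 0 2 : ℝ) + Real.pi / (M 1 2 : ℝ)
        = Real.pi * ((1 : ℝ) / M 0 1 + 1 / M 0 2 + 1 / M 1 2) := by
      ring
    rw [e]
    calc Real.pi * ((1 : ℝ) / M 0 1 + 1 / M 0 2 + 1 / M 1 2) < Real.pi * 1 :=
          mul_lt_mul_of_pos_left h hpi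
      _ = Real.pi := mul_one _
  obtain ⟨u, v, w, x, huu, hvv, hww, huv, huw, hvw, hxu, hxv, hxw, hxx⟩ :=
    exists_vectors ha hb hc ha' hb' hc' hsum
  have hs : ∀ i j, M i j = M j i := fun i j => M.symmetric i j
  refine ⟨⟨![u, v, w], x, h0, ?_, ?_, ?_, hxx⟩⟩
  · intro i
    fin_cases i
    · exact huu
    · exact hvv
    · exact hww
  · intro i j hij
    fin_cases i <;> fin_cases j
    · exact absurd rfl hij
    · exact huv
    · exact huw
    · show lf v u = - Real.cos (Real.pi / ((M 1 0 : ℕ) : ℝ))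
      rw [lf_comm, hs 1 0]; exact huv
    · exact absurd rfl hij
    · exact hvw
    · show lf w u = - Real.cos (Real.pi / ((M 2 0 : ℕ) : ℝ))
      rw [lf_comm, hs 2 0]; exact huw
    · show lf w v = - Real.cos (Real.pi / ((M 2 1 : ℕ) : ℝ))
      rw [lf_comm, hs 2 1]; exact hvw
    · exact absurd rfl hij
  · intro i
    fin_cases i
    · exact hxu
    · exact hxv
    · exact hxw

end Pool.Agent.PolyTop
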