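import Mathlib

/-!
# The Lorentz form on `ℝ³`
-/

namespace Pool.Agent.PolyTop

/-- the Lorentz form -/
def lf (u v : Fin 3 → ℝ) : ℝ := u 0 * v 0 + u 1 * v 1 - u 2 * v 2

theorem lf_comm (u v : Fin 3 → ℝ) : lf u v = lf v u := by
  unfold lf; ring

theorem lf_add_left (u u' v : Fin 3 → ℝ) : lf (u + u') v = lf u v + lf u' v := by
  unfold lf; simp only [Pi.add_apply]; ring

theorem lf_sub_left (u u' v : Fin 3 → ℝ) : lf (u - u') v = lf u v - lf u' v := by
  unfold lf; simp only [Pi.sub_apply]; ring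

theorem lf_smul_left (c : ℝ) (u v : Fin 3 → ℝ) : lf (c • u) v = c * lf u v := by
  unfold lf; simp only [Pi.smul_apply, smul_eq_mul]; ring

theorem lf_neg_left (u v : Fin 3 → ℝ) : lf (-u) v = - lf u v := by
  unfold lf; simp only [Pi.neg_apply]; ring

theorem lf_add_right (u v v' : Fin 3 → ℝ) : lf u (v + v') = lf u v + lf u v' := by
  unfold lf; simp only [Pi.add_apply]; ring

theorem lf_sub_right (u v v' : Fin 3 → ℝ) : lf u (v - v') = lf u v - lf u v' := by
  unfold lf; simp only [Pi.sub_apply]; ring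

theorem lf_smul_right (c : ℝ) (u v : Fin 3 → ℝ) : lf u (c • v) = c * lf u v := by
  unfold lf; simp only [Pi.smul_apply, smul_eq_mul]; ring

theorem lf_neg_right (u v : Fin 3 → ℝ) : lf u (-v) = - lf u v := by
  unfold lf; simp only [Pi.neg_apply]; ring

/-- the reflection `v ↦ v - 2 ⟨v,a⟩ a` -/
def rfl' (a : Fin 3 → ℝ) : Module.End ℝ (Fin 3 → ℝ) where
  toFun v := v - (2 * lf v a) • a
  map_add' := by
    intro u v
    funext i
    simp only [lf_add_left, Pi.add_apply, Pi.sub_apply, Pi.smul_apply, smul_eq_mul]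
    ring
  map_smul' := by
    intro c v
    funext i
    simp only [lf_smul_left, Pi.sub_apply, Pi.smul_apply, smul_eq_mul, RingHom.id_apply]
    ring

theorem rfl'_apply (a v : Fin 3 → ℝ) : rfl' a v = v - (2 * lf v a) • a := rfl

theorem rfl'_lf {a : Fin 3 → ℝ} (ha : lf a a = 1) (u v : Fin 3 → ℝ) :
    lf (rfl' a u) (rfl' a v) = lf u v := by
  rw [rfl'_apply, rfl'_apply, lf_sub_left, lf_sub_right, lf_sub_right, lf_smul_left,
    lf_smul_left, lf_smul_right, lf_smul_right, ha, lf_comm a v]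
  ring

theorem rfl'_rfl' {a : Fin 3 → ℝ} (ha : lf a a = 1) (v : Fin 3 → ℝ) : rfl' a (rfl' a v) = v := by
  funext i
  rw [rfl'_apply, rfl'_apply, lf_sub_left, lf_smul_left, ha]
  simp only [Pi.sub_apply, Pi.smul_apply, smul_eq_mul]
  ring

theorem rfl'_self {a : Fin 3 → ℝ} (ha : lf a a = 1) : rfl' a a = -a := by
  funext i
  rw [rfl'_apply, ha]
  simp only [Pi.sub_apply, Pi.smul_apply, Pi.neg_apply, smul_eq_mul]
  ring

/-- the unit vectors of the plane of `a`, `b` (`⟨a,b⟩ = - cos φ`) -/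
noncomputable def pv (φ : ℝ) (a b : Fin 3 → ℝ) (ψ : ℝ) : Fin 3 → ℝ :=
  (Real.sin (φ + ψ) / Real.sin φ) • a + (Real.sin ψ / Real.sin φ) • b

section
variable {φ : ℝ} {a b : Fin 3 → ℝ}

theorem pv_zero (h : Real.sin φ ≠ 0) : pv φ a b 0 = a := by
  unfold pv
  rw [add_zero, div_self h, Real.sin_zero, zero_div, one_smul, zero_smul, add_zero]

theorem pv_pi_sub (h : Real.sin φ ≠ 0) : pv φ a b (Real.pi - φ) = b := by
  unfold pv
  rw [add_sub_cancel, Real.sin_pi, Real.sin_pi_sub, div_self h, zero_div, one_smul, zero_smul,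
    zero_add]

theorem pv_add_two_pi (ψ : ℝ) : pv φ a b (ψ + 2 * Real.pi) = pv φ a b ψ := by
  unfold pv
  rw [← add_assoc, Real.sin_add_two_pi, Real.sin_add_two_pi]

theorem pv_add_pi (ψ : ℝ) : pv φ a b (ψ + Real.pi) = - pv φ a b ψ := by
  unfold pv
  rw [← add_assoc, Real.sin_add_pi, Real.sin_add_pi, neg_div, neg_div, neg_smul, neg_smul]
  abel

private theorem Lor_pv_lf (ψ : ℝ) (c : Fin 3 → ℝ) :
    lf (pv φ a b ψ) c = Real.sin (φ + ψ) / Real.sin φ * lf a c + Real.sin ψ / Real.sin φ * lf b c := by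
  unfold pv
  rw [lf_add_left, lf_smul_left, lf_smul_left]

theorem rfl'_pv_left (h : Real.sin φ ≠ 0) (ha : lf a a = 1) (hab : lf a b = - Real.cos φ) (ψ : ℝ) :
    rfl' a (pv φ a b ψ) = pv φ a b (Real.pi - ψ) := by
  have h1 : lf b a = - Real.cos φ := by rw [lf_comm, hab]
  have h2 : lf (pv φ a b ψ) a = Real.cos ψ := by
    rw [Lor_pv_lf, ha, h1, Real.sin_add]
    field_simp
    ring
  rw [rfl'_apply, h2]
  funext i
  unfold pv
  have e : φ + (Real.pi - ψ) = Real.pi - (ψ - φ) := by ring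
  rw [e, Real.sin_pi_sub, Real.sin_pi_sub, Real.sin_add, Real.sin_sub]
  simp only [Pi.sub_apply, Pi.add_apply, Pi.smul_apply, smul_eq_mul]
  field_simp
  ring

theorem rfl'_pv_right (h : Real.sin φ ≠ 0) (hb : lf b b = 1) (hab : lf a b = - Real.cos φ) (ψ : ℝ) :
    rfl' b (pv φ a b ψ) = pv φ a b (Real.pi - 2 * φ - ψ) := by
  have h2 : lf (pv φ a b ψ) b = (Real.sin ψ - Real.sin (φ + ψ) * Real.cos φ) / Real.sin φ := by
    rw [Lor_pv_lf, hb, hab]
    ring
  rw [rfl'_apply, h2]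
  funext i
  unfold pv
  have e : φ + (Real.pi - 2 * φ - ψ) = Real.pi - (φ + ψ) := by ring
  have e2 : Real.pi - 2 * φ - ψ = Real.pi - (φ + (φ + ψ)) := by ring
  rw [e, e2, Real.sin_pi_sub, Real.sin_pi_sub, Real.sin_add φ (φ + ψ)]
  have e3 : Real.sin φ * Real.cos (φ + ψ) = Real.sin (φ + ψ) * Real.cos φ - Real.sin ψ := by
    have h4 : Real.sin ψ = Real.sin ((φ + ψ) - φ) := by congr 1; ring
    rw [h4, Real.sin_sub]
    ring
  rw [e3]
  simp only [Pi.sub_apply, Pi.add_apply, Pi.smul_apply, smul_eq_mul]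
  field_simp
  ring

theorem lf_pv (h : Real.sin φ ≠ 0) (ha : lf a a = 1) (hb : lf b b = 1)
    (hab : lf a b = - Real.cos φ) (ψ ψ' : ℝ) :
    lf (pv φ a b ψ) (pv φ a b ψ') = Real.cos (ψ - ψ') := by
  have h1 : lf b a = - Real.cos φ := by rw [lf_comm, hab]
  have h2 : lf a (pv φ a b ψ') = Real.cos ψ' := by
    rw [lf_comm, Lor_pv_lf, ha, h1, Real.sin_add]
    field_simp
    ring
  have h3 : lf b (pv φ a b ψ') = (Real.sin ψ' - Real.sin (φ + ψ') * Real.cos φ) / Real.sin φ := by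
    rw [lf_comm, Lor_pv_lf, hb, hab]
    ring
  rw [Lor_pv_lf, h2, h3, Real.cos_sub, Real.sin_add, Real.sin_add]
  have hs := Real.sin_sq_add_cos_sq φ
  field_simp
  have hc : Real.cos φ ^ 2 = 1 - Real.sin φ ^ 2 := by linarith
  ring_nf
  rw [hc]
  ring

end

end Pool.Agent.PolyTop
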