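import Pool.Agent.PolyTop.Grm
import Pool.Agent.PolyTop.Lor

/-!
# Normals of a hyperbolic triangle

`a, b, c` the angles (`π/M 0 1`, `π/M 0 2`, `π/M 1 2`), `A = cos a`, ..., `a + b + c < π`.
`α 0 = (1,0,0)`, `α 1 = (-A, sin a, 0)`, `α 2 = (-B, y, z)`, `y = -(C + A B)/sin a`, `z = √(B² + y² - 1)`; `D := A² + B² + C² + 2ABC - 1 = 4 cos σ cos (σ-a) cos (σ-b) cos (σ-c) > 0`, `σ = (a+b+c)/2`,
`z² sin² a = D`. `x0 = (1, (1 + A)/sin a, w)` with `w` such that `lf x0 (α 2) = 1`: `w = (-1 - B + y (1 + A)/sin a)/z`. `lf x0 (α i) = 1`, and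
`lf x0 x0 = - (3 - A² - B² - C² + 2(A+B+C) + 2(AB+BC+CA)) / D < 0`. (The `α`s can also be chosen in another way.)
-/

namespace Pool.Agent.PolyTop

/-- the algebra of `exists_vectors` -/
private theorem ExV_alg {A B C s : ℝ} (hs : s ^ 2 = 1 - A ^ 2) (hs0 : 0 < s) (hA0 : 0 ≤ A)
    (hA1 : A < 1) (hB0 : 0 ≤ B) (hB1 : B < 1) (hC0 : 0 ≤ C) (hC1 : C < 1)
    (hD : 0 < A ^ 2 + B ^ 2 + C ^ 2 + 2 * A * B * C - 1) :
    ∃ u v w x : Fin 3 → ℝ, lf u u = 1 ∧ lf v v = 1 ∧ lf w w = 1 ∧ lf u v = - A ∧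
      lf u w = - B ∧ lf v w = - C ∧ 0 < lf x u ∧ 0 < lf x v ∧ 0 < lf x w ∧
      lf x x < 0 := by
  set D : ℝ := A ^ 2 + B ^ 2 + C ^ 2 + 2 * A * B * C - 1 with hDdef
  obtain ⟨y, hy⟩ : ∃ y : ℝ, s * y = -(C + A * B) := ⟨-(C + A * B) / s, by field_simp⟩
  obtain ⟨k, hk⟩ : ∃ k : ℝ, s * k = 1 + A := ⟨(1 + A) / s, by field_simp⟩
  obtain ⟨z, hz0, hz⟩ : ∃ z : ℝ, 0 < z ∧ s ^ 2 * z ^ 2 = D := by
    refine ⟨√D / s, by positivity, ?_⟩
    rw [div_pow, Real.sq_sqrt hD.le]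
    field_simp
  obtain ⟨q, hq⟩ : ∃ q : ℝ, z * q = -1 - B + y * k := ⟨(-1 - B + y * k) / z, by field_simp⟩
  have hw : B * B + y * y - z * z = 1 := by
    have h1 : s ^ 2 * (B * B + y * y - z * z - 1) = 0 := by
      have e : s ^ 2 * (B * B + y * y - z * z - 1) =
          s ^ 2 * (B ^ 2 - 1) + (s * y) ^ 2 - s ^ 2 * z ^ 2 := by ring
      rw [e, hy, hz, hs, hDdef]
      ring
    have h2 : s ^ 2 ≠ 0 := by positivity
    have h3 := (mul_eq_zero.1 h1).resolve_left h2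
    linarith
  have key : s ^ 4 * z ^ 2 * (1 + k ^ 2 - q ^ 2) = -((1 + A) * (1 - A) *
      (3 - A ^ 2 - B ^ 2 - C ^ 2 + 2 * (A + B + C) + 2 * (A * B + B * C + C * A))) := by
    have e : s ^ 4 * z ^ 2 * (1 + k ^ 2 - q ^ 2) =
        s ^ 2 * (s ^ 2 * z ^ 2) + (s ^ 2 * z ^ 2) * (s * k) ^ 2 - (s ^ 2 * (z * q)) ^ 2 := by ring
    have e2 : s ^ 2 * (-1 - B + y * k) = s ^ 2 * (-1 - B) + (s * y) * (s * k) := by ring
    rw [e, hq, e2, hy, hk, hz, hs, hDdef]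
    ring
  have hneg : 1 + k ^ 2 - q ^ 2 < 0 := by
    have h1 : 0 < (1 + A) * (1 - A) *
        (3 - A ^ 2 - B ^ 2 - C ^ 2 + 2 * (A + B + C) + 2 * (A * B + B * C + C * A)) := by
      have h2 : 0 < 1 - A := by linarith
      have h3 : A ^ 2 < 1 := by nlinarith
      have h4 : B ^ 2 < 1 := by nlinarith
      have h5 : C ^ 2 < 1 := by nlinarith
      have h6 : 0 ≤ A * B := mul_nonneg hA0 hB0
      have h7 : 0 ≤ B * C := mul_nonneg hB0 hC0
      have h8 : 0 ≤ C * A := mul_nonneg hC0 hA0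
      have h9 : 0 < 3 - A ^ 2 - B ^ 2 - C ^ 2 + 2 * (A + B + C) + 2 * (A * B + B * C + C * A) := by
        linarith
      have h10 : 0 < 1 + A := by linarith
      positivity
    have h2 : 0 < s ^ 4 * z ^ 2 := by positivity
    by_contra hc
    push Not at hc
    have h3 := mul_nonneg h2.le hc
    rw [key] at h3
    linarith
  refine ⟨![1, 0, 0], ![-A, s, 0], ![-B, y, z], ![1, k, q], ?_, ?_, ?_, ?_, ?_, ?_, ?_, ?_, ?_, ?_⟩
  · simp [lf]
  · simp only [lf, Matrix.cons_val_zero, Matrix.cons_val_one, Matrix.cons_val]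
    linarith
  · simp only [lf, Matrix.cons_val_zero, Matrix.cons_val_one, Matrix.cons_val]
    linarith
  · simp [lf]
  · simp [lf]
  · simp only [lf, Matrix.cons_val_zero, Matrix.cons_val_one, Matrix.cons_val]
    linarith
  · simp [lf]
  · simp only [lf, Matrix.cons_val_zero, Matrix.cons_val_one, Matrix.cons_val]
    linarith
  · simp only [lf, Matrix.cons_val_zero, Matrix.cons_val_one, Matrix.cons_val]
    linarith
  · simp only [lf, Matrix.cons_val_zero, Matrix.cons_val_one, Matrix.cons_val]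
    linarith

theorem exists_vectors {a b c : ℝ} (ha : 0 < a) (hb : 0 < b) (hc : 0 < c)
    (ha' : a ≤ Real.pi / 2) (hb' : b ≤ Real.pi / 2) (hc' : c ≤ Real.pi / 2)
    (h : a + b + c < Real.pi) :
    ∃ u v w x : Fin 3 → ℝ, lf u u = 1 ∧ lf v v = 1 ∧ lf w w = 1 ∧ lf u v = - Real.cos a ∧
      lf u w = - Real.cos b ∧ lf v w = - Real.cos c ∧ 0 < lf x u ∧ 0 < lf x v ∧ 0 < lf x w ∧
      lf x x < 0 := by
  have hpi := Real.pi_pos
  have c0 : ∀ {t : ℝ}, 0 < t → t ≤ Real.pi / 2 → 0 ≤ Real.cos t ∧ Real.cos t < 1 := by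
    intro t h1 h2
    refine ⟨Real.cos_nonneg_of_neg_pi_div_two_le_of_le (by linarith) h2, ?_⟩
    have h3 := Real.cos_lt_cos_of_nonneg_of_le_pi_div_two le_rfl h2 h1
    rwa [Real.cos_zero] at h3
  exact ExV_alg (by rw [Real.sin_sq]) (Real.sin_pos_of_pos_of_lt_pi ha (by linarith)) (c0 ha ha').1
    (c0 ha ha').2 (c0 hb hb').1 (c0 hb hb').2 (c0 hc hc').1 (c0 hc hc').2 (gram_pos ha hb hc h)

end Pool.Agent.PolyTop
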