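import Mathlib

/-!
# The Gram determinant of a hyperbolic triangle
-/

namespace Pool.Agent.PolyTop

private theorem Grm_aux {a d : ℝ} (ha : 0 < a) (hd : 0 ≤ d) (h : a + d < Real.pi) :
    0 < Real.cos a + Real.cos d := by
  have h1 := Real.cos_lt_cos_of_nonneg_of_le_pi ha.le (by linarith : Real.pi - d ≤ Real.pi)
    (by linarith : a < Real.pi - d)
  rw [Real.cos_pi_sub] at h1
  linarith

/-- `= 4 cos σ cos (σ - a) cos (σ - b) cos (σ - c)`, `σ = (a + b + c)/2 < π/2`; all four cosines are positive. -/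
theorem gram_pos {a b c : ℝ} (ha : 0 < a) (hb : 0 < b) (hc : 0 < c) (h : a + b + c < Real.pi) :
    0 < Real.cos a ^ 2 + Real.cos b ^ 2 + Real.cos c ^ 2 +
      2 * Real.cos a * Real.cos b * Real.cos c - 1 := by
  have h1 : 0 < Real.cos a + Real.cos (b + c) := Grm_aux ha (by linarith) (by linarith)
  have h2 : 0 < Real.cos a + Real.cos (b - c) := by
    rcases le_total c b with hcb | hcb
    · exact Grm_aux ha (by linarith) (by linarith)
    · rw [← Real.cos_neg (b - c), neg_sub]
      exact Grm_aux ha (by linarith) (by linarith)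
  have h3 := mul_pos h1 h2
  have h4 : (Real.cos a + Real.cos (b + c)) * (Real.cos a + Real.cos (b - c))
      = Real.cos a ^ 2 + Real.cos b ^ 2 + Real.cos c ^ 2 +
      2 * Real.cos a * Real.cos b * Real.cos c - 1 := by
    rw [Real.cos_add, Real.cos_sub]
    have hb' := Real.sin_sq_add_cos_sq b
    have hc' := Real.sin_sq_add_cos_sq c
    have hb2 : Real.sin b ^ 2 = 1 - Real.cos b ^ 2 := by linarith
    have hc2 : Real.sin c ^ 2 = 1 - Real.cos c ^ 2 := by linarith
    have h5 : (Real.cos a + (Real.cos b * Real.cos c - Real.sin b * Real.sin c)) *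
        (Real.cos a + (Real.cos b * Real.cos c + Real.sin b * Real.sin c))
        = Real.cos a ^ 2 + 2 * Real.cos a * Real.cos b * Real.cos c
          + Real.cos b ^ 2 * Real.cos c ^ 2 - Real.sin b ^ 2 * Real.sin c ^ 2 := by ring
    rw [h5, hb2, hc2]
    ring
  rw [← h4]
  exact h3

end Pool.Agent.PolyTop
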