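import Pool.Agent.PolyTop.Hyp1

/-!
# Hyperbolic geometry of walls which separate two points (2): superadditivity of the angles

`i`, `j`, `k` with `θ i < θ j < θ k`, `B = lf (β ·) (β ·)`, `c = g j j = 1 - s j ^ 2 > 0`.
(a) `A := s i * c - s j * g i j < 0`: if `s j < 0`, `g i j = B i j - s i * s j < 1 - s i s j`, so `A < s i c - s j (1 - s i s j) = s i - s j < 0`. If `s j ≥ 0`:
  `g i j ≥ √(g i i g j j) = cos θ i cos θ j` (`gh`), so `A ≤ s i c - s j cos θ i cos θ j = cos θ j * sin (θ i - θ j) < 0`.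
(b) `C := s k * c - s j * g k j > 0`: if `s j < 0`, `C ≥ s k c - s j cos θ k cos θ j = cos θ j sin (θ k - θ j) > 0`; if `s j ≥ 0`,
  `g k j < 1 - s k s j`, `C > s k - s j > 0` (`≥` for `s j = 0`, where `C = s k > 0`).
(c) `A ^ 2 - h i j ^ 2 = c * (1 - B i j ^ 2)` (insert `h² = g² - (1 - s_i²) c`, `s_j² = 1 - c`; `ring`), so `|h i j| ≤ |A|`; the same for `C`, `h k j`.
(d) `c (B i j * B j k - B i k) = - A C + h i j * h k j` [doc: `B_ij B_jk - B_ik = -(A/c_j)(C/c_j) + c_i c_k sh_i sh_k`], with `gg`.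
(e) `|h i j| ≤ |A| = -A`, `|h k j| ≤ C` by (c), so `B i j * B j k - B i k ≥ 0`.
(f) Gram determinant (`ring`): `1 + 2 B_ij B_jk B_ik - B_ij² - B_jk² - B_ik² = - det² ≤ 0`, i.e.
  `(B_ij B_jk - B_ik)² ≥ (1 - B_ij²)(1 - B_jk²)`. With `φ = arccos B`: `B_ik ≤ cos (φ_ij + φ_jk)`, and `φ_ij ≤ θ j - θ i`, `φ_jk ≤ θ k - θ j` (`cos_le`), so `φ_ij + φ_jk < π`,
  hence `φ_ij + φ_jk ≤ φ_ik`.
-/

namespace Pool.Agent.PolyTop

private theorem Hyp2_pos {a b g : ℝ} (hab : a < b) (ha : a ^ 2 < 1) (hg : 0 < g)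
    (h : (1 - b ^ 2) * (1 - a ^ 2) ≤ g ^ 2) (h1 : b * a + g < 1) :
    0 < b * (1 - a ^ 2) - a * g := by
  have hc : 0 < 1 - a ^ 2 := by linarith
  rcases lt_or_ge a 0 with ha0 | ha0
  · rcases le_or_gt 0 b with hb0 | hb0
    · have h2 : 0 ≤ b * (1 - a ^ 2) := mul_nonneg hb0 hc.le
      have h3 : 0 < (-a) * g := mul_pos (by linarith) hg
      linarith
    · have h2 : 0 < -b * (1 - a ^ 2) := mul_pos (by linarith) hc
      have h3 : 0 < (-a) * g := mul_pos (by linarith) hg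
      have h4 : (-b * (1 - a ^ 2)) ^ 2 < ((-a) * g) ^ 2 := by
        have h5 : b ^ 2 < a ^ 2 := by nlinarith
        have h6 : a ^ 2 * ((1 - b ^ 2) * (1 - a ^ 2)) ≤ a ^ 2 * g ^ 2 :=
          mul_le_mul_of_nonneg_left h (sq_nonneg a)
        have h7 : (1 - a ^ 2) * (b ^ 2 * (1 - a ^ 2)) < (1 - a ^ 2) * (a ^ 2 * (1 - b ^ 2)) :=
          mul_lt_mul_of_pos_left (by nlinarith) hc
        nlinarith
      have h5 : -b * (1 - a ^ 2) < (-a) * g := lt_of_pow_lt_pow_left₀ 2 h3.le h4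
      linarith
  · have h2 : a * g ≤ a * (1 - b * a) := mul_le_mul_of_nonneg_left (by linarith) ha0
    nlinarith

variable {ι : Type*} {β : ι → Fin 3 → ℝ} (F : Frame β)

private theorem Hyp2_sin (i : ι) : Real.sin (F.th i) = F.s i := by
  have h := F.s_lt i
  unfold Frame.th
  apply Real.sin_arcsin <;> nlinarith

private theorem Hyp2_s_lt {i j : ι} (hij : F.th i < F.th j) : F.s i < F.s j := by
  rw [← Hyp2_sin F i, ← Hyp2_sin F j]
  exact Real.sin_lt_sin_of_lt_of_le_pi_div_two (F.lt_th i).le (F.th_lt j).le hij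

private theorem Hyp2_arccos_le {i j : ι} (hij : F.th i < F.th j) :
    Real.arccos (lf (β i) (β j)) ≤ F.th j - F.th i := by
  have h1 := F.cos_le i j
  rw [← Real.cos_neg, neg_sub] at h1
  have h2 := Real.arccos_le_arccos h1
  rw [Real.arccos_cos (by linarith) (by linarith [F.th_lt j, F.lt_th i])] at h2
  exact h2

theorem Frame.superadd {i j k : ι} (hij : F.th i < F.th j) (hjk : F.th j < F.th k)
    (h1 : ∀ i j, i ≠ j → |lf (β i) (β j)| < 1) :
    Real.arccos (lf (β i) (β j)) + Real.arccos (lf (β j) (β k)) ≤ Real.arccos (lf (β i) (β k)) := by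
  have hij' : i ≠ j := fun h => by rw [h] at hij; exact lt_irrefl _ hij
  have hjk' : j ≠ k := fun h => by rw [h] at hjk; exact lt_irrefl _ hjk
  have B1 := abs_lt.1 (h1 i j hij')
  have B2 := abs_lt.1 (h1 j k hjk')
  have e1 : lf (β i) (β j) = F.s i * F.s j + F.g i j := F.lf_eq i j
  have e2 : lf (β j) (β k) = F.s j * F.s k + F.g k j := by rw [F.lf_eq j k, F.g_symm j k]
  have e3 : lf (β i) (β k) = F.s i * F.s k + F.g i k := F.lf_eq i k
  have s1 := Hyp2_s_lt F hij
  have s2 := Hyp2_s_lt F hjk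
  have gi := F.g_self i
  have gj := F.g_self j
  have gk := F.g_self k
  have g1 := F.gh i j
  have g2 := F.gh k j
  have g3 := F.gg i j k
  have p1 := F.g_pos i j
  have p2 := F.g_pos k j
  have l1 := F.s_lt i
  have l2 := F.s_lt j
  have l3 := F.s_lt k
  rw [gi, gj] at g1
  rw [gk, gj] at g2
  rw [gj] at g3
  have t1 := Hyp2_arccos_le F hij
  have t2 := Hyp2_arccos_le F hjk
  have t3 := F.th_lt k
  have t4 := F.lt_th i
  rw [e1] at B1
  rw [e2] at B2
  generalize F.s i = a at *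
  generalize F.s j = b at *
  generalize F.s k = d at *
  generalize F.g i j = x at *
  generalize F.g k j = y at *
  generalize F.g i k = z at *
  generalize F.h i j = u at *
  generalize F.h k j = v at *
  have hc : 0 < 1 - b ^ 2 := by linarith
  have hA : 0 < -a * (1 - b ^ 2) + b * x := by
    have := Hyp2_pos (a := -b) (b := -a) (g := x) (by linarith) (by linarith) p1
      (by rw [neg_sq, neg_sq]; linarith [sq_nonneg u]) (by linarith)
    rw [neg_sq] at this
    linarith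
  have hC : 0 < d * (1 - b ^ 2) - b * y :=
    Hyp2_pos (a := b) (b := d) (g := y) s2 l2 p2 (by linarith [sq_nonneg v]) (by linarith)
  set A := -a * (1 - b ^ 2) + b * x with hAdef
  set C := d * (1 - b ^ 2) - b * y with hCdef
  have c1 : A ^ 2 - u ^ 2 = (1 - b ^ 2) * (1 - (a * b + x) ^ 2) := by
    rw [← g1, hAdef]; ring
  have c2 : C ^ 2 - v ^ 2 = (1 - b ^ 2) * (1 - (b * d + y) ^ 2) := by
    rw [← g2, hCdef]; ring
  have c3 : (1 - b ^ 2) * ((a * b + x) * (b * d + y) - (a * d + z)) = A * C + u * v := by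
    have : (1 - b ^ 2) * z = x * y - u * v := by linarith
    rw [hAdef, hCdef]
    linear_combination -this
  have q1 : 0 < 1 - (a * b + x) ^ 2 := by nlinarith [B1.1, B1.2]
  have q2 : 0 < 1 - (b * d + y) ^ 2 := by nlinarith [B2.1, B2.2]
  have u1 : |u| ≤ A := abs_le_of_sq_le_sq (by linarith [mul_pos hc q1]) hA.le
  have v1 : |v| ≤ C := abs_le_of_sq_le_sq (by linarith [mul_pos hc q2]) hC.le
  have w1 : 0 ≤ A * C + u * v := by
    have h2 : |u * v| ≤ A * C := by
      rw [abs_mul]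
      exact mul_le_mul u1 v1 (abs_nonneg v) hA.le
    linarith [neg_abs_le (u * v)]
  have w2 : 0 ≤ (a * b + x) * (b * d + y) - (a * d + z) := by
    rw [← c3] at w1
    exact nonneg_of_mul_nonneg_right w1 hc
  have w3 : (1 - (a * b + x) ^ 2) * (1 - (b * d + y) ^ 2) ≤
      ((a * b + x) * (b * d + y) - (a * d + z)) ^ 2 := by
    have h2 : (A ^ 2 - u ^ 2) * (C ^ 2 - v ^ 2) ≤ (A * C + u * v) ^ 2 := by
      have h3 : (A * C + u * v) ^ 2 - (A ^ 2 - u ^ 2) * (C ^ 2 - v ^ 2) = (A * v + C * u) ^ 2 := by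
        ring
      linarith [sq_nonneg (A * v + C * u)]
    rw [c1, c2, ← c3] at h2
    have h3 : (1 - b ^ 2) ^ 2 * ((1 - (a * b + x) ^ 2) * (1 - (b * d + y) ^ 2)) ≤
        (1 - b ^ 2) ^ 2 * ((a * b + x) * (b * d + y) - (a * d + z)) ^ 2 := by
      rw [← mul_pow]
      refine le_trans (le_of_eq ?_) h2
      ring
    exact le_of_mul_le_mul_left h3 (pow_pos hc 2)
  have w4 : a * d + z ≤ Real.cos (Real.arccos (a * b + x) + Real.arccos (b * d + y)) := by
    rw [Real.cos_add, Real.cos_arccos (by linarith [B1.1]) (by linarith [B1.2]),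
      Real.cos_arccos (by linarith [B2.1]) (by linarith [B2.2]), Real.sin_arccos,
      Real.sin_arccos, ← Real.sqrt_mul q1.le]
    have h2 : √((1 - (a * b + x) ^ 2) * (1 - (b * d + y) ^ 2)) ≤
        (a * b + x) * (b * d + y) - (a * d + z) := by
      rw [Real.sqrt_le_left w2]
      exact w3
    linarith
  rw [e1] at t1
  rw [e2] at t2
  rw [e1, e2, e3]
  have h2 := Real.arccos_le_arccos w4
  rw [Real.arccos_cos (add_nonneg (Real.arccos_nonneg _) (Real.arccos_nonneg _))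
    (by linarith)] at h2
  exact h2

end Pool.Agent.PolyTop
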