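import Pool.Agent.PolyTop.FacS
import Pool.Agent.PolyCell.Geo

/-!
# No three left descents

`noThree`: three left descents `i, j, k` (all generators) of `w`: choose `T = {i,j}` with `M i j = N` (up to names); all reflections of `D_T` separate `1` and `w` (`both_ld`,
`sep_D_mul`, `sep_wT`), and `s_k` too; `s_k` crosses `κ ∈ D_T`: (-,-) at `w`, (`s_k` only) at `s_k`, (`κ` only) at `w_T` (`s_k ∉ D_T`: `ld_of_mem_D`). So `N + 1 ≤ N`.
-/

open CoxeterSystem Pool.Agent.PolyCell

namespace Pool.Agent.PolyTop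

variable {B W : Type*} [Group W] {M : CoxeterMatrix B} (cs : CoxeterSystem M W)

private theorem NoT_simple_notMem {a b c : B} (hab : a ≠ b) (hca : c ≠ a) (hcb : c ≠ b) :
    cs.simple c ∉ D cs a b := by
  intro h
  have h1 : cs.IsLeftDescent (cs.simple c) c :=
    (sep_simple_iff cs).1 ((sep_simple cs).2 rfl)
  rcases ld_of_mem_D cs hab h h1 with h2 | h2
  · exact hca h2
  · exact hcb h2

/-- three different left descents, two of them with exponent `N` -/
private theorem NoT_aux {N : ℕ} (hF : ∀ w, FB1 cs N w) (h2 : 2 ≤ N) {a b c : B} (hab : a ≠ b)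
    (hca : c ≠ a) (hcb : c ≠ b) (hm : M a b = N) {w : W} (ha : cs.IsLeftDescent w a)
    (hb : cs.IsLeftDescent w b) (hc : cs.IsLeftDescent w c) : False := by
  classical
  have hm0 : M a b ≠ 0 := by omega
  have hcD := NoT_simple_notMem cs hab hca hcb
  obtain ⟨R, hR, hcard⟩ := exists_refl_D cs hab hm0
  obtain ⟨-, y, hy, hw, -⟩ := both_ld cs hab ha hb
  have hRw : ∀ t ∈ R, Sep cs t w := by
    intro t ht
    obtain ⟨hr, htD⟩ := (hR t).1 ht
    rw [hw]
    exact (sep_D_mul cs hab (wT_mem cs a b) hy htD).2 (sep_wT cs hab hm0 htD hr)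
  have hcw : Sep cs (cs.simple c) w := (sep_simple_iff cs).2 hc
  have hcR : cs.simple c ∉ R := fun h => hcD ((hR _).1 h).2
  have hcross : ∀ t ∈ R, Cross cs (cs.simple c) t := by
    intro t ht
    obtain ⟨hr, htD⟩ := (hR t).1 ht
    refine ⟨cs.isReflection_simple c, hr, ⟨w, hcw, hRw t ht⟩,
      ⟨cs.simple c, (sep_simple cs).2 rfl, fun h => ?_⟩,
      ⟨wT cs a b, fun h => hcD (sep_mem_D cs (wT_mem cs a b) h), sep_wT cs hab hm0 htD hr⟩⟩
    exact hcD ((sep_simple cs).1 h ▸ htD)
  have hclq : Clq cs (insert (cs.simple c) R) := by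
    intro t ht u hu hne
    rcases Finset.mem_insert.1 ht with rfl | ht
    · rcases Finset.mem_insert.1 hu with rfl | hu
      · exact absurd rfl hne
      · exact hcross u hu
    · rcases Finset.mem_insert.1 hu with rfl | hu
      · exact cross_symm cs (hcross t ht)
      · obtain ⟨hr, htD⟩ := (hR t).1 ht
        obtain ⟨hr', huD⟩ := (hR u).1 hu
        exact cross_D cs hab hm0 htD hr huD hr' hne
  have hsub : Sub cs (insert (cs.simple c) R) w := by
    intro t ht
    rcases Finset.mem_insert.1 ht with rfl | ht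
    · exact hcw
    · exact hRw t ht
  have h3 := hF w _ hclq hsub
  rw [Finset.card_insert_of_notMem hcR, hcard, hm] at h3
  omega

theorem noThree_top {N : ℕ} (hF : ∀ w, FB1 cs N w) (h2 : 2 ≤ N)
    (hB : ∀ i j k : B, i ≠ j → j ≠ k → i ≠ k → ∀ l, l = i ∨ l = j ∨ l = k)
    (hN : ∃ i j, i ≠ j ∧ M i j = N) : NoThree cs := by
  intro w i j k hi hj hk
  by_contra hcon
  push Not at hcon
  obtain ⟨hij, hjk, hik⟩ := hcon
  obtain ⟨a, b, hab, hm⟩ := hN
  have hall : ∀ l, cs.IsLeftDescent w l := by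
    intro l
    rcases hB i j k hij hjk hik l with rfl | rfl | rfl
    · exact hi
    · exact hj
    · exact hk
  have hc : ∃ c, c ≠ a ∧ c ≠ b := by
    by_contra hno
    push Not at hno
    rcases hB i j k hij hjk hik a with rfl | rfl | rfl
    · exact hjk ((hno j hij.symm).trans (hno k hik.symm).symm)
    · exact hik ((hno i hij).trans (hno k hjk.symm).symm)
    · exact hij ((hno i hik).trans (hno j hjk).symm)
  obtain ⟨c, hca, hcb⟩ := hc
  exact NoT_aux cs hF h2 hab hca hcb hm (hall a) (hall b) (hall c)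

end Pool.Agent.PolyTop
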