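import Pool.Agent.PolyTop.Lor

/-!
# Products of two reflections
-/

namespace Pool.Agent.PolyTop

variable {a b : Fin 3 → ℝ}

private theorem Rot_pv {φ : ℝ} (h : Real.sin φ ≠ 0) (ha : lf a a = 1) (hb : lf b b = 1)
    (hab : lf a b = - Real.cos φ) (n : ℕ) (ψ : ℝ) :
    ((rfl' a * rfl' b) ^ n) (pv φ a b ψ) = pv φ a b (ψ + n * (2 * φ)) := by
  induction n generalizing ψ with
  | zero => simp
  | succ n ih =>
    rw [pow_succ, Module.End.mul_apply, Module.End.mul_apply, rfl'_pv_right h hb hab,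
      rfl'_pv_left h ha hab, ih]
    congr 1
    push_cast
    ring

private theorem Rot_fix {v : Fin 3 → ℝ} (ha : lf v a = 0) (hb : lf v b = 0) (n : ℕ) :
    ((rfl' a * rfl' b) ^ n) v = v := by
  induction n with
  | zero => simp
  | succ n ih =>
    have h1 : rfl' b v = v := by rw [rfl'_apply, hb, mul_zero, zero_smul, sub_zero]
    have h2 : rfl' a v = v := by rw [rfl'_apply, ha, mul_zero, zero_smul, sub_zero]
    rw [pow_succ, Module.End.mul_apply, Module.End.mul_apply, h1, h2, ih]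

/-- `(r_a r_b)^m = 1` for `φ = π / m`. Write `v = v₀ + p • a + q • b`, `v₀` orthogonal to `a` and `b` (fixed by `r_a`, `r_b`); `r_a r_b` maps
`pv ψ` to `pv (ψ + 2 φ)`. -/
theorem rot_pow (m : ℕ) (hm : 2 ≤ m) (ha : lf a a = 1) (hb : lf b b = 1)
    (hab : lf a b = - Real.cos (Real.pi / m)) : (rfl' a * rfl' b) ^ m = 1 := by
  have hm0 : (0 : ℝ) < m := by exact_mod_cast (by omega : 0 < m)
  have hm2 : (2 : ℝ) ≤ m := by exact_mod_cast hm
  obtain ⟨φ, hφ⟩ : ∃ φ : ℝ, φ = Real.pi / m := ⟨_, rfl⟩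
  rw [← hφ] at hab
  have hmφ : (m : ℝ) * φ = Real.pi := by rw [hφ]; field_simp
  have h : Real.sin φ ≠ 0 := by
    apply ne_of_gt
    apply Real.sin_pos_of_pos_of_lt_pi
    · rw [hφ]; positivity
    · rw [hφ, div_lt_iff₀ hm0]
      nlinarith [Real.pi_pos]
  have hs : Real.sin φ ^ 2 = 1 - Real.cos φ ^ 2 := Real.sin_sq φ
  have hs0 : Real.sin φ ^ 2 ≠ 0 := pow_ne_zero 2 h
  have hka : ((rfl' a * rfl' b) ^ m) a = a := by
    have h1 := Rot_pv h ha hb hab m 0
    rw [pv_zero h] at h1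
    rw [h1]
    have e : (0 : ℝ) + m * (2 * φ) = 0 + 2 * Real.pi := by rw [← hmφ]; ring
    rw [e, pv_add_two_pi, pv_zero h]
  have hkb : ((rfl' a * rfl' b) ^ m) b = b := by
    have h1 := Rot_pv h ha hb hab m (Real.pi - φ)
    rw [pv_pi_sub h] at h1
    rw [h1]
    have e : (Real.pi - φ : ℝ) + m * (2 * φ) = (Real.pi - φ) + 2 * Real.pi := by rw [← hmφ]; ring
    rw [e, pv_add_two_pi, pv_pi_sub h]
  refine LinearMap.ext fun v => ?_
  rw [Module.End.one_apply]
  obtain ⟨p, hp⟩ : ∃ p, p = (lf v a + Real.cos φ * lf v b) / Real.sin φ ^ 2 := ⟨_, rfl⟩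
  obtain ⟨q, hq⟩ : ∃ q, q = (lf v b + Real.cos φ * lf v a) / Real.sin φ ^ 2 := ⟨_, rfl⟩
  obtain ⟨w, hw⟩ : ∃ w, w = v - (p • a + q • b) := ⟨_, rfl⟩
  have hba : lf b a = - Real.cos φ := by rw [lf_comm, hab]
  have hp' : p * Real.sin φ ^ 2 = lf v a + Real.cos φ * lf v b := by
    rw [hp]; field_simp
  have hq' : q * Real.sin φ ^ 2 = lf v b + Real.cos φ * lf v a := by
    rw [hq]; field_simp
  have hwa : lf w a = 0 := by
    rw [hw, lf_sub_left, lf_add_left, lf_smul_left, lf_smul_left, ha, hba]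
    apply mul_left_cancel₀ hs0
    linear_combination (-1 : ℝ) * hp' + Real.cos φ * hq' + (lf v a) * hs
  have hwb : lf w b = 0 := by
    rw [hw, lf_sub_left, lf_add_left, lf_smul_left, lf_smul_left, hb, hab]
    apply mul_left_cancel₀ hs0
    linear_combination (-1 : ℝ) * hq' + Real.cos φ * hp' + (lf v b) * hs
  have hv : v = w + (p • a + q • b) := by rw [hw]; abel
  rw [hv, map_add, map_add, map_smul, map_smul, hka, hkb, Rot_fix hwa hwb]

end Pool.Agent.PolyTop
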