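import Pool.Agent.PolyTop.Sgn

/-!
# Positive roots of reflections
-/

open CoxeterSystem Pool.Agent.PolyCell

namespace Pool.Agent.PolyTop

variable {B W : Type*} [Group W] {M : CoxeterMatrix B} (cs : CoxeterSystem M W) (R : Rzn M)

/-- `β` is the positive root of the reflection `t` -/
structure IsRt (t : W) (β : Fin 3 → ℝ) : Prop where
  conj : ∃ (w : W) (i : B), t = w * cs.simple i * w⁻¹ ∧ β = rho cs R w (R.α i)
  pos : 0 < lf R.x0 β

private theorem Rt_flip (w : W) (i : B) :
    rho cs R (w * cs.simple i) (R.α i) = - rho cs R w (R.α i) := by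
  rw [rho_mul, rho_simple, rfl'_self (R.self i), map_neg]

private theorem Rt_not (w : W) {i : B} (h : cs.IsRightDescent w i) :
    ¬ cs.IsRightDescent (w * cs.simple i) i := by
  have h1 := cs.isRightDescent_iff.1 h
  unfold IsRightDescent
  rw [cs.simple_mul_simple_cancel_right]
  omega

private theorem Rt_conj (w : W) (i : B) :
    w * cs.simple i * w⁻¹ = w * cs.simple i * cs.simple i * (w * cs.simple i)⁻¹ := by
  rw [mul_inv_rev, cs.inv_simple, cs.simple_mul_simple_cancel_right, ← mul_assoc]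

/-- the root of `w s_i w⁻¹` -/
private theorem Rt_or (w : W) (i : B) :
    IsRt cs R (w * cs.simple i * w⁻¹) (rho cs R w (R.α i)) ∨
      IsRt cs R (w * cs.simple i * w⁻¹) (- rho cs R w (R.α i)) := by
  by_cases h : cs.IsRightDescent w i
  · right
    refine ⟨⟨w * cs.simple i, i, Rt_conj cs w i, (Rt_flip cs R w i).symm⟩, ?_⟩
    rw [← Rt_flip]
    exact sgn_pos cs R (Rt_not cs w h)
  · left
    exact ⟨⟨w, i, rfl, rfl⟩, sgn_pos cs R h⟩

theorem exists_rt {t : W} (ht : cs.IsReflection t) : ∃ β, IsRt cs R t β := by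
  obtain ⟨w, i, rfl⟩ := ht
  rcases Rt_or cs R w i with h | h
  · exact ⟨_, h⟩
  · exact ⟨_, h⟩

variable {cs R}

theorem IsRt.refl {t : W} {β : Fin 3 → ℝ} (h : IsRt cs R t β) : cs.IsReflection t := by
  obtain ⟨w, i, h1, -⟩ := h.conj
  exact ⟨w, i, h1⟩

theorem IsRt.unit {t : W} {β : Fin 3 → ℝ} (h : IsRt cs R t β) : lf β β = 1 := by
  obtain ⟨w, i, -, h2⟩ := h.conj
  rw [h2, lf_rho, R.self]

/-- `t` acts as the reflection in `β`: `t = w s_i w⁻¹`, `lf_rho` -/
theorem IsRt.act {t : W} {β : Fin 3 → ℝ} (h : IsRt cs R t β) (v : Fin 3 → ℝ) :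
    rho cs R t v = v - (2 * lf v β) • β := by
  obtain ⟨w, i, h1, h2⟩ := h.conj
  have h3 : rho cs R w (rho cs R w⁻¹ v) = v := by
    have := rho_inv cs R w⁻¹ v
    rwa [inv_inv] at this
  have h4 : lf (rho cs R w⁻¹ v) (R.α i) = lf v β := by
    rw [h2, ← lf_rho cs R w, h3]
  rw [h1, rho_mul, rho_mul, rho_simple, rfl'_apply, map_sub, map_smul, h3, h4, ← h2]

private theorem IsRt_key {t : W} {β : Fin 3 → ℝ} (h : IsRt cs R t β) (z : W) :
    ∃ (w : W) (i : B), (Sep cs t z ↔ cs.IsRightDescent (z⁻¹ * w) i) ∧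
      lf R.x0 (rho cs R (z⁻¹ * w) (R.α i)) = lf β (rho cs R z R.x0) := by
  have ht := h.refl
  obtain ⟨w, i, h1, h2⟩ := h.conj
  refine ⟨w, i, ?_, ?_⟩
  · have hw : ¬ cs.IsRightDescent w i := by
      intro hd
      have h3 := sgn_neg cs R hd
      have h4 := h.pos
      rw [h2] at h4
      linarith
    have h5 : ¬ Sep cs t w := by
      rintro ⟨-, h6⟩
      apply hw
      unfold IsRightDescent
      rw [h1, inv_mul_cancel_right] at h6
      exact h6
    have h6 : w⁻¹ * t * w = cs.simple i := by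
      rw [h1]
      group
    have h7 := sep_mul cs ht w (w⁻¹ * z)
    rw [mul_inv_cancel_left, h6, sep_simple_iff] at h7
    have h8 : cs.IsLeftDescent (w⁻¹ * z) i ↔ cs.IsRightDescent (z⁻¹ * w) i := by
      rw [← cs.isRightDescent_inv_iff, mul_inv_rev, inv_inv]
    rw [h7, h8]
    tauto
  · rw [rho_mul, ← h2, ← lf_rho cs R z, lf_comm]
    congr 1
    have := rho_inv cs R z⁻¹ β
    rwa [inv_inv] at this

/-- `t = w s_i w⁻¹`, `β = w α_i` positive: `i` is not a right descent of `w` (`sgn_neg`); `sep_mul` for `z = w (w⁻¹ z)`: `t` separates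
`1` and `z` iff `s_i` separates `1` and `w⁻¹ z` iff `i` is a right descent of `z⁻¹ w` iff `lf x0 (z⁻¹ w α_i) < 0`. -/
theorem IsRt.sep_iff {t : W} {β : Fin 3 → ℝ} (h : IsRt cs R t β) (z : W) :
    Sep cs t z ↔ lf β (rho cs R z R.x0) < 0 := by
  obtain ⟨w, i, h1, h2⟩ := IsRt_key h z
  rw [h1, ← h2]
  constructor
  · intro hd
    exact sgn_neg cs R hd
  · intro hlt
    by_contra hd
    have := sgn_pos cs R hd
    linarith

theorem IsRt.not_sep_iff {t : W} {β : Fin 3 → ℝ} (h : IsRt cs R t β) (z : W) :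
    ¬ Sep cs t z ↔ 0 < lf β (rho cs R z R.x0) := by
  obtain ⟨w, i, h1, h2⟩ := IsRt_key h z
  rw [h1, ← h2]
  constructor
  · intro hd
    exact sgn_pos cs R hd
  · intro hlt hd
    have := sgn_neg cs R hd
    linarith

/-- the representation is faithful: if `w` acts trivially, it has no right descents. -/
theorem rho_faithful {w : W} (h : ∀ v, rho cs R w v = v) : w = 1 := by
  by_contra hne
  obtain ⟨i, hi⟩ := cs.exists_rightDescent_of_ne_one hne
  have h1 := sgn_neg cs R hi
  rw [h] at h1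
  have h2 := R.pos i
  linarith

/-- reflections with the same root are equal (`IsRt.act`, `rho_faithful` for `t t'`) -/
theorem IsRt.unique {t t' : W} {β : Fin 3 → ℝ} (h : IsRt cs R t β) (h' : IsRt cs R t' β) :
    t = t' := by
  have h1 : t * t' = 1 := by
    refine rho_faithful (cs := cs) (R := R) fun v => ?_
    have h2 : rho cs R t (rho cs R t v) = v := by
      rw [← rho_mul, h.refl.mul_self, rho_one]
    rw [rho_mul, h'.act, ← h.act, h2]
  rw [eq_inv_of_mul_eq_one_left h1, h'.refl.inv]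

/-- the root of `t u t` -/
theorem IsRt.conj_root {t u : W} {β γ : Fin 3 → ℝ} (h : IsRt cs R t β) (h' : IsRt cs R u γ) :
    IsRt cs R (t * u * t) (γ - (2 * lf γ β) • β) ∨ IsRt cs R (t * u * t) ((2 * lf γ β) • β - γ) := by
  obtain ⟨w, i, h1, h2⟩ := h'.conj
  have h3 : t * u * t = (t * w) * cs.simple i * (t * w)⁻¹ := by
    rw [h1, mul_inv_rev, h.refl.inv]
    simp only [mul_assoc]
  have h4 : rho cs R (t * w) (R.α i) = γ - (2 * lf γ β) • β := by
    rw [rho_mul, ← h2, h.act]
  rw [h3]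
  rcases Rt_or cs R (t * w) i with h5 | h5
  · left
    rw [← h4]
    exact h5
  · right
    rw [h4, neg_sub] at h5
    exact h5

end Pool.Agent.PolyTop
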