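import Pool.Agent.PolyTop.Rzn

/-!
# The roots of a dihedral parabolic subgroup
-/

open CoxeterSystem Pool.Agent.PolyCell

namespace Pool.Agent.PolyTop

variable {B W : Type*} [Group W] {M : CoxeterMatrix B} (cs : CoxeterSystem M W) (R : Rzn M)

private theorem RznD_sin {m : ℕ} (hm : 2 ≤ m) : 0 < Real.sin (Real.pi / m) := by
  have h1 : (2 : ℝ) ≤ m := by exact_mod_cast hm
  have h2 := Real.pi_pos
  apply Real.sin_pos_of_pos_of_lt_pi
  · exact div_pos h2 (by linarith)
  · rw [div_lt_iff₀ (by linarith)]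
    nlinarith

/-- a set containing `1` and closed under left multiplication by the generators contains `D` -/
private theorem RznD_ind {i j : B} {P : W → Prop} (h1 : P 1) (hi : ∀ u, P u → P (cs.simple i * u))
    (hj : ∀ u, P u → P (cs.simple j * u)) {u : W} (hu : u ∈ D cs i j) : P u := by
  unfold D at hu
  induction hu using Subgroup.closure_induction_left with
  | one => exact h1
  | mul_left x hx y hy ih =>
    rcases hx with rfl | hx
    · exact hi _ ih
    · rw [Set.mem_singleton_iff] at hx
      subst hx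
      exact hj _ ih
  | inv_mul_cancel x hx y hy ih =>
    rcases hx with rfl | hx
    · rw [cs.inv_simple]
      exact hi _ ih
    · rw [Set.mem_singleton_iff] at hx
      subst hx
      rw [cs.inv_simple]
      exact hj _ ih

/-- `s_i` acts on the unit vectors of the plane -/
private theorem RznD_left {i j : B} (hij : i ≠ j) {u : W} {v : Fin 3 → ℝ} {ψ ψ' : ℝ}
    (h : rho cs R u v = pv (Real.pi / M i j) (R.α i) (R.α j) ψ) (hψ : ψ' = Real.pi - ψ) :
    rho cs R (cs.simple i * u) v = pv (Real.pi / M i j) (R.α i) (R.α j) ψ' := by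
  rw [rho_mul, rho_simple, h, rfl'_pv_left (RznD_sin (two_le_exp hij (R.ne i j))).ne' (R.self i)
    (R.off i j hij), hψ]

private theorem RznD_right {i j : B} (hij : i ≠ j) {u : W} {v : Fin 3 → ℝ} {ψ ψ' : ℝ}
    (h : rho cs R u v = pv (Real.pi / M i j) (R.α i) (R.α j) ψ)
    (hψ : ψ' = Real.pi - 2 * (Real.pi / M i j) - ψ) :
    rho cs R (cs.simple j * u) v = pv (Real.pi / M i j) (R.α i) (R.α j) ψ' := by
  rw [rho_mul, rho_simple, h, rfl'_pv_right (RznD_sin (two_le_exp hij (R.ne i j))).ne' (R.self j)
    (R.off i j hij), hψ]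

include R in
private theorem RznD_pi {i j : B} (hij : i ≠ j) :
    (M i j : ℝ) * (Real.pi / M i j) = Real.pi := by
  have h := two_le_exp hij (R.ne i j)
  have h1 : (2 : ℝ) ≤ M i j := by exact_mod_cast h
  exact mul_div_cancel₀ _ (by linarith)

/-- the roots of `D`: `k ∈ {i,j}`, `u ∈ D`: `u α_k = pv (l π/m)` (induction on `u`: `rfl'_pv_left`, `rfl'_pv_right`) -/
theorem rho_D {i j k : B} (hij : i ≠ j) (hk : k = i ∨ k = j) {u : W} (hu : u ∈ D cs i j) :
    ∃ l : ℤ, rho cs R u (R.α k) =
      pv (Real.pi / M i j) (R.α i) (R.α j) (l * (Real.pi / M i j)) := by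
  have hs := (RznD_sin (two_le_exp hij (R.ne i j))).ne'
  have hpi := RznD_pi R hij
  refine RznD_ind cs (P := fun u => ∃ l : ℤ, rho cs R u (R.α k) =
      pv (Real.pi / M i j) (R.α i) (R.α j) (l * (Real.pi / M i j))) ?_ ?_ ?_ hu
  · show ∃ l : ℤ, rho cs R 1 (R.α k) = _
    rw [rho_one]
    rcases hk with rfl | rfl
    · exact ⟨0, by rw [Int.cast_zero, zero_mul, pv_zero hs]⟩
    · refine ⟨(M i k : ℤ) - 1, ?_⟩
      have e : (((M i k : ℤ) - 1 : ℤ) : ℝ) * (Real.pi / M i k) = Real.pi - Real.pi / M i k := by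
        push_cast
        linear_combination hpi
      rw [e, pv_pi_sub hs]
  · rintro u ⟨l, h⟩
    refine ⟨(M i j : ℤ) - l, RznD_left cs R hij h ?_⟩
    push_cast
    linear_combination hpi
  · rintro u ⟨l, h⟩
    refine ⟨(M i j : ℤ) - 2 - l, RznD_right cs R hij h ?_⟩
    push_cast
    linear_combination hpi

private theorem RznD_alt {i j : B} (hij : i ≠ j) (k : ℕ) :
    rho cs R (alt cs i j k) (R.α i) = pv (Real.pi / M i j) (R.α i) (R.α j)
      ((if Even k then (k : ℝ) else (M i j : ℝ) - 1 - k) * (Real.pi / M i j)) := by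
  have hs := (RznD_sin (two_le_exp hij (R.ne i j))).ne'
  have hpi := RznD_pi R hij
  induction k with
  | zero =>
    have h0 : alt cs i j 0 = 1 := by
      unfold alt
      exact cs.wordProd_nil
    rw [h0, rho_one, if_pos (by simp), Nat.cast_zero, zero_mul, pv_zero hs]
  | succ k ih =>
    have h0 : alt cs i j (k + 1) = cs.simple (if Even k then j else i) * alt cs i j k := by
      unfold alt
      rw [alternatingWord_succ', wordProd_cons]
    rw [h0]
    by_cases hk : Even k
    · rw [if_pos hk] at ih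
      rw [if_pos hk]
      have hk' : ¬ Even (k + 1) := by
        rw [Nat.even_add_one]
        exact fun h => h hk
      refine RznD_right cs R hij ih ?_
      rw [if_neg hk']
      push_cast
      linear_combination hpi
    · rw [if_neg hk] at ih
      rw [if_neg hk]
      have hk' : Even (k + 1) := by
        rw [Nat.even_add_one]
        exact hk
      refine RznD_left cs R hij ih ?_
      rw [if_pos hk']
      push_cast
      linear_combination hpi

/-- for `u ∈ D`, `i` not a right descent of `u`: `u α_i = p α_i + q α_j` with `p, q ≥ 0`, not both `0`.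
`u = 1`, or (`D_cases`) `u = alt i j k` (last letter `j`), `1 ≤ k ≤ m - 1`: `u α_i = pv (k φ)` for `k` even, `pv ((m - 1 - k) φ)` for `k` odd, `φ = π/m`
(induction on `k`: `alt i j (k+1) = (s_i or s_j) * alt i j k`). -/
theorem rho_D_pos {i j : B} (hij : i ≠ j) {u : W} (hu : u ∈ D cs i j)
    (h : ¬ cs.IsRightDescent u i) :
    ∃ p q : ℝ, 0 ≤ p ∧ 0 ≤ q ∧ 0 < p + q ∧ rho cs R u (R.α i) = p • R.α i + q • R.α j := by
  have hm0 := R.ne i j
  have hm := two_le_exp hij hm0
  have hs := RznD_sin hm
  have hpi := RznD_pi R hij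
  have key : ∃ k, k + 1 ≤ M i j ∧ u = alt cs i j k := by
    obtain ⟨k, hk, hu' | hu'⟩ := D_cases cs hij hm0 hu
    · rcases Nat.lt_or_ge k (M i j) with h1 | h1
      · exact ⟨k, h1, hu'⟩
      · have h2 : k = M i j := le_antisymm hk h1
        exfalso
        apply h
        rw [hu', h2]
        exact rd_wT cs hij hm0 (Or.inl rfl)
    · rcases Nat.eq_zero_or_pos k with h1 | h1
      · refine ⟨0, by omega, ?_⟩
        rw [hu', h1]
        unfold alt
        rfl
      · obtain ⟨n, rfl⟩ := Nat.exists_eq_succ_of_ne_zero h1.ne'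
        exfalso
        apply h
        have e : alt cs j i (n + 1) * cs.simple i = alt cs i j n := by
          unfold alt
          rw [alternatingWord_succ, wordProd_concat, cs.simple_mul_simple_cancel_right]
        show cs.length _ < cs.length _
        have hsym : M j i = M i j := M.symmetric j i
        rw [hu', Nat.succ_eq_add_one, e, length_alt cs hij (Or.inr (by omega)),
          length_alt cs hij.symm (Or.inr (by rw [hsym]; exact hk))]
        omega
  obtain ⟨k, hk, rfl⟩ := key
  obtain ⟨l, hl, hl2⟩ : ∃ l : ℕ, l + 1 ≤ M i j ∧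
      (if Even k then (k : ℝ) else (M i j : ℝ) - 1 - k) = l := by
    by_cases he : Even k
    · exact ⟨k, hk, if_pos he⟩
    · refine ⟨M i j - 1 - k, by omega, ?_⟩
      rw [if_neg he, Nat.cast_sub (by omega), Nat.cast_sub (by omega), Nat.cast_one]
  have hr := RznD_alt cs R hij k
  rw [hl2] at hr
  have hmR : (0 : ℝ) < M i j := by
    have : (2 : ℝ) ≤ M i j := by exact_mod_cast hm
    linarith
  have hφ : 0 < Real.pi / (M i j : ℝ) := div_pos Real.pi_pos hmR
  have hlR : ((l : ℝ) + 1) ≤ M i j := by exact_mod_cast hl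
  have hl0 : (0 : ℝ) ≤ l := Nat.cast_nonneg l
  have hb : ((l : ℝ) + 1) * (Real.pi / M i j) ≤ Real.pi := by
    calc ((l : ℝ) + 1) * (Real.pi / M i j) ≤ (M i j : ℝ) * (Real.pi / M i j) :=
          mul_le_mul_of_nonneg_right hlR hφ.le
      _ = Real.pi := hpi
  have h1 : 0 ≤ Real.sin (l * (Real.pi / M i j)) := by
    apply Real.sin_nonneg_of_nonneg_of_le_pi
    · positivity
    · nlinarith
  have h2 : 0 ≤ Real.sin (Real.pi / M i j + l * (Real.pi / M i j)) := by
    apply Real.sin_nonneg_of_nonneg_of_le_pi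
    · positivity
    · nlinarith
  have h3 : 0 < Real.sin (Real.pi / M i j + l * (Real.pi / M i j)) +
      Real.sin (l * (Real.pi / M i j)) := by
    rcases Nat.eq_zero_or_pos l with h4 | h4
    · rw [h4, Nat.cast_zero, zero_mul, add_zero, Real.sin_zero, add_zero]
      exact hs
    · have h5 : (1 : ℝ) ≤ l := by exact_mod_cast h4
      have h6 : 0 < Real.sin (l * (Real.pi / M i j)) := by
        apply Real.sin_pos_of_pos_of_lt_pi
        · positivity
        · nlinarith
      linarith
  refine ⟨Real.sin (Real.pi / M i j + l * (Real.pi / M i j)) / Real.sin (Real.pi / M i j),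
    Real.sin (l * (Real.pi / M i j)) / Real.sin (Real.pi / M i j), div_nonneg h2 hs.le,
    div_nonneg h1 hs.le, ?_, ?_⟩
  · rw [← add_div]
    exact div_pos h3 hs
  · rw [hr]
    rfl

end Pool.Agent.PolyTop
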