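import Pool.Agent.PolyTop.DihW

/-!
# Order of the walls of a dihedral subgroup
-/

open CoxeterSystem Pool.Agent.PolyCell

namespace Pool.Agent.PolyTop

variable {B W : Type*} [Group W] {M : CoxeterMatrix B} (cs : CoxeterSystem M W)

/-- the alternating product of `n` letters which starts with `i` -/
private def Seg_st : B → B → ℕ → W
  | _, _, 0 => 1
  | i, j, n + 1 => cs.simple i * Seg_st j i n

private theorem Seg_alt (k : ℕ) : ∀ i j : B,
    alt cs i j k = if Even k then Seg_st cs i j k else Seg_st cs j i k := by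
  induction k with
  | zero =>
    intro i j
    rw [if_pos (Even.zero)]
    unfold alt
    exact cs.wordProd_nil
  | succ k ih =>
    intro i j
    have h : alt cs i j (k + 1) = cs.simple (if Even k then j else i) * alt cs i j k := by
      unfold alt
      rw [alternatingWord_succ', cs.wordProd_cons]
    rw [h, ih i j]
    by_cases hk : Even k
    · have h1 : ¬ Even (k + 1) := by rw [Nat.even_add_one]; exact not_not.2 hk
      rw [if_pos hk, if_pos hk, if_neg h1]
      rfl
    · have h1 : Even (k + 1) := by rw [Nat.even_add_one]; exact hk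
      rw [if_neg hk, if_neg hk, if_pos h1]
      rfl

private theorem Seg_st_alt (i j : B) (k : ℕ) :
    Seg_st cs i j k = alt cs i j k ∨ Seg_st cs i j k = alt cs j i k := by
  rw [Seg_alt cs k i j, Seg_alt cs k j i]
  by_cases hk : Even k
  · rw [if_pos hk]
    exact Or.inl rfl
  · rw [if_neg hk, if_neg hk]
    exact Or.inr rfl

private theorem Seg_len {i j : B} (hij : i ≠ j) {k : ℕ} (hk : k ≤ M i j) :
    cs.length (Seg_st cs i j k) = k := by
  rcases Seg_st_alt cs i j k with h | h
  · rw [h]
    exact length_alt cs hij (Or.inr hk)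
  · rw [h]
    exact length_alt cs hij.symm (Or.inr (by rw [M.symmetric j i]; exact hk))

private theorem Seg_cases {i j : B} (hij : i ≠ j) (hm : M i j ≠ 0) {u : W} (hu : u ∈ D cs i j) :
    ∃ k ≤ M i j, u = Seg_st cs i j k ∨ u = Seg_st cs j i k := by
  obtain ⟨k, hk, h⟩ := D_cases cs hij hm hu
  refine ⟨k, hk, ?_⟩
  rw [Seg_alt cs k i j, Seg_alt cs k j i] at h
  by_cases he : Even k
  · rw [if_pos he, if_pos he] at h
    exact h
  · rw [if_neg he, if_neg he] at h
    exact h.symm

/-- elements without left descent `j` -/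
private theorem Seg_cases' {i j : B} (hij : i ≠ j) (hm : M i j ≠ 0) {u : W} (hu : u ∈ D cs i j)
    (h : ¬ cs.IsLeftDescent u j) : u = Seg_st cs i j (cs.length u) ∧ cs.length u ≤ M i j := by
  obtain ⟨k, hk, h1 | h1⟩ := Seg_cases cs hij hm hu
  · have h2 := Seg_len cs hij hk
    rw [← h1] at h2
    rw [h2]
    exact ⟨h1, hk⟩
  · rcases k with _ | k
    · have h2 : u = 1 := h1
      rw [h2, cs.length_one]
      exact ⟨rfl, Nat.zero_le _⟩
    · exfalso
      apply h
      have h2 := Seg_len cs hij.symm (k := k + 1) (by rw [M.symmetric j i]; exact hk)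
      have h3 := Seg_len cs hij (k := k) (by omega)
      have h4 : cs.simple j * u = Seg_st cs i j k := by
        rw [h1]
        change cs.simple j * (cs.simple j * Seg_st cs i j k) = _
        rw [cs.simple_mul_simple_cancel_left]
      unfold IsLeftDescent
      rw [h4, h3, h1, h2]
      exact Nat.lt_succ_self k

private theorem Seg_pre (a r : ℕ) : ∀ i j : B,
    ∃ x, Seg_st cs i j (a + r) = Seg_st cs i j a * x ∧ cs.length x ≤ r := by
  induction a with
  | zero =>
    intro i j
    refine ⟨Seg_st cs i j r, ?_, ?_⟩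
    · change Seg_st cs i j (0 + r) = 1 * _
      rw [zero_add, one_mul]
    · have : ∀ (n : ℕ) (i j : B), cs.length (Seg_st cs i j n) ≤ n := by
        intro n
        induction n with
        | zero =>
          intro i j
          change cs.length 1 ≤ 0
          rw [cs.length_one]
        | succ n ih =>
          intro i j
          have h1 := cs.length_mul_le (cs.simple i) (Seg_st cs j i n)
          rw [cs.length_simple] at h1
          have h2 := ih j i
          change cs.length (cs.simple i * Seg_st cs j i n) ≤ n + 1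
          omega
      exact this r i j
  | succ a ih =>
    intro i j
    obtain ⟨x, h1, h2⟩ := ih j i
    refine ⟨x, ?_, h2⟩
    have h3 : a + 1 + r = (a + r) + 1 := by omega
    rw [h3]
    change cs.simple i * Seg_st cs j i (a + r) = (cs.simple i * Seg_st cs j i a) * x
    rw [h1, mul_assoc]

/-- prefixes -/
private theorem Seg_red {i j : B} (hij : i ≠ j) {a b : ℕ} (hab : a ≤ b) (hb : b ≤ M i j) {t : W}
    (h : Sep cs t (Seg_st cs i j a)) : Sep cs t (Seg_st cs i j b) := by
  obtain ⟨x, h1, h2⟩ := Seg_pre cs a (b - a) i j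
  rw [Nat.add_sub_cancel' hab] at h1
  have h3 : Red cs (Seg_st cs i j a) x := by
    unfold Red
    rw [← h1, Seg_len cs hij hb, Seg_len cs hij (hab.trans hb)]
    have h4 := cs.length_mul_le (Seg_st cs i j a) x
    rw [← h1, Seg_len cs hij hb, Seg_len cs hij (hab.trans hb)] at h4
    omega
  rw [h1]
  exact (sep_red cs h3 t).2 (Or.inl h)

/-- initial segments: if `u, u'` are in `D`, `j` is not a left descent of `u` nor of `u'`, and the last wall
`u s u⁻¹` of `u s` (`s = s_k`, `ℓ(u s) > ℓ(u)`, `j` not a left descent of `u s`) separates `1` and `u'`, then all walls of `u` separate `1` and `u'`.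
(Both `u s` and `u'` are alternating words starting with `i`: if `ℓ(u') > ℓ(u)` then `u s` is a prefix of `u'`, otherwise `u'` is
a prefix of `u`, and `u s u⁻¹` separates `1` and `u`: contradiction.) -/
theorem seg_D {i j k : B} (hij : i ≠ j) (hm : M i j ≠ 0) {u u' : W} (hu : u ∈ D cs i j)
    (hu' : u' ∈ D cs i j) (hk : k = i ∨ k = j) (hr : ¬ cs.IsRightDescent u k)
    (h1 : ¬ cs.IsLeftDescent (u * cs.simple k) j) (h2 : ¬ cs.IsLeftDescent u' j)
    (h : Sep cs (u * cs.simple k * u⁻¹) u') : ∀ t, Sep cs t u → Sep cs t u' := by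
  intro t ht
  have hlt : ¬ cs.length (u * cs.simple k) < cs.length u := hr
  -- `j` is not a left descent of `u`
  have h3 : ¬ cs.IsLeftDescent u j := by
    intro h4
    apply h1
    have h5 : cs.length (cs.simple j * u) < cs.length u := h4
    have h6 : cs.length (cs.simple j * (u * cs.simple k)) ≤ cs.length (cs.simple j * u) + 1 := by
      have := cs.length_mul_le (cs.simple j * u) (cs.simple k)
      rw [cs.length_simple, mul_assoc] at this
      exact this
    have h7 : cs.length (u * cs.simple k) = cs.length u + 1 := by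
      rcases cs.length_mul_simple u k with h | h <;> omega
    unfold IsLeftDescent
    omega
  obtain ⟨h4, h5⟩ := Seg_cases' cs hij hm hu h3
  obtain ⟨h6, h7⟩ := Seg_cases' cs hij hm hu' h2
  by_cases hle : cs.length u ≤ cs.length u'
  · rw [h6]
    rw [h4] at ht
    exact Seg_red cs hij hle h7 ht
  · exfalso
    rw [h6] at h
    have h8 := Seg_red cs hij (by omega : cs.length u' ≤ cs.length u) h5 h
    rw [← h4] at h8
    obtain ⟨-, h9⟩ := h8
    rw [inv_mul_cancel_right] at h9
    exact hlt h9

/-- two different walls of `D` are separated: `t` separates `1` and `u`, `t'` does not (`u` is an alternating word starting with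
`i` or with `j`) -/
theorem exists_sep_D {i j : B} (hij : i ≠ j) (hm : M i j ≠ 0) {t t' : W} (ht : t ∈ D cs i j)
    (hr : cs.IsReflection t) (ht' : t' ∈ D cs i j) (hr' : cs.IsReflection t') (hne : t ≠ t') :
    ∃ u ∈ D cs i j, Sep cs t u ∧ ¬ Sep cs t' u := by
  by_contra hcon
  push Not at hcon
  -- complement
  have hc : ∀ u ∈ D cs i j, ∀ s ∈ D cs i j, cs.IsReflection s →
      (Sep cs s (u * wT cs i j) ↔ ¬ Sep cs s u) := by
    intro u hu s hs hsr
    rw [sep_mul cs hsr]
    have h1 : Sep cs (u⁻¹ * s * u) (wT cs i j) := by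
      refine sep_wT cs hij hm ?_ ?_
      · exact Subgroup.mul_mem _ (Subgroup.mul_mem _ (Subgroup.inv_mem _ hu) hs) hu
      · have := hsr.conj u⁻¹
        rw [inv_inv] at this
        exact this
    constructor
    · intro h2 h3
      exact h2 ⟨fun _ => h1, fun _ => h3⟩
    · intro h2 h3
      exact h2 (h3.2 h1)
  have hiff : ∀ u ∈ D cs i j, (Sep cs t u ↔ Sep cs t' u) := by
    intro u hu
    refine ⟨hcon u hu, fun h1 => ?_⟩
    by_contra h2
    have h3 := hcon (u * wT cs i j) (Subgroup.mul_mem _ hu (wT_mem cs i j))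
      ((hc u hu t ht hr).2 h2)
    exact (hc u hu t' ht' hr').1 h3 h1
  have hstep : ∀ x ∈ D cs i j, ∀ k, cs.simple k ∈ D cs i j → ¬ Sep cs t x →
      ¬ Sep cs t (x * cs.simple k) := by
    intro x hx k hk h1 h2
    have hxk : x * cs.simple k ∈ D cs i j := Subgroup.mul_mem _ hx hk
    have h3 : ¬ Sep cs t' x := fun h => h1 ((hiff x hx).2 h)
    have h4 : Sep cs t' (x * cs.simple k) := (hiff _ hxk).1 h2
    have h5 : ∀ s : W, cs.IsReflection s → ¬ Sep cs s x → Sep cs s (x * cs.simple k) →
        s = x * cs.simple k * x⁻¹ := by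
      intro s hs h6 h7
      rw [sep_mul cs hs] at h7
      have h8 : Sep cs (x⁻¹ * s * x) (cs.simple k) := by
        by_contra h9
        exact h7 ⟨fun h => absurd h h6, fun h => absurd h h9⟩
      rw [sep_simple] at h8
      rw [← h8]
      group
    exact hne ((h5 t hr h1 h2).trans (h5 t' hr' h3 h4).symm)
  have hall : ∀ n : ℕ, ¬ Sep cs t (alt cs i j n) ∧ ¬ Sep cs t (alt cs j i n) := by
    intro n
    induction n with
    | zero =>
      have h0 : ∀ a b : B, alt cs a b 0 = 1 := by
        intro a b
        unfold alt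
        exact cs.wordProd_nil
      rw [h0, h0]
      exact ⟨not_sep_one cs t, not_sep_one cs t⟩
    | succ n ih =>
      have hs : ∀ a b : B, alt cs a b (n + 1) = alt cs b a n * cs.simple b := by
        intro a b
        unfold alt
        rw [alternatingWord_succ, cs.wordProd_concat]
      rw [hs, hs]
      exact ⟨hstep _ (alt_mem_D' cs i j n) j (Subgroup.subset_closure (by simp)) ih.2,
        hstep _ (alt_mem_D cs i j n) i (Subgroup.subset_closure (by simp)) ih.1⟩
  exact (hall (M i j)).1 (sep_wT cs hij hm ht hr)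

end Pool.Agent.PolyTop
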