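import Pool.Agent.PolyTop.RznD

/-!
# Signs of roots, walls and roots

`sgn_pos`: strong induction on `ℓ(w)` for all `i`: `w = 1`: `Rzn.pos`. Otherwise let `j` be a right descent of `w` (`j ≠ i`),
`w = w' u`, `w' ∈ Rmin i j`, `u ∈ D i j` (`decompR`), `ℓ(w') < ℓ(w)`; `i` is not a right descent of `u` (`rd_mul_D`);
`rho_D_pos`: `w α_i = p w' α_i + q w' α_j`, and `i`, `j` are not right descents of `w'`.
-/

open CoxeterSystem Pool.Agent.PolyCell

namespace Pool.Agent.PolyTop

variable {B W : Type*} [Group W] {M : CoxeterMatrix B} (cs : CoxeterSystem M W) (R : Rzn M)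

private theorem Sgn_aux (n : ℕ) : ∀ (w : W) (i : B), cs.length w = n → ¬ cs.IsRightDescent w i →
    0 < lf R.x0 (rho cs R w (R.α i)) := by
  induction n using Nat.strong_induction_on with
  | _ n ih =>
    intro w i hn h
    by_cases hw : w = 1
    · rw [hw, rho_one]
      exact R.pos i
    · obtain ⟨j, hj⟩ := cs.exists_rightDescent_of_ne_one hw
      have hij : i ≠ j := by
        rintro rfl
        exact h hj
      obtain ⟨x, u, hx, hu, rfl⟩ := decompR cs hij w
      have h1 : ¬ cs.IsRightDescent u i := fun hd =>
        h ((rd_mul_D cs hij (Or.inl rfl) hx hu).2 hd)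
      have h2 : cs.IsRightDescent u j := (rd_mul_D cs hij (Or.inr rfl) hx hu).1 hj
      have h3 := len_mul_D cs hij hx hu
      have h4 : 0 < cs.length u := by
        have h5 := cs.isRightDescent_iff.1 h2
        omega
      obtain ⟨p, q, hp, hq, hpq, he⟩ := rho_D_pos cs R hij hu h1
      have h5 := ih (cs.length x) (by omega) x i rfl hx.1
      have h6 := ih (cs.length x) (by omega) x j rfl hx.2
      rw [rho_mul, he, map_add, map_smul, map_smul, lf_add_right, lf_smul_right, lf_smul_right]
      rcases hp.lt_or_eq with h7 | h7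
      · have h8 := mul_pos h7 h5
        have h9 := mul_nonneg hq h6.le
        linarith
      · have h8 : 0 < q := by linarith
        have h9 := mul_pos h8 h6
        have h10 := mul_nonneg hp h5.le
        linarith

theorem sgn_pos {w : W} {i : B} (h : ¬ cs.IsRightDescent w i) :
    0 < lf R.x0 (rho cs R w (R.α i)) :=
  Sgn_aux cs R _ w i rfl h

/-- apply `sgn_pos` to `w s_i` -/
theorem sgn_neg {w : W} {i : B} (h : cs.IsRightDescent w i) :
    lf R.x0 (rho cs R w (R.α i)) < 0 := by
  have h1 : ¬ cs.IsRightDescent (w * cs.simple i) i := by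
    have h2 := cs.isRightDescent_iff.1 h
    unfold IsRightDescent
    rw [cs.simple_mul_simple_cancel_right]
    omega
  have h3 := sgn_pos cs R h1
  rw [rho_mul, rho_simple, rfl'_self (R.self i), map_neg, lf_neg_right] at h3
  linarith

end Pool.Agent.PolyTop
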