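import Pool.Agent.PolyTop.Crs

/-!
# The step

Notation: `s = s_i`, `K' = s K s`, `R(K) = {w | Sep K w}`. Let `σ(K) = -` if `R(s) ∩ R(K) ⊆ R(K')`, and `σ(K) = +` otherwise (then
`R(s) ∩ R(K') ⊆ R(K)` by `Dich`). `K → L` iff `R(K) ⊆ R(L')`; equivalently (apply `s`, `sep_simple_mul`) `R(K') ⊆ R(L)`.
For `K` in the clique `𝒦`: `K ≠ s` (`s` does not separate `1` and `s b`), `K' ∈ N(b)`, `K ∈ N(a⁻¹)`, `s ∈ N(a⁻¹) ∩ N(b)`.
* `K` and `K'` cross `s`: patterns of `(s, K)`: (-,-) at `a⁻¹`, (+,-) at `s b`, (-,+) at `s`; of `(s, K')`: (-,-) at `b`, (+,-) at `s a⁻¹`, (-,+) at `s`.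
* (opp) `K → L`, `K ≠ L` in `𝒦` ⇒ `σ(K) ≠ σ(L)`: take `w ∈ R(K) ∖ R(L)`. Both `-`: if `w ∈ R(s)` then `w ∈ R(K') ⊆ R(L)`, contradiction; if
  `w ∉ R(s)` then `w ∈ R(K) ⊆ R(L')`, so `s w ∈ R(L) ∩ R(s) ⊆ R(L')`, so `w ∈ R(L)`. Both `+`: if `w ∈ R(s)` then
  `w ∈ R(K) ⊆ R(L')`, `w ∈ R(s) ∩ R(L') ⊆ R(L)`; if `w ∉ R(s)`, `s w ∈ R(K') ∩ R(s) ⊆ R(K) ⊆ R(L')`, so `w ∈ R(L)`.
* (chain) `K → L → M` ⇒ `R(K) ⊆ R(L') ⊆ R(M)`, so `K = M` (otherwise `K`, `M` cross).
* `𝒜 = {K | a⁻¹ ∉ R(K')}`: `K ∈ 𝒜` ⇒ `σ(K) = +` (as `a⁻¹ ∈ R(s) ∩ R(K)`), and no `L → K ∈ 𝒜` (`a⁻¹ ∈ R(L) ⊆ R(K')`).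
* `S = {K | K ∈ 𝒜, or σ(K) = + and K → L for some L ≠ K in 𝒦, or σ(K) = - and L → K for some L ≠ K in 𝒦}`; `K* = K` for `K ∈ S` and `K* = K'`
  for `K ∉ S`. The new clique is `{s} ∪ {K* | K ∈ 𝒦}`.
* `K* ∈ N(a⁻¹) ∩ N(b)`: `K ∈ S`: if `σ(K) = +`, `b ∈ R(s) ∩ R(K') ⊆ R(K)`; if `σ(K) = -` and `L → K`, `b ∈ R(L') ⊆ R(K)`
  (`R(L) ⊆ R(K')` gives `R(L') ⊆ R(K)`). `K ∉ S`: `K ∉ 𝒜`.
* `K*`, `L*` cross for `K ≠ L`: both in `S` or both not in `S`: clear (`cross_conj`). `K ∈ S`, `L ∉ S`, and `K`, `L'` do not cross: both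
  separate `1` and `b`, so `K → L` or `L → K` (`nested_of_not_cross`; `R(L') ⊆ R(K)` iff `R(L) ⊆ R(K')`).
  - `K → L`: if `σ(K) = +`, `σ(L) = -` then `L ∈ S` (incoming). If `σ(K) = -`, `σ(L) = +`: `K ∈ S` is not due to `𝒜`, so `P → K` for some
    `P ≠ K`; `P → K → L` gives `P = L`, so `L → K`, `σ(L) = +`, `L ∈ S`.
  - `L → K`: if `σ(L) = +` then `L ∈ S`. So `σ(L) = -`, `σ(K) = +`, `K ∉ 𝒜`, hence `K → P` for some `P ≠ K`, `L → K → P` gives `P = L`, so `K → L`, `σ(L) = -`: `L ∈ S`.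
  (In particular `K ≠ L'` in this case, as `K = L'` would give `K → L` and `L → K`.)
-/

open CoxeterSystem Pool.Agent.PolyCell

namespace Pool.Agent.PolyTop

variable {B W : Type*} [Group W] {M : CoxeterMatrix B} (cs : CoxeterSystem M W)

theorem Stp_conj2 (i : B) (t : W) :
    cs.simple i * (cs.simple i * t * cs.simple i) * cs.simple i = t := by
  have h := cs.simple_mul_simple_self i
  have e : cs.simple i * (cs.simple i * t * cs.simple i) * cs.simple i
      = (cs.simple i * cs.simple i) * t * (cs.simple i * cs.simple i) := by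
    simp only [mul_assoc]
  rw [e, h, one_mul, mul_one]

theorem Stp_ref {i : B} {t : W} (ht : cs.IsReflection t) :
    cs.IsReflection (cs.simple i * t * cs.simple i) := by
  have h := (cs.isReflection_conj_iff (cs.simple i) t).mpr ht
  rwa [cs.inv_simple] at h

theorem Stp_ne {i : B} {t : W} (ht : t ≠ cs.simple i) :
    cs.simple i * t * cs.simple i ≠ cs.simple i := by
  intro h
  apply ht
  have h1 := Stp_conj2 cs i t
  rw [h, cs.simple_mul_simple_self, one_mul] at h1
  exact h1.symm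

theorem Stp_self (i : B) (w : W) : Sep cs (cs.simple i) (cs.simple i * w) ↔ ¬ Sep cs (cs.simple i) w := by
  rw [sep_simple_iff, sep_simple_iff, cs.isLeftDescent_iff_not_isLeftDescent_mul]
  have e : cs.simple i * (cs.simple i * w) = w := by
    rw [← mul_assoc, cs.simple_mul_simple_self, one_mul]
  rw [e]

theorem Stp_cross_conj {i : B} {t u : W} (h : Cross cs t u) :
    Cross cs (cs.simple i * t * cs.simple i) (cs.simple i * u * cs.simple i) := by
  have h1 := cross_conj cs (cs.simple i) h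
  rwa [cs.inv_simple] at h1

theorem step (hD : Dich cs) {i : B} {a b : W} (ha : cs.IsRightDescent a i)
    (hb : cs.IsLeftDescent b i) {K : Finset W} (hK : Clq cs K) (h1 : Sub cs K a⁻¹)
    (h2 : Sub cs K (cs.simple i * b)) :
    ∃ K' : Finset W, Clq cs K' ∧ Sub cs K' a⁻¹ ∧ Sub cs K' b ∧ K'.card = K.card + 1 := by
  classical
  obtain ⟨s, hs⟩ : ∃ s, s = cs.simple i := ⟨_, rfl⟩
  obtain ⟨c, hc⟩ : ∃ c : W → W, ∀ t, c t = s * t * s := ⟨_, fun _ => rfl⟩
  have hcc : ∀ t, c (c t) = t := by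
    intro t
    rw [hc, hc, hs]
    exact Stp_conj2 cs i t
  have hcref : ∀ t, cs.IsReflection t → cs.IsReflection (c t) := by
    intro t ht
    rw [hc, hs]; exact Stp_ref cs ht
  have hcne : ∀ t, t ≠ s → c t ≠ s := by
    intro t ht
    rw [hc, hs]; rw [hs] at ht; exact Stp_ne cs ht
  have hself : ∀ w, Sep cs s (s * w) ↔ ¬ Sep cs s w := by
    intro w
    rw [hs]; exact Stp_self cs i w
  have hflip : ∀ t, cs.IsReflection t → t ≠ s → ∀ w, (Sep cs t (s * w) ↔ Sep cs (c t) w) := by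
    intro t ht hne w
    rw [hc, hs]; rw [hs] at hne
    exact sep_simple_mul cs ht hne
  have hflip' : ∀ t, cs.IsReflection t → t ≠ s → ∀ w, (Sep cs (c t) (s * w) ↔ Sep cs t w) := by
    intro t ht hne w
    rw [hflip (c t) (hcref t ht) (hcne t hne) w, hcc]
  have hcc' : ∀ {t u}, Cross cs t u → Cross cs (c t) (c u) := by
    intro t u h
    rw [hc, hc, hs]; exact Stp_cross_conj cs h
  have hss : Sep cs s s := by
    rw [hs]; exact (sep_simple cs).mpr rfl
  have hsx : ∀ t, t ≠ s → ¬ Sep cs t s := by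
    intro t ht h
    rw [hs] at h ht
    exact ht ((sep_simple cs).mp h)
  have hsb : Sep cs s b := by
    rw [hs]; exact (sep_simple_iff cs).mpr hb
  have hsa : Sep cs s a⁻¹ := by
    rw [hs, sep_simple_iff]
    have h := ha
    unfold CoxeterSystem.IsRightDescent at h
    unfold CoxeterSystem.IsLeftDescent
    have e : cs.simple i * a⁻¹ = (a * cs.simple i)⁻¹ := by
      rw [mul_inv_rev, cs.inv_simple]
    rw [e, cs.length_inv, cs.length_inv]
    exact h
  have hs1 : cs.IsReflection s := by rw [hs]; exact cs.isReflection_simple i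
  -- facts on the walls of K
  have hKr : ∀ t ∈ K, cs.IsReflection t := fun t ht => (h1 t ht).1
  have hKne : ∀ t ∈ K, t ≠ s := by
    intro t ht h
    have h3 := h2 t ht
    rw [h, ← hs] at h3
    exact ((hself b).mp h3) hsb
  have hKa : ∀ t ∈ K, Sep cs t a⁻¹ := h1
  have hKb : ∀ t ∈ K, Sep cs (c t) b := by
    intro t ht
    have h3 := h2 t ht
    rw [← hs] at h3
    exact (hflip t (hKr t ht) (hKne t ht) b).mp h3
  have hXs : ∀ t ∈ K, Cross cs s t := by
    intro t ht
    refine ⟨hs1, hKr t ht, ⟨a⁻¹, hsa, hKa t ht⟩, ⟨s, hss, hsx t (hKne t ht)⟩, ⟨s * b, ?_, ?_⟩⟩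
    · rw [hself]; exact fun h => h hsb
    · exact (hflip t (hKr t ht) (hKne t ht) b).mpr (hKb t ht)
  have hXs' : ∀ t ∈ K, Cross cs s (c t) := by
    intro t ht
    refine ⟨hs1, hcref t (hKr t ht), ⟨b, hsb, hKb t ht⟩, ⟨s, hss, hsx _ (hcne t (hKne t ht))⟩,
      ⟨s * a⁻¹, ?_, ?_⟩⟩
    · rw [hself]; exact fun h => h hsa
    · exact (hflip' t (hKr t ht) (hKne t ht) a⁻¹).mpr (hKa t ht)
  -- signs
  obtain ⟨Mn, hMn⟩ : ∃ Mn : W → Prop, ∀ t, Mn t ↔ ∀ w, Sep cs s w → Sep cs t w → Sep cs (c t) w :=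
    ⟨_, fun _ => Iff.rfl⟩
  have hPl : ∀ t ∈ K, ¬ Mn t → ∀ w, Sep cs s w → Sep cs (c t) w → Sep cs t w := by
    intro t ht hn
    have hne := hKne t ht
    rw [hs] at hne
    rcases hD i t (hKr t ht) hne with h | h
    · exfalso
      apply hn
      rw [hMn]
      intro w h3 h4
      rw [hc, hs]
      rw [hs] at h3
      exact h w h3 h4
    · intro w h3 h4
      rw [hc, hs] at h4
      rw [hs] at h3
      exact h w h3 h4
  -- arrows
  obtain ⟨Arr, hArr⟩ : ∃ Arr : W → W → Prop, ∀ t u, Arr t u ↔ ∀ w, Sep cs t w → Sep cs (c u) w :=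
    ⟨_, fun _ _ => Iff.rfl⟩
  have hArr2 : ∀ t ∈ K, ∀ u ∈ K, (Arr t u ↔ ∀ w, Sep cs (c t) w → Sep cs u w) := by
    intro t ht u hu
    rw [hArr]
    constructor
    · intro h w hw
      have h3 := (hflip t (hKr t ht) (hKne t ht) w).mpr hw
      have h4 := h _ h3
      exact (hflip' u (hKr u hu) (hKne u hu) w).mp h4
    · intro h w hw
      have h3 := (hflip' t (hKr t ht) (hKne t ht) w).mpr hw
      have h4 := h _ h3
      exact (hflip u (hKr u hu) (hKne u hu) w).mp h4
  have hopp : ∀ t ∈ K, ∀ u ∈ K, t ≠ u → Arr t u → (Mn t ↔ ¬ Mn u) := by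
    intro t ht u hu hne har
    obtain ⟨w, hw1, hw2⟩ := (hK t ht u hu hne).mp
    have har1 := (hArr t u).mp har
    have har2 := (hArr2 t ht u hu).mp har
    constructor
    · intro hmt hmu
      rw [hMn] at hmt hmu
      by_cases hw : Sep cs s w
      · exact hw2 (har2 w (hmt w hw hw1))
      · have h3 := har1 w hw1
        have h4 : Sep cs u (s * w) := (hflip u (hKr u hu) (hKne u hu) w).mpr h3
        have h5 : Sep cs s (s * w) := (hself w).mpr hw
        have h6 := hmu _ h5 h4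
        exact hw2 ((hflip' u (hKr u hu) (hKne u hu) w).mp h6)
    · intro hmu
      by_contra hmt
      have hpt := hPl t ht hmt
      have hpu := hPl u hu hmu
      by_cases hw : Sep cs s w
      · exact hw2 (hpu w hw (har1 w hw1))
      · have h5 : Sep cs s (s * w) := (hself w).mpr hw
        have h3 : Sep cs (c t) (s * w) := (hflip' t (hKr t ht) (hKne t ht) w).mpr hw1
        have h4 := hpt _ h5 h3
        have h6 := har1 _ h4
        exact hw2 ((hflip' u (hKr u hu) (hKne u hu) w).mp h6)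
  have hchain : ∀ t ∈ K, ∀ u ∈ K, ∀ v ∈ K, Arr t u → Arr u v → t = v := by
    intro t ht u hu v hv h3 h4
    by_contra hne
    obtain ⟨w, hw1, hw2⟩ := (hK t ht v hv hne).mp
    exact hw2 ((hArr2 u hu v hv).mp h4 w ((hArr t u).mp h3 w hw1))
  -- the set S
  obtain ⟨A, hA⟩ : ∃ A : W → Prop, ∀ t, A t ↔ ¬ Sep cs (c t) a⁻¹ := ⟨_, fun _ => Iff.rfl⟩
  have hA1 : ∀ t ∈ K, A t → ¬ Mn t := by
    intro t ht hat hm
    rw [hA] at hat
    rw [hMn] at hm
    exact hat (hm _ hsa (hKa t ht))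
  have hA2 : ∀ t ∈ K, A t → ∀ u ∈ K, ¬ Arr u t := by
    intro t ht hat u hu har
    rw [hA] at hat
    exact hat ((hArr u t).mp har _ (hKa u hu))
  obtain ⟨S, hS⟩ : ∃ S : W → Prop, ∀ t, S t ↔ (A t ∨ (¬ Mn t ∧ ∃ u ∈ K, u ≠ t ∧ Arr t u) ∨
      (Mn t ∧ ∃ u ∈ K, u ≠ t ∧ Arr u t)) := ⟨_, fun _ => Iff.rfl⟩
  have hSb : ∀ t ∈ K, S t → Sep cs t b := by
    intro t ht hst
    by_cases hm : Mn t
    · rw [hS] at hst
      rcases hst with h | h | h
      · exact absurd hm (hA1 t ht h)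
      · exact absurd hm h.1
      · obtain ⟨_, u, hu, _, har⟩ := h
        exact (hArr2 u hu t ht).mp har _ (hKb u hu)
    · exact hPl t ht hm b hsb (hKb t ht)
  -- the key crossing statement
  have hkey : ∀ t ∈ K, ∀ u ∈ K, t ≠ u → S t → ¬ S u → Cross cs t (c u) := by
    intro t ht u hu hne hst hsu
    by_contra hx
    have hcase : Arr t u ∨ Arr u t := by
      rcases nested_of_not_cross cs hx (hSb t ht hst) (hKb u hu) with h | h
      · left
        exact (hArr t u).mpr h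
      · right
        exact (hArr2 u hu t ht).mpr h
    rcases hcase with har | har
    · have ho := hopp t ht u hu hne har
      by_cases hm : Mn t
      · have hmu : ¬ Mn u := ho.mp hm
        have hst' := (hS t).mp hst
        rcases hst' with h | h | h
        · exact hA1 t ht h hm
        · exact h.1 hm
        · obtain ⟨_, v, hv, hvt, harv⟩ := h
          have e := hchain v hv t ht u hu harv har
          subst e
          exact hsu ((hS v).mpr (Or.inr (Or.inl ⟨hmu, t, ht, hne, harv⟩)))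
      · have hmu : Mn u := by
          by_contra hmu
          exact hm (ho.mpr hmu)
        exact hsu ((hS u).mpr (Or.inr (Or.inr ⟨hmu, t, ht, hne, har⟩)))
    · have ho := hopp u hu t ht (Ne.symm hne) har
      by_cases hmu : Mn u
      · have hm : ¬ Mn t := ho.mp hmu
        have hst' := (hS t).mp hst
        rcases hst' with h | h | h
        · exact hA2 t ht h u hu har
        · obtain ⟨_, v, hv, hvt, harv⟩ := h
          have e := hchain u hu t ht v hv har harv
          subst e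
          exact hsu ((hS u).mpr (Or.inr (Or.inr ⟨hmu, t, ht, hne, harv⟩)))
        · exact hm h.1
      · exact hsu ((hS u).mpr (Or.inr (Or.inl ⟨hmu, t, ht, hne, har⟩)))
  obtain ⟨st, hst1, hst2⟩ : ∃ st : W → W, (∀ t, S t → st t = t) ∧ (∀ t, ¬ S t → st t = c t) :=
    ⟨fun t => if S t then t else c t, fun t h => if_pos h, fun t h => if_neg h⟩
  have hX : ∀ t ∈ K, ∀ u ∈ K, t ≠ u → Cross cs (st t) (st u) := by
    intro t ht u hu hne
    by_cases h3 : S t
    · by_cases h4 : S u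
      · rw [hst1 t h3, hst1 u h4]; exact hK t ht u hu hne
      · rw [hst1 t h3, hst2 u h4]; exact hkey t ht u hu hne h3 h4
    · by_cases h4 : S u
      · rw [hst2 t h3, hst1 u h4]
        exact cross_symm cs (hkey u hu t ht (Ne.symm hne) h4 h3)
      · rw [hst2 t h3, hst2 u h4]; exact hcc' (hK t ht u hu hne)
  have hXst : ∀ t ∈ K, Cross cs s (st t) := by
    intro t ht
    by_cases h3 : S t
    · rw [hst1 t h3]; exact hXs t ht
    · rw [hst2 t h3]; exact hXs' t ht
  have hirr : ∀ t, ¬ Cross cs t t := by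
    intro t h
    obtain ⟨w, hw1, hw2⟩ := h.mp
    exact hw2 hw1
  refine ⟨insert s (K.image st), ?_, ?_, ?_, ?_⟩
  · intro t ht u hu hne
    rw [Finset.mem_insert, Finset.mem_image] at ht hu
    rcases ht with rfl | ⟨t', ht', rfl⟩
    · rcases hu with rfl | ⟨u', hu', rfl⟩
      · exact absurd rfl hne
      · exact hXst u' hu'
    · rcases hu with rfl | ⟨u', hu', rfl⟩
      · exact cross_symm cs (hXst t' ht')
      · apply hX t' ht' u' hu'
        rintro rfl
        exact hne rfl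
  · intro t ht
    rw [Finset.mem_insert, Finset.mem_image] at ht
    rcases ht with rfl | ⟨t', ht', rfl⟩
    · exact hsa
    · by_cases h3 : S t'
      · rw [hst1 t' h3]; exact hKa t' ht'
      · rw [hst2 t' h3]
        by_contra h4
        exact h3 ((hS t').mpr (Or.inl ((hA t').mpr h4)))
  · intro t ht
    rw [Finset.mem_insert, Finset.mem_image] at ht
    rcases ht with rfl | ⟨t', ht', rfl⟩
    · exact hsb
    · by_cases h3 : S t'
      · rw [hst1 t' h3]; exact hSb t' ht' h3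
      · rw [hst2 t' h3]; exact hKb t' ht'
  · rw [Finset.card_insert_of_notMem, Finset.card_image_of_injOn]
    · intro t ht u hu he
      by_contra hne
      have h3 := hX t ht u hu hne
      rw [he] at h3
      exact hirr _ h3
    · intro h
      rw [Finset.mem_image] at h
      obtain ⟨t, ht, he⟩ := h
      have h3 := hXst t ht
      rw [he] at h3
      exact hirr _ h3

/-- `N(s a⁻¹) ∩ N(s b) = s (N(a⁻¹) ∩ N(b) ∖ {s}) s` if `s` does not separate... : conjugate the clique by `s`.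
(`i` is a left descent of `b`, `i` arbitrary for `a`: no wall of `K` is `s`, since `s` does not separate `1` and `s b`.) -/
theorem move {i : B} {a b : W} (hb : cs.IsLeftDescent b i) {K : Finset W} (hK : Clq cs K)
    (h1 : Sub cs K (a * cs.simple i)⁻¹) (h2 : Sub cs K (cs.simple i * b)) :
    ∃ K' : Finset W, Clq cs K' ∧ Sub cs K' a⁻¹ ∧ Sub cs K' b ∧ K'.card = K.card := by
  classical
  have hsb : Sep cs (cs.simple i) b := (sep_simple_iff cs).mpr hb
  have hKne : ∀ t ∈ K, t ≠ cs.simple i := by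
    intro t ht h
    have h3 := h2 t ht
    rw [h] at h3
    exact ((Stp_self cs i b).mp h3) hsb
  refine ⟨K.image (fun t => cs.simple i * t * cs.simple i), ?_, ?_, ?_, ?_⟩
  · intro t ht u hu hne
    rw [Finset.mem_image] at ht hu
    obtain ⟨t', ht', rfl⟩ := ht
    obtain ⟨u', hu', rfl⟩ := hu
    apply Stp_cross_conj cs
    apply hK t' ht' u' hu'
    rintro rfl
    exact hne rfl
  · intro t ht
    rw [Finset.mem_image] at ht
    obtain ⟨t', ht', rfl⟩ := ht
    have h3 := h1 t' ht'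
    rw [mul_inv_rev, cs.inv_simple] at h3
    exact (sep_simple_mul cs h3.1 (hKne t' ht')).mp h3
  · intro t ht
    rw [Finset.mem_image] at ht
    obtain ⟨t', ht', rfl⟩ := ht
    have h3 := h2 t' ht'
    exact (sep_simple_mul cs h3.1 (hKne t' ht')).mp h3
  · apply Finset.card_image_of_injective
    intro t u he
    have h3 : cs.simple i * (cs.simple i * t * cs.simple i) * cs.simple i
        = cs.simple i * (cs.simple i * u * cs.simple i) * cs.simple i := by
      have he' : cs.simple i * t * cs.simple i = cs.simple i * u * cs.simple i := he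
      rw [he']
    rwa [Stp_conj2, Stp_conj2] at h3

end Pool.Agent.PolyTop
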