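import Pool.Agent.PolyTop.TopBnd
import Pool.Agent.PolyTop.NoT
import Pool.Agent.PolyTop.ExR

/-!
# The top level of a compact hyperbolic triangle group

`N` is the largest exponent.
-/

open CoxeterSystem Pool.Agent.PolyCell

namespace Pool.Agent.PolyTop

variable {W : Type*} [Group W] {M : CoxeterMatrix (Fin 3)} (cs : CoxeterSystem M W)

theorem Top_two_le {i j : Fin 3} (hij : i ≠ j) (h0 : ∀ i j, M i j ≠ 0) : 2 ≤ M i j := by
  have h1 := M.off_diagonal i j hij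
  have h2 := h0 i j
  omega

private theorem Top_fin3 (i j k : Fin 3) (hij : i ≠ j) (hjk : j ≠ k) (hik : i ≠ k) (l : Fin 3) :
    l = i ∨ l = j ∨ l = k := by
  omega

theorem noThree_tri (h0 : ∀ i j, M i j ≠ 0) (h : (1 : ℝ) / M 0 1 + 1 / M 0 2 + 1 / M 1 2 < 1)
    {N : ℕ} (hN : ∀ i j, M i j ≤ N) (hex : ∃ i j, i ≠ j ∧ M i j = N) : NoThree cs := by
  obtain ⟨R⟩ := exists_rzn M h0 h
  have h2 : 2 ≤ N := by
    obtain ⟨i, j, hij, hm⟩ := hex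
    rw [← hm]
    exact Top_two_le hij h0
  exact noThree_top cs (fun w => fb1 cs R h2 hN w) h2 Top_fin3 hex

theorem geo_tri (h0 : ∀ i j, M i j ≠ 0) (h : (1 : ℝ) / M 0 1 + 1 / M 0 2 + 1 / M 1 2 < 1)
    {N : ℕ} (hN : ∀ i j, M i j ≤ N) (hex : ∃ i j, i ≠ j ∧ M i j = N) : Geo cs N := by
  obtain ⟨R⟩ := exists_rzn M h0 h
  have h2 : 2 ≤ N := by
    obtain ⟨i, j, hij, hm⟩ := hex
    rw [← hm]
    exact Top_two_le hij h0
  exact geo_top cs (fun w => fb1 cs R h2 hN w) h2 hN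

theorem bnd_tri (h0 : ∀ i j, M i j ≠ 0) (h : (1 : ℝ) / M 0 1 + 1 / M 0 2 + 1 / M 1 2 < 1)
    {N : ℕ} (hN : ∀ i j, M i j ≤ N) (hex : ∃ i j, i ≠ j ∧ M i j = N) {C : W → Hk cs}
    (hC : IsKL cs C) : Bnd cs C N := by
  obtain ⟨R⟩ := exists_rzn M h0 h
  have h2 : 2 ≤ N := by
    obtain ⟨i, j, hij, hm⟩ := hex
    rw [← hm]
    exact Top_two_le hij h0
  exact bnd_top cs R hC h2 hN

end Pool.Agent.PolyTop
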