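import Pool.Agent.PolyTop.FacS
import Pool.Agent.PolyCell.Geo

/-!
# `Geo` at the top level

`geo_top`, `vset`: `len_top`; `Le cs N` is trivial (`M i j ≤ N`).
`geo_top`, `a3`: `T = {i,j}`, `M i j = N`, `(x,T)` first, `u ∈ D_T`, `u ≠ w_T`. Suppose `Fac (N-1) (x u)`; put `v = (x u)⁻¹ = u⁻¹ x⁻¹` (reduced,
`len_mul_D`); `v = g w_{T'} z` reduced with `M T' = N` (`fac_inv`, `hN`), `𝒲 = g {reflections of D_{T'}} g⁻¹`: all walls in `𝒲` separate `1` and `v` (`sep_red`), the sign of a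
wall `L ∉ 𝒲` is constant on `g D_{T'}` (`g D_{T'} = ` the elements `g ν`; `sep_mul`, `sep_mem_D`).
(1) If `L ∈ D_T` is a reflection, `L ∉ 𝒲`, then `Sep L v ↔ Sep L g`. Otherwise let `b = u⁻¹ w_T ∈ D_T` (opposite to `u⁻¹` in `D_T`: every reflection of `D_T` separates exactly one of `b`, `v`: `sep_mul`, `sep_wT`,
  `sep_D_mul`). If `𝒲` contains no reflection of `D_T`... in all cases the set `{L} ∪ 𝒲` has `N + 1` elements; all its walls separate `b` and `v`
  (for `K ∈ 𝒲 ∖ D_T`: not `b`, as `b ∈ D_T` (`sep_mem_D`), but `v`), and they cross pairwise: two walls of `𝒲` (`cross_D`, `cross_conj`); `L` and `K ∈ 𝒲 ∩ D_T` (`cross_D`); `L` and `K ∈ 𝒲 ∖ D_T`: `K` is on the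
  side of `1` for all elements of `D_T`, `L` has both signs on `D_T` (`1`, `L`); `K` has both signs on `g D_{T'}`, where `L` has the sign of
  `g`; `v` has the other sign for `L` and is beyond `K`: all four patterns. `clq_translate` with `b`, `FB1 N (b⁻¹ v)`: contradiction.
(2) `u ≠ 1` (otherwise `Fac (N-1) x`, but `x` is a prefix of `x s_i`, `First.fi`). Let `c` be the last letter: `k ∈ {i,j}` is a left descent of
  `u`, i.e. a right descent of `u⁻¹ = u₁ s_k`, reduced. Let `{f, f'} = {i,j}` with `f'` not a left descent of `u⁻¹` (`u⁻¹ ≠ w_T`, `eq_wT_of_ld`). `v = u₁ (s_k x⁻¹)` reduced.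
  `Le (N-1) (x s_k)` (`First.fi`, `First.fj`), so not all walls of `𝒲` are in `u₁ N(s_k x⁻¹) u₁⁻¹` (see [*]), so some
  `L ∈ 𝒲` separates `1` and `u₁`, in particular `L ∈ D_T`.
  There is `g' ∈ g D_{T'}` with `¬ Sep L g'` and `Sep L_k g'`, `L_k = u₁ s_k u₁⁻¹ ≠ L`: if `L_k ∈ 𝒲`: `exists_sep_D` for `D_{T'}` (translated by `g`, no wall of `𝒲` separates `1` and `g`); if
  `L_k ∉ 𝒲`: `g' = g` (`Sep L_k v`, (1)). Also `¬ Sep s_{f'} g'`: `s_{f'} ∉ 𝒲` since `¬ Sep s_{f'} v`; use (1). Write `g' = u' y'` (`decompL`), `u' ∈ D_T`: `Sep L_k u'`,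
  `¬ Sep L u'`, `f'` not a left descent of `u'`: contradiction to `seg_D` (`u := u₁`, `i := f`, `j := f'`).
  [*: if all walls of `𝒲` are in `u₁ N(s_k x⁻¹) u₁⁻¹`, then all walls `(u₁⁻¹ g) κ (u₁⁻¹ g)⁻¹` separate `1` and `s_k x⁻¹`; by `fac_of_sep` `Fac (N-1) (s_k x⁻¹)`, `fac_inv`.]
-/

open CoxeterSystem Pool.Agent.PolyCell

namespace Pool.Agent.PolyTop

variable {B W : Type*} [Group W] {M : CoxeterMatrix B} (cs : CoxeterSystem M W)

private theorem TopGeo_mem {i j k : B} (hk : k = i ∨ k = j) : cs.simple k ∈ D cs i j := by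
  rcases hk with rfl | rfl
  · exact Subgroup.subset_closure (by simp)
  · exact Subgroup.subset_closure (by simp)

private theorem TopGeo_D_symm (i j : B) : D cs i j = D cs j i := by
  unfold D
  rw [Set.pair_comm]

private theorem TopGeo_linv {i j : B} {x : W} (hx : Rmin cs i j x) : Lmin cs i j x⁻¹ :=
  ⟨fun h => hx.1 (cs.isLeftDescent_inv_iff.1 h), fun h => hx.2 (cs.isLeftDescent_inv_iff.1 h)⟩

/-- the cocycle, walls written as conjugates -/
private theorem TopGeo_conj {g κ : W} (hκ : cs.IsReflection κ) (y : W) :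
    Sep cs (g * κ * g⁻¹) (g * y) ↔ ¬ (Sep cs (g * κ * g⁻¹) g ↔ Sep cs κ y) := by
  have h := sep_mul cs (hκ.conj g) g y
  have e : g⁻¹ * (g * κ * g⁻¹) * g = κ := by group
  rw [e] at h
  exact h

/-- the walls of `g D g⁻¹` for a reduced factorisation `v = g w_T z` -/
private theorem TopGeo_wall {i j : B} (hij : i ≠ j) (hm : M i j ≠ 0) {g z v : W}
    (hv : v = g * wT cs i j * z) (hl : cs.length v = cs.length g + M i j + cs.length z)
    {κ : W} (hκ : κ ∈ D cs i j) (hr : cs.IsReflection κ) :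
    ¬ Sep cs (g * κ * g⁻¹) g ∧ Sep cs (g * κ * g⁻¹) v := by
  have h1 := cs.length_mul_le (wT cs i j) z
  have h2 := cs.length_mul_le g (wT cs i j * z)
  have h3 := length_wT cs hij
  rw [mul_assoc] at hv
  rw [← hv] at h2
  have hr1 : Red cs (wT cs i j) z := by
    show cs.length _ = _
    omega
  have hr2 : Red cs g (wT cs i j * z) := by
    show cs.length _ = _
    rw [← hv]
    omega
  have h4 : Sep cs κ (wT cs i j * z) := (sep_red cs hr1 κ).2 (Or.inl (sep_wT cs hij hm hκ hr))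
  have e : g⁻¹ * (g * κ * g⁻¹) * g = κ := by group
  have h5 : ¬ Sep cs (g * κ * g⁻¹) g := by
    intro h6
    have h7 := sep_red_not cs hr2 h6
    rw [e] at h7
    exact h7 h4
  refine ⟨h5, ?_⟩
  rw [hv]
  exact (sep_red cs hr2 _).2 (Or.inr (by rw [e]; exact h4))

/-- the sign of a wall which is not in `g D g⁻¹` is constant on `g D` -/
private theorem TopGeo_const {i j : B} {g L : W} (hLr : cs.IsReflection L)
    (hLW : ∀ κ ∈ D cs i j, cs.IsReflection κ → L ≠ g * κ * g⁻¹) {ν : W} (hν : ν ∈ D cs i j) :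
    Sep cs L (g * ν) ↔ Sep cs L g := by
  have h := sep_mul cs hLr g ν
  have h1 : ¬ Sep cs (g⁻¹ * L * g) ν := by
    intro h2
    have h3 := sep_mem_D cs hν h2
    exact hLW _ h3 h2.1 (by group)
  rw [h]
  tauto

/-- a wall of `D` separates exactly one of the opposite elements -/
private theorem TopGeo_opp {i j : B} (hij : i ≠ j) (hm : M i j ≠ 0) {x u t : W}
    (hx : Rmin cs i j x) (hu : u ∈ D cs i j) (ht : t ∈ D cs i j) (hr : cs.IsReflection t) :
    ¬ (Sep cs t (u⁻¹ * wT cs i j) ↔ Sep cs t (u⁻¹ * x⁻¹)) := by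
  have h1 := sep_D_mul cs hij (Subgroup.inv_mem _ hu) (TopGeo_linv cs hx) ht
  have h2 := sep_mul cs hr u⁻¹ (wT cs i j)
  have h3 : Sep cs (u⁻¹⁻¹ * t * u⁻¹) (wT cs i j) := by
    refine sep_wT cs hij hm ?_ ?_
    · exact Subgroup.mul_mem _ (Subgroup.mul_mem _
        (Subgroup.inv_mem _ (Subgroup.inv_mem _ hu)) ht) (Subgroup.inv_mem _ hu)
    · have h4 := hr.conj u
      rwa [inv_inv]
  rw [h1, h2]
  tauto

open Classical in
/-- step (1) -/
private theorem TopGeo_one {N : ℕ} (hF : ∀ w, FB1 cs N w) (h2 : 2 ≤ N) {i j i' j' : B}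
    (hij : i ≠ j) (hm : M i j = N) (hij' : i' ≠ j') (hm' : M i' j' = N) {g v u x : W}
    (hx : Rmin cs i j x) (hu : u ∈ D cs i j) (hv : v = u⁻¹ * x⁻¹)
    (hg : ∀ κ ∈ D cs i' j', cs.IsReflection κ →
      ¬ Sep cs (g * κ * g⁻¹) g ∧ Sep cs (g * κ * g⁻¹) v)
    {L : W} (hL : L ∈ D cs i j) (hLr : cs.IsReflection L)
    (hLW : ∀ κ ∈ D cs i' j', cs.IsReflection κ → L ≠ g * κ * g⁻¹) :
    Sep cs L v ↔ Sep cs L g := by
  by_contra hcon
  have hm0 : M i j ≠ 0 := by omega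
  have hm0' : M i' j' ≠ 0 := by omega
  obtain ⟨R, hR, hRc⟩ := exists_refl_D cs hij' hm0'
  obtain ⟨K, hK⟩ : ∃ K : Finset W, K = R.image (fun κ => g * κ * g⁻¹) := ⟨_, rfl⟩
  have hKmem : ∀ t ∈ K, ∃ κ ∈ D cs i' j', cs.IsReflection κ ∧ t = g * κ * g⁻¹ := by
    intro t ht
    rw [hK] at ht
    obtain ⟨κ, hκ, rfl⟩ := Finset.mem_image.1 ht
    exact ⟨κ, ((hR κ).1 hκ).2, ((hR κ).1 hκ).1, rfl⟩
  have hKc : K.card = N := by
    rw [hK, Finset.card_image_of_injective, hRc, hm']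
    intro a b hab
    exact mul_left_cancel (mul_right_cancel hab)
  have hLK : L ∉ K := by
    intro h
    obtain ⟨κ, h3, h4, h5⟩ := hKmem L h
    exact hLW κ h3 h4 h5
  have hcr : ∀ t ∈ K, Cross cs L t := by
    intro t ht
    obtain ⟨κ, hκ, hκr, rfl⟩ := hKmem t ht
    by_cases htD : g * κ * g⁻¹ ∈ D cs i j
    · exact cross_D cs hij hm0 hL hLr htD (hκr.conj g) (hLW κ hκ hκr)
    · have h3 := hg κ hκ hκr
      have h4 : Sep cs (g * κ * g⁻¹) (g * wT cs i' j') := by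
        rw [TopGeo_conj cs hκr]
        have h5 := sep_wT cs hij' hm0' hκ hκr
        tauto
      have h5 := TopGeo_const cs hLr hLW (wT_mem cs i' j')
      have h6 : ¬ Sep cs (g * κ * g⁻¹) (wT cs i j) :=
        fun h => htD (sep_mem_D cs (wT_mem cs i j) h)
      have h7 := sep_wT cs hij hm0 hL hLr
      by_cases h8 : Sep cs L g
      · exact ⟨hLr, hκr.conj g, ⟨_, h5.2 h8, h4⟩, ⟨_, h7, h6⟩, ⟨v, by tauto, h3.2⟩⟩
      · exact ⟨hLr, hκr.conj g, ⟨v, by tauto, h3.2⟩, ⟨_, h7, h6⟩,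
          ⟨_, fun h => h8 (h5.1 h), h4⟩⟩
  have hclq : Clq cs (insert L K) := by
    intro t ht s hs hts
    rcases Finset.mem_insert.1 ht with ht | ht
    · rcases Finset.mem_insert.1 hs with hs | hs
      · exact absurd (ht.trans hs.symm) hts
      · rw [ht]
        exact hcr s hs
    · rcases Finset.mem_insert.1 hs with hs | hs
      · rw [hs]
        exact cross_symm cs (hcr t ht)
      · obtain ⟨κ, hκ, hκr, rfl⟩ := hKmem t ht
        obtain ⟨κ', hκ', hκr', rfl⟩ := hKmem s hs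
        refine cross_conj cs g (cross_D cs hij' hm0' hκ hκr hκ' hκr' ?_)
        rintro rfl
        exact hts rfl
  have hsub : ∀ t ∈ insert L K, ¬ (Sep cs t (u⁻¹ * wT cs i j) ↔ Sep cs t v) := by
    intro t ht
    rcases Finset.mem_insert.1 ht with ht | ht
    · rw [hv, ht]
      exact TopGeo_opp cs hij hm0 hx hu hL hLr
    · obtain ⟨κ, hκ, hκr, rfl⟩ := hKmem t ht
      by_cases htD : g * κ * g⁻¹ ∈ D cs i j
      · rw [hv]
        exact TopGeo_opp cs hij hm0 hx hu htD (hκr.conj g)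
      · have h3 := (hg κ hκ hκr).2
        have h4 : ¬ Sep cs (g * κ * g⁻¹) (u⁻¹ * wT cs i j) := fun h =>
          htD (sep_mem_D cs (Subgroup.mul_mem _ (Subgroup.inv_mem _ hu) (wT_mem cs i j)) h)
        tauto
  obtain ⟨K', h3, h4, h5⟩ := clq_translate cs hclq hsub
  have h6 := hF _ K' h3 h4
  rw [h5, Finset.card_insert_of_notMem hLK, hKc] at h6
  omega

/-- step (2) -/
private theorem TopGeo_two {N : ℕ} (hF : ∀ w, FB1 cs N w) (h2 : 2 ≤ N) (hN : ∀ i j, M i j ≤ N)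
    {i j : B} {x u : W} (h : First cs N i j x) (hu : u ∈ D cs i j)
    (hj : ¬ cs.IsLeftDescent u⁻¹ j) : Le cs (N - 1) (x * u) := by
  intro hfac
  have hij := h.ne
  have hm0 : M i j ≠ 0 := by
    have := h.exp
    omega
  rw [← fac_inv, mul_inv_rev] at hfac
  obtain ⟨i', j', hij', hm', g, z, hv, hl⟩ := hfac
  have hmN : M i' j' = N := by
    have := hN i' j'
    omega
  have hm0' : M i' j' ≠ 0 := by omega
  have hg : ∀ κ ∈ D cs i' j', cs.IsReflection κ →
      ¬ Sep cs (g * κ * g⁻¹) g ∧ Sep cs (g * κ * g⁻¹) (u⁻¹ * x⁻¹) :=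
    fun κ hκ hκr => TopGeo_wall cs hij' hm0' hv hl hκ hκr
  have hone : ∀ L ∈ D cs i j, cs.IsReflection L →
      (∀ κ ∈ D cs i' j', cs.IsReflection κ → L ≠ g * κ * g⁻¹) →
      (Sep cs L (u⁻¹ * x⁻¹) ↔ Sep cs L g) := fun L hL hLr hLW =>
    TopGeo_one cs hF h2 hij h.exp hij' hmN h.rmin hu rfl hg hL hLr hLW
  have hxl := TopGeo_linv cs h.rmin
  have hui : u⁻¹ ∈ D cs i j := Subgroup.inv_mem _ hu
  have hu1 : u ≠ 1 := by
    intro hu1
    have h3 : Fac cs (N - 1) x := by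
      rw [← fac_inv]
      rw [hu1, inv_one, one_mul] at hv hl
      exact ⟨i', j', hij', hm', g, z, hv, hl⟩
    have h4 : Red cs x (cs.simple i) := by
      show cs.length _ = _
      rw [cs.length_simple]
      exact cs.not_isRightDescent_iff.1 h.rmin.1
    exact le_prefix cs h4 h.fi h3
  obtain ⟨k, hk⟩ := cs.exists_leftDescent_of_ne_one hu1
  have hkij := ld_of_mem_D cs hij hu hk
  have hfk : Le cs (N - 1) (x * cs.simple k) := by
    rcases hkij with e | e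
    · rw [e]
      exact h.fi
    · rw [e]
      exact h.fj
  have hkr : cs.IsRightDescent u⁻¹ k := cs.isRightDescent_inv_iff.2 hk
  obtain ⟨u₁, hu₁⟩ : ∃ u₁, u₁ = u⁻¹ * cs.simple k := ⟨_, rfl⟩
  have hu₁k : u₁ * cs.simple k = u⁻¹ := by rw [hu₁, cs.simple_mul_simple_cancel_right]
  have hu₁D : u₁ ∈ D cs i j := by
    rw [hu₁]
    exact Subgroup.mul_mem _ hui (TopGeo_mem cs hkij)
  have hlen : cs.length u₁ + 1 = cs.length u⁻¹ := by
    rw [hu₁]
    exact cs.isRightDescent_iff.1 hkr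
  have hnr : ¬ cs.IsRightDescent u₁ k := by
    rw [cs.not_isRightDescent_iff, hu₁k]
    omega
  have hlv : cs.length (u⁻¹ * x⁻¹) = cs.length u⁻¹ + cs.length x⁻¹ := len_D_mul cs hij hxl hui
  have hlk : cs.length (cs.simple k * x⁻¹) = cs.length x⁻¹ + 1 := by
    apply cs.not_isLeftDescent_iff.1
    rcases hkij with e | e
    · rw [e]
      exact hxl.1
    · rw [e]
      exact hxl.2
  have hev : u₁ * (cs.simple k * x⁻¹) = u⁻¹ * x⁻¹ := by rw [← mul_assoc, hu₁k]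
  have hred : Red cs u₁ (cs.simple k * x⁻¹) := by
    show cs.length _ = _
    rw [hev]
    omega
  obtain ⟨κ, hκ, hκr, hκn⟩ : ∃ κ ∈ D cs i' j', cs.IsReflection κ ∧
      ¬ Sep cs (u₁⁻¹ * (g * κ * g⁻¹) * u₁) (cs.simple k * x⁻¹) := by
    by_contra hcon
    push Not at hcon
    have h3 : Fac cs (N - 1) (cs.simple k * x⁻¹) := by
      refine fac_of_sep cs hF hij' hmN h2 (g := u₁⁻¹ * g) ?_
      intro κ hκ hκr
      have h4 := hcon κ hκ hκr
      have e : u₁⁻¹ * g * κ * (u₁⁻¹ * g)⁻¹ = u₁⁻¹ * (g * κ * g⁻¹) * u₁ := by group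
      rw [e]
      exact h4
    rw [← fac_inv, mul_inv_rev, inv_inv, cs.inv_simple] at h3
    exact hfk h3
  obtain ⟨L, hLdef⟩ : ∃ L, L = g * κ * g⁻¹ := ⟨_, rfl⟩
  rw [← hLdef] at hκn
  have hLg := hg κ hκ hκr
  rw [← hLdef] at hLg
  have hLv : Sep cs L (u₁ * (cs.simple k * x⁻¹)) := by
    rw [hev]
    exact hLg.2
  have hLu : Sep cs L u₁ := ((sep_red cs hred L).1 hLv).resolve_right hκn
  have hLD : L ∈ D cs i j := sep_mem_D cs hu₁D hLu
  obtain ⟨Lk, hLk⟩ : ∃ Lk, Lk = u₁ * cs.simple k * u₁⁻¹ := ⟨_, rfl⟩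
  have hLkr : cs.IsReflection Lk := by
    rw [hLk]
    exact (cs.isReflection_simple k).conj u₁
  have hLkD : Lk ∈ D cs i j := by
    rw [hLk]
    exact Subgroup.mul_mem _ (Subgroup.mul_mem _ hu₁D (TopGeo_mem cs hkij))
      (Subgroup.inv_mem _ hu₁D)
  have hLku : ¬ Sep cs Lk u₁ := by
    rintro ⟨-, h3⟩
    rw [hLk, inv_mul_cancel_right, hu₁k] at h3
    omega
  have hLku' : Sep cs Lk u⁻¹ := by
    refine ⟨hLkr, ?_⟩
    have e : Lk * u⁻¹ = u₁ := by
      rw [hLk, hu₁k, hu₁]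
      simp [mul_assoc]
    rw [e]
    omega
  have hLkv : Sep cs Lk (u⁻¹ * x⁻¹) := (sep_D_mul cs hij hui hxl hLkD).2 hLku'
  obtain ⟨ν, hν, hν1, hν2⟩ : ∃ ν ∈ D cs i' j', ¬ Sep cs L (g * ν) ∧ Sep cs Lk (g * ν) := by
    by_cases hc : ∀ κ ∈ D cs i' j', cs.IsReflection κ → Lk ≠ g * κ * g⁻¹
    · refine ⟨1, Subgroup.one_mem _, ?_, ?_⟩
      · rw [mul_one]
        exact hLg.1
      · rw [mul_one]
        exact (hone Lk hLkD hLkr hc).1 hLkv
    · push Not at hc
      obtain ⟨κ', hκ', hκr', he⟩ := hc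
      have hne : κ' ≠ κ := by
        intro e
        apply hLku
        rw [he, e, ← hLdef]
        exact hLu
      obtain ⟨ν, hν, h3, h4⟩ := exists_sep_D cs hij' hm0' hκ' hκr' hκ hκr hne
      refine ⟨ν, hν, ?_, ?_⟩
      · rw [hLdef, TopGeo_conj cs hκr]
        have := (hg κ hκ hκr).1
        tauto
      · rw [he, TopGeo_conj cs hκr']
        have := (hg κ' hκ' hκr').1
        tauto
  have hjv : ¬ Sep cs (cs.simple j) (u⁻¹ * x⁻¹) := by
    rw [sep_D_mul cs hij hui hxl (TopGeo_mem cs (Or.inr rfl)), sep_simple_iff]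
    exact hj
  have hjW : ∀ κ ∈ D cs i' j', cs.IsReflection κ → cs.simple j ≠ g * κ * g⁻¹ := by
    intro κ hκ hκr he
    apply hjv
    rw [he]
    exact (hg κ hκ hκr).2
  have hjg : ¬ Sep cs (cs.simple j) (g * ν) := by
    rw [TopGeo_const cs (cs.isReflection_simple j) hjW hν,
      ← hone _ (TopGeo_mem cs (Or.inr rfl)) (cs.isReflection_simple j) hjW]
    exact hjv
  obtain ⟨u', y', hy', hu', he⟩ := decompL cs hij (g * ν)
  rw [he] at hν1 hν2 hjg
  rw [sep_D_mul cs hij hu' hy' hLD] at hν1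
  rw [sep_D_mul cs hij hu' hy' hLkD, hLk] at hν2
  rw [sep_D_mul cs hij hu' hy' (TopGeo_mem cs (Or.inr rfl)), sep_simple_iff] at hjg
  exact hν1 (seg_D cs hij hm0 hu₁D hu' hkij hnr (by rw [hu₁k]; exact hj) hjg hν2 L hLu)

theorem geo_top {N : ℕ} (hF : ∀ w, FB1 cs N w) (h2 : 2 ≤ N) (hN : ∀ i j, M i j ≤ N) :
    Geo cs N := by
  refine ⟨?_, ?_⟩
  · intro i j x u h hu hne
    have hm0 : M i j ≠ 0 := by
      have := h.exp
      omega
    by_cases hj : cs.IsLeftDescent u⁻¹ j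
    · have hi : ¬ cs.IsLeftDescent u⁻¹ i := by
        intro hi
        have h3 := eq_wT_of_ld cs h.ne hm0 (Subgroup.inv_mem _ hu) hi hj
        apply hne
        rw [← inv_inv u, h3, wT_inv]
      have h' : First cs N j i x :=
        ⟨h.ne.symm, by rw [M.symmetric j i]; exact h.exp, ⟨h.rmin.2, h.rmin.1⟩,
          by rw [wT_symm]; exact h.le, h.fj, h.fi⟩
      exact TopGeo_two cs hF h2 hN h' (by rw [TopGeo_D_symm]; exact hu) hi
    · exact TopGeo_two cs hF h2 hN h hu hj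
  · intro i j x y hij hm hx _ hy _
    refine ⟨len_top cs hF hij hm (by omega) hx hy, ?_⟩
    rintro ⟨i', j', _, hm', _⟩
    have := hN i' j'
    omega

end Pool.Agent.PolyTop
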