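import Pool.Agent.PolyTop.CB2
import Pool.Agent.PolyTop.Dch
import Pool.Agent.PolyTop.Dg
import Pool.Agent.PolyTop.TopGeo
import Pool.Agent.PolyCell.Bnd

/-!
# The degree bounds at the top level

`a`: `FB N x y` from `FB1 N x⁻¹`. `a'`: a clique of `N` walls would give `Fac (N-1) x⁻¹` (`fac_of_clq`, `fac_inv`).
`d`: `T_x T_u = T_{x u}`; a clique `K` for `(x u, y)` gives one of `|K| + ℓ(u)` elements (`clq_dih`) for `(x u)⁻¹`, so `|K| ≤ N - ℓ(u)`. If `ℓ(u) > N`.. cannot
happen (`len_D_le`). `d'`: moreover `|K| + ℓ(u) ≤ N - 1` since `x u ∈ W_{<N}` (`Geo.a3`), `fac_of_clq`.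
-/

open CoxeterSystem Pool.Agent.PolyCell

namespace Pool.Agent.PolyTop

variable {B W : Type*} [Group W] {M : CoxeterMatrix B} (cs : CoxeterSystem M W) (R : Rzn M)

private theorem TopBnd_clq_empty : Clq cs (∅ : Finset W) := by
  intro t ht
  exact absurd ht (Finset.notMem_empty t)

private theorem TopBnd_sub_empty (w : W) : Sub cs (∅ : Finset W) w := by
  intro t ht
  exact absurd ht (Finset.notMem_empty t)

/-- if all cliques for `(x u)⁻¹` have at most `n` elements then those for `(x u, y)` have at most `n - ℓ(u)` -/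
private theorem TopBnd_FB {i j : B} (hij : i ≠ j) (hm : M i j ≠ 0) {x u y : W}
    (hx : Rmin cs i j x) (hy : Lmin cs i j y) (hu : u ∈ D cs i j) {n : ℕ}
    (h : ∀ K : Finset W, Clq cs K → Sub cs K (x * u)⁻¹ → K.card ≤ n) :
    cs.length u ≤ n ∧ FB cs (n - cs.length u) (x * u) y := by
  constructor
  · obtain ⟨K', h1, h2, h3⟩ := clq_dih cs hij hm hx hy hu (TopBnd_clq_empty cs)
      (TopBnd_sub_empty cs _) (TopBnd_sub_empty cs _)
    have h4 := h K' h1 h2
    rw [Finset.card_empty] at h3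
    omega
  · intro K hK hK1 hK2
    obtain ⟨K', h1, h2, h3⟩ := clq_dih cs hij hm hx hy hu hK hK1 hK2
    have h4 := h K' h1 h2
    omega

include R in
theorem bnd_top {C : W → Hk cs} (hC : IsKL cs C) {N : ℕ} (h2 : 2 ≤ N) (hN : ∀ i j, M i j ≤ N) :
    Bnd cs C N := by
  have hD : Dich cs := dich cs R
  have hF : ∀ w, FB1 cs N w := fb1 cs R h2 hN
  have hG : Geo cs N := geo_top cs hF h2 hN
  have hle : ∀ w : W, Le cs (N - 1) w → ∀ K : Finset W, Clq cs K → Sub cs K w⁻¹ →
      K.card ≤ N - 1 := by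
    intro w hw K hK hKw
    have h3 := hF _ K hK hKw
    by_contra h4
    have h5 : K.card = N := by omega
    exact hw ((fac_inv cs).1 (fac_of_clq cs R h2 hN hK hKw h5))
  refine ⟨?_, ?_, ?_, ?_⟩
  · intro x y
    exact lat_of_FB cs hD hC fun K hK h1 _ => hF _ K hK h1
  · intro x y hx
    have h3 : FB cs (N - 1) x y := fun K hK h1 _ => hle x hx K hK h1
    have h4 := lat_of_FB cs hD hC (N := N) h3
    refine lat_mono ?_ h4
    omega
  · intro i j x y u hij hm0 hm hx hy hu
    obtain ⟨h3, h4⟩ := TopBnd_FB cs hij hm0 hx hy hu (hF (x * u)⁻¹)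
    rw [T_mul_T cs (show Red cs x u from len_mul_D cs hij hx hu)]
    refine lat_mono ?_ (lat_of_FB cs hD hC (N := N) h4)
    omega
  · intro i j x y u hx hy _ hu hne
    have hm0 : M i j ≠ 0 := by
      rw [hx.exp]
      omega
    obtain ⟨h3, h4⟩ := TopBnd_FB cs hx.ne hm0 hx.rmin hy hu (hle (x * u) (hG.a3 hx hu hne))
    rw [T_mul_T cs (show Red cs x u from len_mul_D cs hx.ne hx.rmin hu)]
    refine lat_mono ?_ (lat_of_FB cs hD hC (N := N) h4)
    omega

end Pool.Agent.PolyTop
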